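import Pool.Agent.T9h15.UO.Fm

set_option autoImplicit false
set_option linter.unusedSectionVars false
set_option linter.unusedSimpArgs false

/-! The explicit description of trivial formations. -/

namespace Pool.Agent.T9h15.UO

open Matrix TH57.Thr TH6.LF TH6.CX

variable {Γ : Type} [Group Γ]

section eg

variable {K K' A : Type} [Fintype K] [DecidableEq K] [Fintype K'] [DecidableEq K'] [Fintype A]
  [DecidableEq A]

/-- the elementary isometries of a hyperbolic form -/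
def gens (Γ : Type) [Group Γ] (δ : ℤ) (K : Type) [Fintype K] [DecidableEq K] :
    Set (Matrix (K ⊕ K) (K ⊕ K) (MonoidAlgebra ℤ Γ))ˣ :=
  {u | (∃ χ : Matrix K K (MonoidAlgebra ℤ Γ), u.val = fromBlocks 1 0 (χ - δ • adj χ) 1) ∨
    (∃ χ : Matrix K K (MonoidAlgebra ℤ Γ), u.val = fromBlocks 1 (χ - δ • adj χ) 0 1) ∨
    ∃ E : (Matrix K K (MonoidAlgebra ℤ Γ))ˣ, TT (TU Γ) E ∧
      u.val = fromBlocks E.val 0 0 (adj (E⁻¹).val)}

/-- the group of elementary isometries -/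
noncomputable def EG (Γ : Type) [Group Γ] (δ : ℤ) (K : Type) [Fintype K] [DecidableEq K] :
    Subgroup (Matrix (K ⊕ K) (K ⊕ K) (MonoidAlgebra ℤ Γ))ˣ := Subgroup.closure (gens Γ δ K)

theorem eg_re {δ : ℤ} (e : K ≃ K') (u : (Matrix (K' ⊕ K') (K' ⊕ K') (MonoidAlgebra ℤ Γ))ˣ)
    (hu : u ∈ EG Γ δ K') : Units.map (re (Equiv.sumCongr e e)) u ∈ EG Γ δ K := by
  have h1 : EG Γ δ K' ≤ (EG Γ δ K).comap (Units.map (re (Equiv.sumCongr e e))) := by
    refine (Subgroup.closure_le _).mpr ?_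
    rintro v hv
    refine Subgroup.subset_closure ?_
    have hval : (Units.map (re (Equiv.sumCongr e e)) v).val
        = v.val.submatrix (Equiv.sumCongr e e) (Equiv.sumCongr e e) := rfl
    have hb : ∀ a b c d : Matrix K' K' (MonoidAlgebra ℤ Γ),
        (fromBlocks a b c d).submatrix (Equiv.sumCongr e e) (Equiv.sumCongr e e)
        = fromBlocks (a.submatrix e e) (b.submatrix e e) (c.submatrix e e) (d.submatrix e e) := by
      intro a b c d
      ext1 i j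
      rcases i with i | i <;> rcases j with j | j <;> rfl
    have hx : ∀ χ : Matrix K' K' (MonoidAlgebra ℤ Γ), (χ - δ • adj χ).submatrix e e
        = χ.submatrix e e - δ • adj (χ.submatrix e e) := fun χ => rfl
    rcases hv with ⟨χ, hχ⟩ | ⟨χ, hχ⟩ | ⟨E, hE, hEv⟩
    · left
      refine ⟨χ.submatrix e e, ?_⟩
      rw [hval, hχ, hb, hx, Matrix.submatrix_one_equiv, Matrix.submatrix_zero]
      rfl
    · right; left
      refine ⟨χ.submatrix e e, ?_⟩
      rw [hval, hχ, hb, hx, Matrix.submatrix_one_equiv, Matrix.submatrix_zero]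
      rfl
    · have h1 : TT (TU Γ) (Units.map (re e) E) := TT_re (TU Γ) e E hE
      have h2 : (Units.map (re (Equiv.sumCongr e e)) v).val
          = fromBlocks (Units.map (re e) E).val 0 0 (adj ((Units.map (re e) E)⁻¹).val) := by
        rw [hval, hEv, hb, Matrix.submatrix_zero]
        rfl
      exact Or.inr (Or.inr ⟨Units.map (re e) E, h1, h2⟩)
  exact h1 hu

/-- stabilisation of isometries -/
noncomputable def sbm (A : Type) [Fintype A] [DecidableEq A] : Matrix (K ⊕ K) (K ⊕ K) (MonoidAlgebra ℤ Γ) →*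
    Matrix ((K ⊕ A) ⊕ (K ⊕ A)) ((K ⊕ A) ⊕ (K ⊕ A)) (MonoidAlgebra ℤ Γ) :=
  (re (Equiv.sumSumSumComm K A K A)).comp (stm (A ⊕ A))

theorem sbm_blocks (a b c d : Matrix K K (MonoidAlgebra ℤ Γ)) :
    sbm A (fromBlocks a b c d) = fromBlocks (fromBlocks a 0 0 1) (fromBlocks b 0 0 0)
      (fromBlocks c 0 0 0) (fromBlocks d 0 0 1) := by
  change (fromBlocks (fromBlocks a b c d) 0 0 (1 : Matrix (A ⊕ A) (A ⊕ A) (MonoidAlgebra ℤ Γ))).submatrix
    (Equiv.sumSumSumComm K A K A) (Equiv.sumSumSumComm K A K A) = _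
  rw [← fromBlocks_one (l := A) (m := A)]
  ext1 i j
  rcases i with (i | i) | (i | i) <;> rcases j with (j | j) | (j | j) <;> rfl

theorem eg_sb {δ : ℤ} (u : (Matrix (K ⊕ K) (K ⊕ K) (MonoidAlgebra ℤ Γ))ˣ) (hu : u ∈ EG Γ δ K) :
    Units.map (sbm A) u ∈ EG Γ δ (K ⊕ A) := by
  have h1 : EG Γ δ K ≤ (EG Γ δ (K ⊕ A)).comap (Units.map (sbm A)) := by
    refine (Subgroup.closure_le _).mpr ?_
    rintro v hv
    refine Subgroup.subset_closure ?_
    have hval : (Units.map (sbm A) v).val = sbm A v.val := rfl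
    have hx : ∀ χ : Matrix K K (MonoidAlgebra ℤ Γ),
        (fromBlocks (χ - δ • adj χ) 0 0 0 : Matrix (K ⊕ A) (K ⊕ A) (MonoidAlgebra ℤ Γ))
        = fromBlocks χ 0 0 0 - δ • adj (fromBlocks χ 0 0 0) := by
      intro χ
      rw [adj_fromBlocks, fromBlocks_smul, Pool.Agent.R719.LF.fb_sub]
      simp [adj_zero]
    rcases hv with ⟨χ, hχ⟩ | ⟨χ, hχ⟩ | ⟨E, hE, hEv⟩
    · left
      refine ⟨fromBlocks χ 0 0 0, ?_⟩
      rw [hval, hχ, sbm_blocks, hx, fromBlocks_one, fromBlocks_zero]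
    · right; left
      refine ⟨fromBlocks χ 0 0 0, ?_⟩
      rw [hval, hχ, sbm_blocks, hx, fromBlocks_one, fromBlocks_zero]
    · have h1 : TT (TU Γ) (Units.map (stm A) E) := TT_st (TU Γ) E hE
      have h3 : (Units.map (sbm A) v).val
          = fromBlocks (Units.map (stm A) E).val 0 0 (adj ((Units.map (stm A) E)⁻¹).val) := by
        rw [hval, hEv, sbm_blocks, fromBlocks_zero]
        have h2 : ((Units.map (stm A) E)⁻¹).val = fromBlocks (E⁻¹).val 0 0 1 := rfl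
        rw [h2, adj_fromBlocks, adj_zero, adj_zero, adj_one]
        rfl
      exact Or.inr (Or.inr ⟨Units.map (stm A) E, h1, h3⟩)
  exact h1 hu

/-- the formation with these components is trivial without further stabilisation -/
def TrF (δ : ℤ) (G M : Matrix K K (MonoidAlgebra ℤ Γ)) : Prop :=
  ∃ u ∈ EG Γ δ K, ∃ E : (Matrix K K (MonoidAlgebra ℤ Γ))ˣ, TT (TU Γ) E ∧
    fromCols G M * u.val = fromCols E.val 0

theorem TrF.re {δ : ℤ} (e : K ≃ K') {G M : Matrix K' K' (MonoidAlgebra ℤ Γ)} (h : TrF δ G M) :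
    TrF δ (G.submatrix e e) (M.submatrix e e) := by
  obtain ⟨u, hu, E, hE, h1⟩ := h
  have hE' : TT (TU Γ) (Units.map (TH57.Thr.re e) E) := TT_re (TU Γ) e E hE
  refine ⟨Units.map (TH57.Thr.re (Equiv.sumCongr e e)) u, eg_re e u hu,
    Units.map (TH57.Thr.re e) E, hE', ?_⟩
  have h2 : ∀ X Y : Matrix K' K' (MonoidAlgebra ℤ Γ), fromCols (X.submatrix e e) (Y.submatrix e e)
      = (fromCols X Y).submatrix e (Equiv.sumCongr e e) := by
    intro X Y
    ext1 i j
    rcases j with j | j <;> rfl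
  have h3 : (Units.map (TH57.Thr.re (Equiv.sumCongr e e)) u).val
      = u.val.submatrix (Equiv.sumCongr e e) (Equiv.sumCongr e e) := rfl
  rw [h2, h3, Matrix.submatrix_mul_equiv, h1, ← h2]
  rfl

theorem TrF.stab {δ : ℤ} {G M : Matrix K K (MonoidAlgebra ℤ Γ)} (h : TrF δ G M) :
    TrF δ (fromBlocks G 0 0 (1 : Matrix A A (MonoidAlgebra ℤ Γ))) (fromBlocks M 0 0 0) := by
  obtain ⟨u, hu, E, hE, h1⟩ := h
  have hE' : TT (TU Γ) (Units.map (stm A) E) := TT_st (TU Γ) E hE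
  refine ⟨Units.map (sbm A) u, eg_sb u hu, Units.map (stm A) E, hE', ?_⟩
  have h3 : (Units.map (sbm A) u).val = sbm A u.val := rfl
  rw [h3]
  rw [← fromBlocks_toBlocks u.val] at h1 ⊢
  rw [fromCols_mul_fromBlocks] at h1
  obtain ⟨h4, h5⟩ := (fromCols_ext_iff _ _ _ _).mp h1
  rw [sbm_blocks, fromCols_mul_fromBlocks]
  have e1 : fromBlocks G 0 0 (1 : Matrix A A (MonoidAlgebra ℤ Γ)) * fromBlocks u.val.toBlocks₁₁ 0 0 1
      + fromBlocks M 0 0 (0 : Matrix A A (MonoidAlgebra ℤ Γ)) * fromBlocks u.val.toBlocks₂₁ 0 0 0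
      = (Units.map (stm A) E).val := by
    rw [fromBlocks_multiply, fromBlocks_multiply, fromBlocks_add]
    change _ = fromBlocks E.val 0 0 1
    rw [← h4]
    congr 1 <;> simp
  have e2 : fromBlocks G 0 0 (1 : Matrix A A (MonoidAlgebra ℤ Γ)) * fromBlocks u.val.toBlocks₁₂ 0 0 0
      + fromBlocks M 0 0 (0 : Matrix A A (MonoidAlgebra ℤ Γ)) * fromBlocks u.val.toBlocks₂₂ 0 0 1
      = 0 := by
    rw [fromBlocks_multiply, fromBlocks_multiply, fromBlocks_add, ← fromBlocks_zero]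
    rw [← h5]
    congr 1 <;> simp
  rw [e1, e2]

theorem TrF.row {δ : ℤ} {G M : Matrix K K (MonoidAlgebra ℤ Γ)} (E : (Matrix K K (MonoidAlgebra ℤ Γ))ˣ)
    (hE : TT (TU Γ) E) (h : TrF δ (E.val * G) (E.val * M)) : TrF δ G M := by
  obtain ⟨u, hu, F, hF, h1⟩ := h
  refine ⟨u, hu, E⁻¹ * F, TT_mul _ _ _ (TT_inv _ _ hE) hF, ?_⟩
  rw [← mul_fromCols, Matrix.mul_assoc] at h1
  have h2 := congrArg (fun X => (E⁻¹).val * X) h1
  simp only [← Matrix.mul_assoc, E.inv_mul, Matrix.one_mul] at h2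
  rw [h2, mul_fromCols, Matrix.mul_zero, Units.val_mul]

theorem TrF.col {δ : ℤ} {G M : Matrix K K (MonoidAlgebra ℤ Γ)} (w : (Matrix (K ⊕ K) (K ⊕ K) (MonoidAlgebra ℤ Γ))ˣ)
    (hw : w ∈ gens Γ δ K) {G' M' : Matrix K K (MonoidAlgebra ℤ Γ)}
    (h' : fromCols G M * w.val = fromCols G' M') (h : TrF δ G' M') : TrF δ G M := by
  obtain ⟨u, hu, F, hF, h1⟩ := h
  refine ⟨w * u, (EG Γ δ K).mul_mem (Subgroup.subset_closure hw) hu, F, hF, ?_⟩
  rw [Units.val_mul, ← Matrix.mul_assoc, h', h1]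

/-- trivial formations, explicitly -/
def PZ (Γ : Type) [Group Γ] (δ : ℤ) (J : Type) [Fintype J] [DecidableEq J]
    (γ μ : Matrix J J (MonoidAlgebra ℤ Γ)) : Prop :=
  ∃ (A : Type) (_ : Fintype A) (_ : DecidableEq A),
    TrF δ (fromBlocks γ 0 0 1 : Matrix (J ⊕ A) (J ⊕ A) (MonoidAlgebra ℤ Γ)) (fromBlocks μ 0 0 0)

theorem good_PZ (Γ : Type) [Group Γ] (δ : ℤ) : Good Γ δ (PZ Γ δ) where
  row := by
    intro J _ _ E hE γ μ h
    obtain ⟨A, i1, i2, h⟩ := h
    have hE' : TT (TU Γ) (Units.map (stm A) E) := TT_st (TU Γ) E hE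
    refine ⟨A, i1, i2, TrF.row (Units.map (stm A) E) hE' ?_⟩
    have h1 : (Units.map (stm A) E).val = fromBlocks E.val 0 0 1 := rfl
    rw [h1, fromBlocks_multiply, fromBlocks_multiply]
    simpa using h
  col := by
    intro J _ _ E hE γ μ h
    obtain ⟨A, i1, i2, h⟩ := h
    let E' := Units.map (stm A) E
    have h1 : E'.val = fromBlocks E.val 0 0 1 := rfl
    have h2 : (E'⁻¹).val = fromBlocks (E⁻¹).val 0 0 1 := rfl
    let w : (Matrix ((J ⊕ A) ⊕ (J ⊕ A)) ((J ⊕ A) ⊕ (J ⊕ A)) (MonoidAlgebra ℤ Γ))ˣ :=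
      { val := fromBlocks E'.val 0 0 (adj (E'⁻¹).val)
        inv := fromBlocks (E'⁻¹).val 0 0 (adj E'.val)
        val_inv := by
          rw [fromBlocks_multiply]
          simp only [E'.mul_inv, Matrix.mul_zero, Matrix.zero_mul, add_zero, zero_add, ← adj_mul,
            adj_one, fromBlocks_one]
        inv_val := by
          rw [fromBlocks_multiply]
          simp only [E'.inv_mul, Matrix.mul_zero, Matrix.zero_mul, add_zero, zero_add, ← adj_mul,
            adj_one, fromBlocks_one] }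
    have hE' : TT (TU Γ) E' := TT_st (TU Γ) E hE
    refine ⟨A, i1, i2, TrF.col w (Or.inr (Or.inr ⟨E', hE', rfl⟩)) ?_ h⟩
    change fromCols _ _ * fromBlocks E'.val 0 0 (adj (E'⁻¹).val) = _
    rw [fromCols_mul_fromBlocks, Matrix.mul_zero, Matrix.mul_zero, add_zero, zero_add, h1, h2,
      adj_fromBlocks, fromBlocks_multiply, fromBlocks_multiply]
    simp [adj_zero, adj_one]
  up := by
    intro J _ _ χ γ μ h
    obtain ⟨A, i1, i2, h⟩ := h
    have hx : (fromBlocks (χ - δ • adj χ) 0 0 0 : Matrix (J ⊕ A) (J ⊕ A) (MonoidAlgebra ℤ Γ))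
        = fromBlocks χ 0 0 0 - δ • adj (fromBlocks χ 0 0 0) := by
      rw [adj_fromBlocks, fromBlocks_smul, Pool.Agent.R719.LF.fb_sub]
      simp [adj_zero]
    refine ⟨A, i1, i2, TrF.col (ul (fromBlocks (χ - δ • adj χ) 0 0 0))
      (Or.inl ⟨fromBlocks χ 0 0 0, by rw [ul_val, hx]⟩) ?_ h⟩
    rw [ul_val, fromCols_mul_fromBlocks, Matrix.mul_one, Matrix.mul_zero, zero_add,
      Matrix.mul_one, fromBlocks_multiply, fromBlocks_add]
    simp
  dn := by
    intro J _ _ χ γ μ h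
    obtain ⟨A, i1, i2, h⟩ := h
    have hx : (fromBlocks (χ - δ • adj χ) 0 0 0 : Matrix (J ⊕ A) (J ⊕ A) (MonoidAlgebra ℤ Γ))
        = fromBlocks χ 0 0 0 - δ • adj (fromBlocks χ 0 0 0) := by
      rw [adj_fromBlocks, fromBlocks_smul, Pool.Agent.R719.LF.fb_sub]
      simp [adj_zero]
    refine ⟨A, i1, i2, TrF.col (uu (fromBlocks (χ - δ • adj χ) 0 0 0))
      (Or.inr (Or.inl ⟨fromBlocks χ 0 0 0, by rw [uu_val, hx]⟩)) ?_ h⟩
    rw [uu_val, fromCols_mul_fromBlocks, Matrix.mul_one, Matrix.mul_zero, add_zero,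
      Matrix.mul_one, fromBlocks_multiply, fromBlocks_add]
    simp [add_comm]
  st := by
    intro J A _ _ _ _ γ μ
    constructor
    · rintro ⟨B, i1, i2, h⟩
      refine ⟨A ⊕ B, inferInstance, inferInstance, ?_⟩
      have h1 := h.re (Equiv.sumAssoc J A B).symm
      have e1 : (fromBlocks (fromBlocks γ 0 0 1) 0 0 1 :
          Matrix ((J ⊕ A) ⊕ B) ((J ⊕ A) ⊕ B) (MonoidAlgebra ℤ Γ)).submatrix
          (Equiv.sumAssoc J A B).symm (Equiv.sumAssoc J A B).symm = fromBlocks γ 0 0 1 := by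
        rw [← fromBlocks_one (l := A) (m := B)]
        ext1 i j
        rcases i with i | i | i <;> rcases j with j | j | j <;> rfl
      have e2 : (fromBlocks (fromBlocks μ 0 0 0) 0 0 0 :
          Matrix ((J ⊕ A) ⊕ B) ((J ⊕ A) ⊕ B) (MonoidAlgebra ℤ Γ)).submatrix
          (Equiv.sumAssoc J A B).symm (Equiv.sumAssoc J A B).symm = fromBlocks μ 0 0 0 := by
        ext1 i j
        rcases i with i | i | i <;> rcases j with j | j | j <;> rfl
      rwa [e1, e2] at h1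
    · rintro ⟨B, i1, i2, h⟩
      refine ⟨B, i1, i2, ?_⟩
      let e : (J ⊕ A) ⊕ B ≃ (J ⊕ B) ⊕ A :=
        (Equiv.sumAssoc J A B).trans ((Equiv.sumCongr (Equiv.refl J) (Equiv.sumComm A B)).trans
          (Equiv.sumAssoc J B A).symm)
      have h1 := (h.stab (A := A)).re e
      have e1 : (fromBlocks (fromBlocks γ 0 0 1) 0 0 1 :
          Matrix ((J ⊕ B) ⊕ A) ((J ⊕ B) ⊕ A) (MonoidAlgebra ℤ Γ)).submatrix e e
          = fromBlocks (fromBlocks γ 0 0 1) 0 0 1 := by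
        ext1 i j
        rcases i with (i | i) | i <;> rcases j with (j | j) | j <;> rfl
      have e2 : (fromBlocks (fromBlocks μ 0 0 0) 0 0 0 :
          Matrix ((J ⊕ B) ⊕ A) ((J ⊕ B) ⊕ A) (MonoidAlgebra ℤ Γ)).submatrix e e
          = fromBlocks (fromBlocks μ 0 0 0) 0 0 0 := by
        ext1 i j
        rcases i with (i | i) | i <;> rcases j with (j | j) | j <;> rfl
      rwa [e1, e2] at h1
  re := by
    intro J J' _ _ _ _ e γ μ h
    obtain ⟨A, i1, i2, h⟩ := h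
    refine ⟨A, i1, i2, ?_⟩
    have h1 := h.re (Equiv.sumCongr e (Equiv.refl A))
    have e1 : (fromBlocks γ 0 0 1 : Matrix (J' ⊕ A) (J' ⊕ A) (MonoidAlgebra ℤ Γ)).submatrix
        (Equiv.sumCongr e (Equiv.refl A)) (Equiv.sumCongr e (Equiv.refl A))
        = fromBlocks (γ.submatrix e e) 0 0 1 := by
      ext1 i j
      rcases i with i | i <;> rcases j with j | j <;> rfl
    have e2 : (fromBlocks μ 0 0 0 : Matrix (J' ⊕ A) (J' ⊕ A) (MonoidAlgebra ℤ Γ)).submatrix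
        (Equiv.sumCongr e (Equiv.refl A)) (Equiv.sumCongr e (Equiv.refl A))
        = fromBlocks (μ.submatrix e e) 0 0 0 := by
      ext1 i j
      rcases i with i | i <;> rcases j with j | j <;> rfl
    rwa [e1, e2] at h1
  one := by
    intro J _ _
    refine ⟨Empty, inferInstance, inferInstance, 1, (EG Γ δ _).one_mem, 1, TT_one _, ?_⟩
    rw [Units.val_one, Matrix.mul_one, Units.val_one, fromBlocks_one, fromBlocks_zero]

theorem PZ.fin {δ : ℤ} {J : Type} [Fintype J] [DecidableEq J] {γ μ : Matrix J J (MonoidAlgebra ℤ Γ)}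
    (h : PZ Γ δ J γ μ) : ∃ a : ℕ,
      TrF δ (fromBlocks γ 0 0 1 : Matrix (J ⊕ Fin a) (J ⊕ Fin a) (MonoidAlgebra ℤ Γ))
        (fromBlocks μ 0 0 0) := by
  obtain ⟨A, i1, i2, h⟩ := h
  refine ⟨Fintype.card A, ?_⟩
  let f : Fin (Fintype.card A) ≃ A := (Fintype.equivFin A).symm
  have h1 := h.re (Equiv.sumCongr (Equiv.refl J) f)
  have e1 : (fromBlocks γ 0 0 1 : Matrix (J ⊕ A) (J ⊕ A) (MonoidAlgebra ℤ Γ)).submatrix
      (Equiv.sumCongr (Equiv.refl J) f) (Equiv.sumCongr (Equiv.refl J) f)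
      = fromBlocks γ 0 0 1 := by
    rw [← Matrix.submatrix_one_equiv f]
    ext1 i j
    rcases i with i | i <;> rcases j with j | j <;> rfl
  have e2 : (fromBlocks μ 0 0 0 : Matrix (J ⊕ A) (J ⊕ A) (MonoidAlgebra ℤ Γ)).submatrix
      (Equiv.sumCongr (Equiv.refl J) f) (Equiv.sumCongr (Equiv.refl J) f)
      = fromBlocks μ 0 0 0 := by
    ext1 i j
    rcases i with i | i <;> rcases j with j | j <;> rfl
  rwa [e1, e2] at h1

end eg

end Pool.Agent.T9h15.UO
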