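import Pool.Agent.T9h15.UO.Mn
import Pool.Agent.T9h15.UN.Tree

set_option autoImplicit false
set_option linter.unusedSectionVars false
set_option linter.unusedSimpArgs false

/-! Unilateral formations supported near the edges of a tree with a group action. -/

namespace Pool.Agent.T9h15.UO

open Matrix TH6.LF TH57.Thr Pool.Agent.T9h15.UN

variable {V : Type} {T : SimpleGraph V} {Γ : Type} [Group Γ] [MulAction Γ V]
variable {κ₁ κ₀ : Type} [Fintype κ₁] [DecidableEq κ₁] [Fintype κ₀] [DecidableEq κ₀]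

theorem nilp_odd (hT : T.IsTree) (hΓ : ∀ (g : Γ) (u v : V), T.Adj u v → T.Adj (g • u) (g • v))
    {δ : ℤ} (hδ : δ * δ = 1) (ℓ₁ : κ₁ → V × V) (ℓ₀ : κ₀ → V × V)
    (hℓ : ∀ k, T.Adj (ℓ₀ k).1 (ℓ₀ k).2)
    (d : Matrix κ₁ κ₀ (MonoidAlgebra ℤ Γ)) (α : Matrix κ₀ κ₁ (MonoidAlgebra ℤ Γ))
    (β : Matrix κ₁ κ₀ (MonoidAlgebra ℤ Γ)) (sd : Sup ℓ₁ ℓ₀ (fun x y => x = y) d)
    (sa : Sup ℓ₀ ℓ₁ (trR T true) α) (sb : Sup ℓ₁ ℓ₀ (trR T false) β)
    (ka : α * d + δ • adj (α * d) = 0) (kb : β * adj d + δ • adj (β * adj d) = 0)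
    (hs : ∃ B₁ B₂ : Matrix (κ₁ ⊕ κ₀) (κ₁ ⊕ κ₀) (MonoidAlgebra ℤ Γ),
      ug δ α β * B₁ + um d * B₂ = 1) :
    ∃ (N : ℕ) (Z : Matrix κ₁ κ₀ (MonoidAlgebra ℤ Γ)), (α * β) ^ N = adj d * Z := by
  classical
  obtain ⟨B₁, B₂, hB⟩ := hs
  obtain ⟨C, s, hC⟩ : ∃ (C : Matrix κ₀ κ₀ (MonoidAlgebra ℤ Γ)) (s : Matrix κ₁ κ₀ (MonoidAlgebra ℤ Γ)),
      C = (-δ) • 1 + adj d * s + (-δ) • (α * β * C) := by
    rw [ug, um, ← fromBlocks_toBlocks B₁, ← fromBlocks_toBlocks B₂, fromBlocks_multiply,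
      fromBlocks_multiply, fromBlocks_add, ← fromBlocks_one] at hB
    obtain ⟨-, h12, -, h22⟩ := fromBlocks_inj.mp hB
    refine ⟨B₁.toBlocks₂₂, δ • (B₂.toBlocks₁₂ + δ • (adj α * B₂.toBlocks₂₂)), ?_⟩
    generalize B₁.toBlocks₂₂ = x22 at h12 h22 ⊢
    generalize B₂.toBlocks₂₂ = y22 at h12 h22 ⊢
    generalize B₂.toBlocks₁₂ = y12 at h12 h22 ⊢
    generalize B₁.toBlocks₁₂ = x12 at h12 h22
    rw [Matrix.one_mul, Matrix.zero_mul, zero_add] at h12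
    have e1 : x12 = -(β * x22) - d * y22 := by
      rw [← sub_eq_zero, ← h12]; abel
    have e2 : α * d = -(δ • (adj d * adj α)) := by
      rw [← adj_mul]; exact eq_neg_of_add_eq_zero_left ka
    rw [e1, Matrix.zero_mul, add_zero, Matrix.neg_mul, Matrix.smul_mul, Matrix.one_mul,
      Matrix.mul_sub, Matrix.mul_neg, ← Matrix.mul_assoc, ← Matrix.mul_assoc, e2] at h22
    have e3 : δ • x22 = -1 - α * β * x22 + δ • (adj d * adj α) * y22 + adj d * y12 := by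
      rw [← h22, Matrix.neg_mul]; abel
    have e4 : x22 = δ • (δ • x22) := by rw [smul_smul, hδ, one_smul]
    conv_lhs => rw [e4, e3]
    simp only [smul_add, smul_sub, smul_neg, neg_smul, Matrix.mul_add, Matrix.mul_smul,
      Matrix.smul_mul, Matrix.mul_assoc, smul_smul, hδ, one_smul]
    abel
  obtain ⟨D, hD⟩ := exists_bound (T := T) ℓ₀ C
  have hX : ∀ i, Sup ℓ₀ ℓ₀ (Wk (trR T) false (2 * i)) ((α * β) ^ i) := by
    intro i
    induction i with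
    | zero => exact sup_one _ (fun _ => rfl) ℓ₀
    | succ i ih =>
      rw [pow_succ, ← Matrix.mul_assoc]
      have h1 : Sup ℓ₀ ℓ₁ (Wk (trR T) true (2 * i + 1)) ((α * β) ^ i * α) :=
        ih.mul ((treeSys hT hΓ).inv true) (fun x y z h h' => ⟨y, h, h'⟩) sa
      exact h1.mul ((treeSys hT hΓ).inv false) (fun x y z h h' => ⟨y, h, h'⟩) sb
  have hX' : ∀ i k l g, (((α * β) ^ i) k l).coeff g ≠ 0 → T.dist (ℓ₀ k).2 (g • ℓ₀ l).2 = 2 * i := by
    intro i k l g hg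
    have h1 := (wk_dist hT _ _ _ _ (hℓ k) (hX i k l g hg)).1
    have h2 : st false (2 * i) (ℓ₀ k) = (ℓ₀ k).2 := by
      unfold st
      rw [if_pos (by omega)]
      rfl
    rw [h2] at h1
    exact h1
  have hcomm : α * β * adj d = adj d * (adj α * adj β) := by
    have e2 : α * d = -(δ • (adj d * adj α)) := by
      rw [← adj_mul]; exact eq_neg_of_add_eq_zero_left ka
    have e3 : β * adj d = -(δ • (d * adj β)) := by
      have h := eq_neg_of_add_eq_zero_left kb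
      rwa [adj_mul, adj_adj] at h
    rw [Matrix.mul_assoc, e3, Matrix.mul_neg, Matrix.mul_smul, ← Matrix.mul_assoc, e2,
      Matrix.neg_mul, Matrix.smul_mul, smul_neg, neg_neg, smul_smul, hδ, one_smul,
      Matrix.mul_assoc]
  have hcommn : ∀ i : ℕ, (α * β) ^ i * adj d = adj d * (adj α * adj β) ^ i := by
    intro i
    induction i with
    | zero => simp
    | succ i ih => rw [pow_succ, Matrix.mul_assoc, hcomm, ← Matrix.mul_assoc, ih, Matrix.mul_assoc,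
        ← pow_succ]
  have hser : ∀ m : ℕ, ∃ Z : Matrix κ₁ κ₀ (MonoidAlgebra ℤ Γ),
      C = ∑ i ∈ Finset.range m, (-δ) ^ (i + 1) • (α * β) ^ i + adj d * Z
        + (-δ) ^ m • ((α * β) ^ m * C) := by
    intro m
    induction m with
    | zero => exact ⟨0, by simp⟩
    | succ m ih =>
      obtain ⟨Z, hZ⟩ := ih
      refine ⟨Z + (-δ) ^ m • ((adj α * adj β) ^ m * s), ?_⟩
      have h1 : (α * β) ^ m * C = (-δ) • (α * β) ^ m + adj d * ((adj α * adj β) ^ m * s)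
          + (-δ) • ((α * β) ^ (m + 1) * C) := by
        conv_lhs => rw [hC]
        rw [Matrix.mul_add, Matrix.mul_add, Matrix.mul_smul, Matrix.mul_one, ← Matrix.mul_assoc,
          hcommn, Matrix.mul_smul, pow_succ, Matrix.mul_assoc (adj d)]
        simp only [Matrix.mul_assoc]
      conv_lhs => rw [hZ, h1]
      rw [Finset.sum_range_succ, Matrix.mul_add, Matrix.mul_smul]
      simp only [smul_add, smul_smul, ← pow_succ]
      abel
  let N := D + 1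
  let m := 2 * D + 3
  obtain ⟨Z, hZ⟩ := hser m
  let R : V × V → V × V → Prop := fun p q => T.dist p.2 q.2 = 2 * N
  have hR : Inv Γ R := by
    intro g p q h
    change T.dist (g • p.2) (g • q.2) = 2 * N
    rw [dist_smul hT hΓ]
    exact h
  have h1 : C - ∑ i ∈ Finset.range m, (-δ) ^ (i + 1) • (α * β) ^ i - (-δ) ^ m • ((α * β) ^ m * C)
      = adj d * Z := by
    have haux : ∀ a b c x : Matrix κ₀ κ₀ (MonoidAlgebra ℤ Γ), x = a + b + c → x - a - c = b := by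
      intro a b c x h
      rw [h]; abel
    exact haux _ _ _ _ hZ
  have h2 : trc R ℓ₀ ℓ₀ (adj d * Z) = adj d * trc R ℓ₁ ℓ₀ Z :=
    trc_mul_left hR (sd.adj inv_eq (fun x y h => h.symm)) Z
  have h3 : trc R ℓ₀ ℓ₀ (adj d * Z) = -((-δ) ^ (N + 1) • (α * β) ^ N) := by
    rw [← h1]
    ext k l g
    rw [coeff_trc]
    have e0 : (-((-δ) ^ (N + 1) • (α * β) ^ N) : Matrix κ₀ κ₀ (MonoidAlgebra ℤ Γ)) k l
        = (-((-δ) ^ (N + 1))) • ((α * β) ^ N) k l := by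
      rw [neg_smul]; rfl
    rw [e0, coeff_zsmul']
    by_cases hd : R (ℓ₀ k) (g • ℓ₀ l)
    swap
    · rw [if_neg hd]
      have h4 : (((α * β) ^ N) k l).coeff g = 0 := by
        by_contra h5
        exact hd (hX' N k l g h5)
      rw [h4, mul_zero]
    rw [if_pos hd]
    have hd' : T.dist (ℓ₀ k).2 (g • ℓ₀ l).2 = 2 * N := hd
    have f1 : (C k l).coeff g = 0 := by
      by_contra h4
      have := hD k l g h4
      omega
    have f2 : (((α * β) ^ m * C) k l).coeff g = 0 := by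
      by_contra h4
      rw [Matrix.mul_apply, coeff_sum'] at h4
      obtain ⟨j, _, hj⟩ := Finset.exists_ne_zero_of_sum_ne_zero h4
      obtain ⟨a, ha1, ha2⟩ := coeff_mul_ne hj
      have e1 := hX' m k j a ha1
      have e2 := hD j l _ ha2
      have e3 : T.dist (a • ℓ₀ j).2 (g • ℓ₀ l).2 = T.dist (ℓ₀ j).2 ((a⁻¹ * g) • ℓ₀ l).2 := by
        rw [← dist_smul hT hΓ a (ℓ₀ j).2, mul_smul]
        change _ = T.dist (a • (ℓ₀ j).2) (a • a⁻¹ • (g • ℓ₀ l).2)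
        rw [smul_inv_smul]
        rfl
      have e4 := hT.connected.dist_triangle (u := (ℓ₀ k).2) (v := (g • ℓ₀ l).2) (w := (a • ℓ₀ j).2)
      rw [SimpleGraph.dist_comm (u := (g • ℓ₀ l).2)] at e4
      omega
    have f3 : (∑ i ∈ Finset.range m, (-δ) ^ (i + 1) • (α * β) ^ i : Matrix κ₀ κ₀ (MonoidAlgebra ℤ Γ)) k l
        = ∑ i ∈ Finset.range m, (-δ) ^ (i + 1) • ((α * β) ^ i) k l := by
      rw [Matrix.sum_apply]; rfl
    have f4 : ((∑ i ∈ Finset.range m, (-δ) ^ (i + 1) • (α * β) ^ i :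
        Matrix κ₀ κ₀ (MonoidAlgebra ℤ Γ)) k l).coeff g = (-δ) ^ (N + 1) * (((α * β) ^ N) k l).coeff g := by
      rw [f3, coeff_sum', Finset.sum_eq_single_of_mem N (by rw [Finset.mem_range]; omega)]
      · rw [coeff_zsmul']
      · intro i _ hi
        rw [coeff_zsmul']
        have h4 : (((α * β) ^ i) k l).coeff g = 0 := by
          by_contra h5
          have := hX' i k l g h5
          omega
        rw [h4, mul_zero]
    have f5 : ((C - ∑ i ∈ Finset.range m, (-δ) ^ (i + 1) • (α * β) ^ i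
        - (-δ) ^ m • ((α * β) ^ m * C)) k l).coeff g = (C k l).coeff g
        - ((∑ i ∈ Finset.range m, (-δ) ^ (i + 1) • (α * β) ^ i :
        Matrix κ₀ κ₀ (MonoidAlgebra ℤ Γ)) k l).coeff g
        - (-δ) ^ m * (((α * β) ^ m * C) k l).coeff g := by
      rw [← coeff_zsmul']
      rfl
    rw [f5, f1, f2, f4]
    ring
  refine ⟨N, -((-δ) ^ (N + 1) • trc R ℓ₁ ℓ₀ Z), ?_⟩
  have h4 : adj d * trc R ℓ₁ ℓ₀ Z = -((-δ) ^ (N + 1) • (α * β) ^ N) := by rw [← h2, h3]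
  rw [Matrix.mul_neg, Matrix.mul_smul, h4, smul_neg, neg_neg, smul_smul, ← mul_pow, neg_mul_neg,
    hδ, one_pow, one_smul]

section norm

theorem cc_even (α : Matrix κ₀ κ₁ (MonoidAlgebra ℤ Γ)) (β : Matrix κ₁ κ₀ (MonoidAlgebra ℤ Γ))
    (N : ℕ) {ι : Type} (X : Matrix κ₀ ι (MonoidAlgebra ℤ Γ)) :
    cc α β ^ (2 * N) * rR κ₁ X = rR κ₁ ((α * β) ^ N * X) := by
  induction N generalizing X with
  | zero =>
    rw [Nat.mul_zero, pow_zero, pow_zero, Matrix.one_mul, Matrix.one_mul]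
  | succ N ih =>
    rw [show 2 * (N + 1) = 2 * N + 1 + 1 from rfl, pow_succ, pow_succ, Matrix.mul_assoc,
      Matrix.mul_assoc, cc_inr, cc_inl, ih, pow_succ]
    simp only [Matrix.mul_assoc]

variable {Λ : Type} [MulAction Γ Λ]

theorem odd_norm (S : Sys Γ Λ) (hno : ∀ g : Γ, g = g⁻¹ → g = 1) {δ : ℤ} (hδ : δ * δ = 1)
    (ℓ₁ : κ₁ → Λ) (ℓ₀ : κ₀ → Λ) (nrm : Nrm Γ (Sum.elim ℓ₁ ℓ₀)) (skq : SKQ Γ (Sum.elim ℓ₁ ℓ₀))
    (d : Matrix κ₁ κ₀ (MonoidAlgebra ℤ Γ)) (α : Matrix κ₀ κ₁ (MonoidAlgebra ℤ Γ))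
    (β : Matrix κ₁ κ₀ (MonoidAlgebra ℤ Γ)) (sd : Sup ℓ₁ ℓ₀ (fun x y => x = y) d)
    (sa : Sup ℓ₀ ℓ₁ (S.R true) α) (sb : Sup ℓ₁ ℓ₀ (S.R false) β)
    (ka : α * d + δ • adj (α * d) = 0) (kb : β * adj d + δ • adj (β * adj d) = 0)
    (N : ℕ) (Z : Matrix κ₁ κ₀ (MonoidAlgebra ℤ Γ)) (hN : (α * β) ^ N = adj d * Z) :
    Ztr δ (ug δ α β) (um d) := by
  have D : OD S false δ ℓ₁ ℓ₀ d α β 1 1 :=
    { nrm := nrm
      skq := skq
      sd := sd
      sa := sa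
      sb := sb
      s1 := sup_one _ (fun _ => rfl) _
      s0 := sup_one _ (fun _ => rfl) _
      i1 := Matrix.one_mul _
      i0 := Matrix.one_mul _
      ed := Matrix.one_mul _
      de := Matrix.mul_one _
      ea := by rw [adj_one, Matrix.one_mul]
      ae := Matrix.mul_one _
      eb := Matrix.one_mul _
      be := by rw [adj_one, Matrix.mul_one]
      ka := ka
      kb := kb }
  refine phase_one hno hδ (2 * N + 1) false ℓ₁ ℓ₀ d α β 1 1 D ?_ (2 * N) ?_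
  · intro v hv
    rw [pow_succ, Matrix.mul_assoc, cc_inl, cc_even, hN, Matrix.mul_assoc, ← um_inl,
      ← Matrix.vecMul_vecMul, hv, Matrix.zero_vecMul]
  · refine ⟨rR κ₁ (adj Z), ?_⟩
    rw [adj_cc, cc_even, Matrix.mul_one, rows_inr]
    congr 1
    have h1 : ∀ n : ℕ, adj ((α * β) ^ n) = (adj β * adj α) ^ n := by
      intro n
      induction n with
      | zero => simp [adj_one]
      | succ n ih => rw [pow_succ', adj_mul, ih, adj_mul, ← pow_succ]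
    rw [← h1, hN, adj_mul, adj_adj]

theorem exists_dm {κ : Type} [Fintype κ] [DecidableEq κ] (u : κ → Γ) :
    ∃ E : (Matrix κ κ (MonoidAlgebra ℤ Γ))ˣ, E.val = Dm u ∧ TT (TU Γ) E := by
  have key : ∀ s : Finset κ, ∃ E : (Matrix κ κ (MonoidAlgebra ℤ Γ))ˣ,
      E.val = Matrix.diagonal (fun i => if i ∈ s then MonoidAlgebra.single (u i) (1 : ℤ) else 1) ∧
      E ∈ HH (TU Γ) κ := by
    intro s
    induction s using Finset.induction_on with
    | empty =>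
      refine ⟨1, ?_, one_mem _⟩
      rw [Units.val_one]
      simp
    | insert j s hj ih =>
      obtain ⟨E, h1, h2⟩ := ih
      let g : (MonoidAlgebra ℤ Γ)ˣ :=
        ⟨MonoidAlgebra.single (u j) 1, MonoidAlgebra.single (u j)⁻¹ 1, by
          rw [MonoidAlgebra.single_mul_single, mul_inv_cancel, mul_one]; rfl, by
          rw [MonoidAlgebra.single_mul_single, inv_mul_cancel, mul_one]; rfl⟩
      have hg : g ∈ TU Γ := ⟨u j, 1, by simp [g]⟩
      refine ⟨E * Units.map (dgm j) g, ?_, mul_mem h2 (dgm_mem_HH _ j g hg)⟩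
      rw [Units.val_mul, h1]
      change _ * dgm j (MonoidAlgebra.single (u j) 1) = _
      rw [dgm_apply, Matrix.diagonal_mul_diagonal]
      congr 1
      funext i
      by_cases hi : i = j
      · subst hi
        simp [hj]
      · simp [hi, Finset.mem_insert]
  obtain ⟨E, h1, h2⟩ := key Finset.univ
  exact ⟨E, by rw [h1]; simp [Dm], TT_of_mem _ E h2⟩

theorem odd_any (S : Sys Γ Λ) (hno : ∀ g : Γ, g = g⁻¹ → g = 1) {δ : ℤ} (hδ : δ * δ = 1)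
    (ℓ₁ : κ₁ → Λ) (ℓ₀ : κ₀ → Λ) (hS : ∀ j : κ₁ ⊕ κ₀, ∀ g : Γ, ∀ F : Subgroup Γ,
      F ≤ MulAction.stabilizer Γ (g • Sum.elim ℓ₁ ℓ₀ j) → F.FG → KQ F)
    (d : Matrix κ₁ κ₀ (MonoidAlgebra ℤ Γ)) (α : Matrix κ₀ κ₁ (MonoidAlgebra ℤ Γ))
    (β : Matrix κ₁ κ₀ (MonoidAlgebra ℤ Γ)) (sd : Sup ℓ₁ ℓ₀ (fun x y => x = y) d)
    (sa : Sup ℓ₀ ℓ₁ (S.R true) α) (sb : Sup ℓ₁ ℓ₀ (S.R false) β)
    (ka : α * d + δ • adj (α * d) = 0) (kb : β * adj d + δ • adj (β * adj d) = 0)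
    (N : ℕ) (Z : Matrix κ₁ κ₀ (MonoidAlgebra ℤ Γ)) (hN : (α * β) ^ N = adj d * Z) :
    Ztr δ (ug δ α β) (um d) := by
  classical
  let ℓ : κ₁ ⊕ κ₀ → Λ := Sum.elim ℓ₁ ℓ₀
  have hrep : ∀ k, ∃ g : Γ, g • ℓ k = (Quotient.out (Quotient.mk (MulAction.orbitRel Γ Λ) (ℓ k))) := by
    intro k
    have h1 : Quotient.mk (MulAction.orbitRel Γ Λ) (Quotient.out (Quotient.mk (MulAction.orbitRel Γ Λ) (ℓ k)))
        = Quotient.mk (MulAction.orbitRel Γ Λ) (ℓ k) := Quotient.out_eq _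
    have h2 := Quotient.exact h1
    exact h2
  choose u hu using hrep
  let ℓ' : κ₁ ⊕ κ₀ → Λ := fun k => u k • ℓ k
  have hn : Nrm Γ ℓ' := by
    intro k l g hg
    have h1 : (MulAction.orbitRel Γ Λ) (ℓ l) (ℓ k) := by
      change ℓ l ∈ MulAction.orbit Γ (ℓ k)
      refine ⟨(u l)⁻¹ * (g * u k), ?_⟩
      change ((u l)⁻¹ * (g * u k)) • ℓ k = ℓ l
      rw [mul_smul, mul_smul]
      change (u l)⁻¹ • g • ℓ' k = ℓ l
      rw [hg]
      exact inv_smul_smul _ _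
    change u k • ℓ k = u l • ℓ l
    rw [hu, hu, Quotient.sound h1]
  let u₁ : κ₁ → Γ := fun k => u (Sum.inl k)
  let u₀ : κ₀ → Γ := fun k => u (Sum.inr k)
  have hℓ' : Sum.elim (fun k => u₁ k • ℓ₁ k) (fun k => u₀ k • ℓ₀ k) = ℓ' := by
    funext k
    rcases k with k | k <;> rfl
  have hD1 := Dm_mul_inv u₁
  have hD0 := Dm_mul_inv u₀
  have s1 : Sup (fun k => u₁ k • ℓ₁ k) ℓ₁ (fun x y => x = y) (Dm u₁) := sup_Dm u₁ fun _ => rfl
  have s0 : Sup (fun k => u₀ k • ℓ₀ k) ℓ₀ (fun x y => x = y) (Dm u₀) := sup_Dm u₀ fun _ => rfl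
  have s1' := s1.adj inv_eq (fun x y h => h.symm)
  have s0' := s0.adj inv_eq (fun x y h => h.symm)
  have hright : ∀ {R : Λ → Λ → Prop} (x y z : Λ), R x y → y = z → R x z := by
    intro R x y z h h'
    rwa [← h']
  obtain ⟨E₁, hE1, hE1T⟩ := exists_dm u₁
  obtain ⟨E₀, hE0, hE0T⟩ := exists_dm u₀
  have hE1' : (E₁⁻¹).val = adj (Dm u₁) := by
    have h1 : E₁.val * adj (Dm u₁) = 1 := by rw [hE1]; exact hD1.1
    calc (E₁⁻¹).val = (E₁⁻¹).val * (E₁.val * adj (Dm u₁)) := by rw [h1, Matrix.mul_one]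
      _ = adj (Dm u₁) := by rw [← Matrix.mul_assoc, E₁.inv_mul, Matrix.one_mul]
  have hE0' : (E₀⁻¹).val = adj (Dm u₀) := by
    have h1 : E₀.val * adj (Dm u₀) = 1 := by rw [hE0]; exact hD0.1
    calc (E₀⁻¹).val = (E₀⁻¹).val * (E₀.val * adj (Dm u₀)) := by rw [h1, Matrix.mul_one]
      _ = adj (Dm u₀) := by rw [← Matrix.mul_assoc, E₀.inv_mul, Matrix.one_mul]
  obtain ⟨W, hW1, hW2, hW3⟩ := exists_bd E₁ E₀ hE1T hE0T
  rw [hE1, hE0] at hW1
  rw [hE1', hE0'] at hW2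
  let d' := Dm u₁ * d * adj (Dm u₀)
  let α' := Dm u₀ * α * adj (Dm u₁)
  let β' := Dm u₁ * β * adj (Dm u₀)
  have hfe : FE δ (ug δ α β) (um d) (ug δ α' β') (um d') := by
    refine (FE.row W hW3 _ _).trans ((FE.col W⁻¹ (TT_inv _ _ hW3) _ _).trans (FE.of_eq ?_ ?_))
    · rw [hW1, hW2, ug, fromBlocks_multiply, fromBlocks_multiply, ug]
      simp only [Matrix.zero_mul, Matrix.mul_zero, add_zero, zero_add, Matrix.mul_one, hD1.1,
        Matrix.mul_neg, Matrix.mul_smul, Matrix.neg_mul, Matrix.smul_mul, hD0.1, α', β',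
        smul_zero, neg_zero]
    · rw [inv_inv, hW1, um, adj_fromBlocks, fromBlocks_multiply, fromBlocks_multiply, um]
      simp only [Matrix.zero_mul, Matrix.mul_zero, add_zero, zero_add, adj_zero, adj_mul,
        adj_adj, d', Matrix.mul_assoc]
  refine Ztr.of_FE hfe ?_
  have c1 : ∀ {ι μ : Type} (X : Matrix ι κ₁ (MonoidAlgebra ℤ Γ)) (Y : Matrix κ₁ μ (MonoidAlgebra ℤ Γ)),
      X * adj (Dm u₁) * (Dm u₁ * Y) = X * Y := by
    intro ι μ X Y
    rw [Matrix.mul_assoc, ← Matrix.mul_assoc (adj _), hD1.2, Matrix.one_mul]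
  have c0 : ∀ {ι μ : Type} (X : Matrix ι κ₀ (MonoidAlgebra ℤ Γ)) (Y : Matrix κ₀ μ (MonoidAlgebra ℤ Γ)),
      X * adj (Dm u₀) * (Dm u₀ * Y) = X * Y := by
    intro ι μ X Y
    rw [Matrix.mul_assoc, ← Matrix.mul_assoc (adj _), hD0.2, Matrix.one_mul]
  have hpow : ∀ n : ℕ, (α' * β') ^ n = Dm u₀ * (α * β) ^ n * adj (Dm u₀) := by
    intro n
    induction n with
    | zero => rw [pow_zero, pow_zero, Matrix.mul_one, hD0.1]
    | succ n ih =>
      rw [pow_succ, ih, pow_succ]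
      have h1 : α' * β' = Dm u₀ * (α * β * adj (Dm u₀)) := by
        simp only [α', β']
        rw [Matrix.mul_assoc (Dm u₁), c1]
        simp only [Matrix.mul_assoc]
      rw [h1, c0]
      simp only [Matrix.mul_assoc]
  refine odd_norm S hno hδ (fun k => u₁ k • ℓ₁ k) (fun k => u₀ k • ℓ₀ k) (by rw [hℓ']; exact hn)
    (by
      rw [hℓ']
      intro k F hF hfg
      exact hS k (u k) F hF hfg) d' α' β' ?_ ?_ ?_ ?_ ?_ N (Dm u₁ * Z * adj (Dm u₀)) ?_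
  · exact (s1.mul inv_eq (fun x y z h h' => eq_trans_rel x y z h h') sd).mul inv_eq hright s0'
  · exact (s0.mul (S.inv _) (fun x y z h h' => eq_trans_rel x y z h h') sa).mul inv_eq hright s1'
  · exact (s1.mul (S.inv _) (fun x y z h h' => eq_trans_rel x y z h h') sb).mul inv_eq hright s0'
  · have h1 : α' * d' = Dm u₀ * (α * d) * adj (Dm u₀) := by
      simp only [α', d']
      rw [Matrix.mul_assoc (Dm u₁), c1]
      simp only [Matrix.mul_assoc]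
    have h2 : α' * d' + δ • adj (α' * d')
        = Dm u₀ * (α * d + δ • adj (α * d)) * adj (Dm u₀) := by
      rw [h1]
      simp only [adj_mul, adj_adj, Matrix.mul_add, Matrix.add_mul, Matrix.mul_smul,
        Matrix.smul_mul, Matrix.mul_assoc]
    rw [h2, ka, Matrix.mul_zero, Matrix.zero_mul]
  · have h1 : β' * adj d' = Dm u₁ * (β * adj d) * adj (Dm u₁) := by
      have h3 : adj d' = Dm u₀ * (adj d * adj (Dm u₁)) := by
        simp only [d', adj_mul, adj_adj, Matrix.mul_assoc]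
      rw [h3]
      simp only [β']
      rw [c0]
      simp only [Matrix.mul_assoc]
    have h2 : β' * adj d' + δ • adj (β' * adj d')
        = Dm u₁ * (β * adj d + δ • adj (β * adj d)) * adj (Dm u₁) := by
      rw [h1]
      simp only [adj_mul, adj_adj, Matrix.mul_add, Matrix.add_mul, Matrix.mul_smul,
        Matrix.smul_mul, Matrix.mul_assoc]
    rw [h2, kb, Matrix.mul_zero, Matrix.zero_mul]
  · rw [hpow, hN]
    have h3 : adj d' = Dm u₀ * adj d * adj (Dm u₁) := by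
      simp only [d', adj_mul, adj_adj, Matrix.mul_assoc]
    rw [h3, Matrix.mul_assoc (Dm u₁), c1]
    simp only [Matrix.mul_assoc]

end norm

/-- **The theorem in terms of the tree.** -/
theorem odd_main (hT : T.IsTree) (hΓ : ∀ (g : Γ) (u v : V), T.Adj u v → T.Adj (g • u) (g • v))
    (hno : ∀ g : Γ, g = g⁻¹ → g = 1)
    (hE : ∀ x y : V, T.Adj x y → ∀ F : Subgroup Γ,
      F ≤ MulAction.stabilizer Γ x ⊓ MulAction.stabilizer Γ y → F.FG → KQ F)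
    {δ : ℤ} (hδ : δ * δ = 1) (ℓ₁ : κ₁ → V × V) (ℓ₀ : κ₀ → V × V)
    (hℓ₁ : ∀ k, T.Adj (ℓ₁ k).1 (ℓ₁ k).2) (hℓ₀ : ∀ k, T.Adj (ℓ₀ k).1 (ℓ₀ k).2)
    (d : Matrix κ₁ κ₀ (MonoidAlgebra ℤ Γ)) (α : Matrix κ₀ κ₁ (MonoidAlgebra ℤ Γ))
    (β : Matrix κ₁ κ₀ (MonoidAlgebra ℤ Γ)) (sd : Sup ℓ₁ ℓ₀ (fun x y => x = y) d)
    (sa : Sup ℓ₀ ℓ₁ (trR T true) α) (sb : Sup ℓ₁ ℓ₀ (trR T false) β)
    (ka : α * d + δ • adj (α * d) = 0) (kb : β * adj d + δ • adj (β * adj d) = 0)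
    (hs : ∃ B₁ B₂ : Matrix (κ₁ ⊕ κ₀) (κ₁ ⊕ κ₀) (MonoidAlgebra ℤ Γ),
      ug δ α β * B₁ + um d * B₂ = 1) :
    Ztr δ (ug δ α β) (um d) := by
  obtain ⟨N, Z, hN⟩ := nilp_odd hT hΓ hδ ℓ₁ ℓ₀ hℓ₀ d α β sd sa sb ka kb hs
  refine odd_any (treeSys hT hΓ) hno hδ ℓ₁ ℓ₀ ?_ d α β sd sa sb ka kb N Z hN
  intro j g F hF hfg
  have hadj : T.Adj (Sum.elim ℓ₁ ℓ₀ j).1 (Sum.elim ℓ₁ ℓ₀ j).2 := by
    rcases j with j | j
    · exact hℓ₁ j
    · exact hℓ₀ j
  refine hE _ _ (hΓ g _ _ hadj) F (fun f hf => ?_) hfg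
  have h1 := MulAction.mem_stabilizer_iff.mp (hF hf)
  rw [Subgroup.mem_inf, MulAction.mem_stabilizer_iff, MulAction.mem_stabilizer_iff]
  exact ⟨congrArg Prod.fst h1, congrArg Prod.snd h1⟩

end Pool.Agent.T9h15.UO
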