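import Pool.Agent.T9h15.UN.SE

set_option autoImplicit false
set_option linter.unusedSectionVars false
set_option linter.unusedSimpArgs false
set_option maxHeartbeats 1000000

/-! Formations over integral group rings and their elementary equivalence. -/

namespace Pool.Agent.T9h15.UO

open Matrix TH57.Thr TH6.LF TH6.CX

variable {Γ : Type} [Group Γ]

/-- predicates on formations which are invariant under elementary moves and hold for the trivial
formation; a formation is given by the two components of the basis of its second lagrangian -/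
structure Good (Γ : Type) [Group Γ] (δ : ℤ)
    (P : ∀ (J : Type) [Fintype J] [DecidableEq J], Matrix J J (MonoidAlgebra ℤ Γ) →
      Matrix J J (MonoidAlgebra ℤ Γ) → Prop) : Prop where
  row : ∀ {J : Type} [Fintype J] [DecidableEq J] (E : (Matrix J J (MonoidAlgebra ℤ Γ))ˣ),
    TT (TU Γ) E → ∀ γ μ, P J (E.val * γ) (E.val * μ) → P J γ μ
  col : ∀ {J : Type} [Fintype J] [DecidableEq J] (E : (Matrix J J (MonoidAlgebra ℤ Γ))ˣ),
    TT (TU Γ) E → ∀ γ μ, P J (γ * E.val) (μ * adj (E⁻¹).val) → P J γ μ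
  up : ∀ {J : Type} [Fintype J] [DecidableEq J] (χ γ μ : Matrix J J (MonoidAlgebra ℤ Γ)),
    P J (γ + μ * (χ - δ • adj χ)) μ → P J γ μ
  dn : ∀ {J : Type} [Fintype J] [DecidableEq J] (χ γ μ : Matrix J J (MonoidAlgebra ℤ Γ)),
    P J γ (μ + γ * (χ - δ • adj χ)) → P J γ μ
  st : ∀ {J A : Type} [Fintype J] [DecidableEq J] [Fintype A] [DecidableEq A]
    (γ μ : Matrix J J (MonoidAlgebra ℤ Γ)),
    P (J ⊕ A) (fromBlocks γ 0 0 1) (fromBlocks μ 0 0 0) ↔ P J γ μ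
  re : ∀ {J J' : Type} [Fintype J] [DecidableEq J] [Fintype J'] [DecidableEq J'] (e : J ≃ J')
    (γ μ : Matrix J' J' (MonoidAlgebra ℤ Γ)), P J' γ μ → P J (γ.submatrix e e) (μ.submatrix e e)
  one : ∀ (J : Type) [Fintype J] [DecidableEq J], P J 1 0

section fe

variable {J J' J'' : Type} [Fintype J] [DecidableEq J] [Fintype J'] [DecidableEq J'] [Fintype J'']
  [DecidableEq J'']

/-- elementary equivalence of formations -/
def FE (δ : ℤ) (γ μ : Matrix J J (MonoidAlgebra ℤ Γ)) (γ' μ' : Matrix J' J' (MonoidAlgebra ℤ Γ)) :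
    Prop :=
  ∀ P : (∀ (J : Type) [Fintype J] [DecidableEq J], Matrix J J (MonoidAlgebra ℤ Γ) →
      Matrix J J (MonoidAlgebra ℤ Γ) → Prop), Good Γ δ P → (P J γ μ ↔ P J' γ' μ')

theorem FE.refl (δ : ℤ) (γ μ : Matrix J J (MonoidAlgebra ℤ Γ)) : FE δ γ μ γ μ := fun _ _ => Iff.rfl

theorem FE.symm {δ : ℤ} {γ μ : Matrix J J (MonoidAlgebra ℤ Γ)}
    {γ' μ' : Matrix J' J' (MonoidAlgebra ℤ Γ)} (h : FE δ γ μ γ' μ') : FE δ γ' μ' γ μ :=
  fun P hP => (h P hP).symm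

theorem FE.trans {δ : ℤ} {γ μ : Matrix J J (MonoidAlgebra ℤ Γ)}
    {γ' μ' : Matrix J' J' (MonoidAlgebra ℤ Γ)} {γ'' μ'' : Matrix J'' J'' (MonoidAlgebra ℤ Γ)}
    (h : FE δ γ μ γ' μ') (h' : FE δ γ' μ' γ'' μ'') : FE δ γ μ γ'' μ'' :=
  fun P hP => (h P hP).trans (h' P hP)

theorem FE.of_eq {δ : ℤ} {γ μ γ' μ' : Matrix J J (MonoidAlgebra ℤ Γ)} (h : γ = γ') (h' : μ = μ') :
    FE δ γ μ γ' μ' := by
  subst h h'
  exact FE.refl δ _ _

theorem FE.row {δ : ℤ} (E : (Matrix J J (MonoidAlgebra ℤ Γ))ˣ) (hE : TT (TU Γ) E)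
    (γ μ : Matrix J J (MonoidAlgebra ℤ Γ)) : FE δ γ μ (E.val * γ) (E.val * μ) := by
  refine fun P hP => ⟨fun h => ?_, hP.row E hE γ μ⟩
  refine hP.row E⁻¹ (TT_inv _ _ hE) _ _ ?_
  rwa [← Matrix.mul_assoc, ← Matrix.mul_assoc, E.inv_mul, Matrix.one_mul, Matrix.one_mul]

theorem FE.col {δ : ℤ} (E : (Matrix J J (MonoidAlgebra ℤ Γ))ˣ) (hE : TT (TU Γ) E)
    (γ μ : Matrix J J (MonoidAlgebra ℤ Γ)) : FE δ γ μ (γ * E.val) (μ * adj (E⁻¹).val) := by
  refine fun P hP => ⟨fun h => ?_, hP.col E hE γ μ⟩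
  refine hP.col E⁻¹ (TT_inv _ _ hE) _ _ ?_
  rw [inv_inv, Matrix.mul_assoc, Matrix.mul_assoc, E.mul_inv, Matrix.mul_one, ← adj_mul, E.mul_inv,
    adj_one, Matrix.mul_one]
  exact h

theorem FE.up {δ : ℤ} (χ γ μ : Matrix J J (MonoidAlgebra ℤ Γ)) :
    FE δ γ μ (γ + μ * (χ - δ • adj χ)) μ := by
  refine fun P hP => ⟨fun h => ?_, hP.up χ γ μ⟩
  refine hP.up (-χ) _ _ ?_
  have h1 : γ + μ * (χ - δ • adj χ) + μ * (-χ - δ • adj (-χ)) = γ := by
    rw [add_assoc, ← Matrix.mul_add, adj_neg]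
    have h2 : χ - δ • adj χ + (-χ - δ • -adj χ) = 0 := by rw [smul_neg]; abel
    rw [h2, Matrix.mul_zero, add_zero]
  rwa [h1]

theorem FE.dn {δ : ℤ} (χ γ μ : Matrix J J (MonoidAlgebra ℤ Γ)) :
    FE δ γ μ γ (μ + γ * (χ - δ • adj χ)) := by
  refine fun P hP => ⟨fun h => ?_, hP.dn χ γ μ⟩
  refine hP.dn (-χ) _ _ ?_
  have h1 : μ + γ * (χ - δ • adj χ) + γ * (-χ - δ • adj (-χ)) = μ := by
    rw [add_assoc, ← Matrix.mul_add, adj_neg]
    have h2 : χ - δ • adj χ + (-χ - δ • -adj χ) = 0 := by rw [smul_neg]; abel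
    rw [h2, Matrix.mul_zero, add_zero]
  rwa [h1]

theorem FE.st {δ : ℤ} {A : Type} [Fintype A] [DecidableEq A]
    (γ μ : Matrix J J (MonoidAlgebra ℤ Γ)) :
    FE δ (fromBlocks γ 0 0 1 : Matrix (J ⊕ A) (J ⊕ A) (MonoidAlgebra ℤ Γ)) (fromBlocks μ 0 0 0)
      γ μ := fun _ hP => hP.st γ μ

theorem FE.re {δ : ℤ} (e : J ≃ J') (γ μ : Matrix J' J' (MonoidAlgebra ℤ Γ)) :
    FE δ (γ.submatrix e e) (μ.submatrix e e) γ μ := by
  refine fun P hP => ⟨fun h => ?_, hP.re e γ μ⟩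
  have h1 := hP.re e.symm _ _ h
  simpa using h1

/-- trivial formations -/
def Ztr (δ : ℤ) (γ μ : Matrix J J (MonoidAlgebra ℤ Γ)) : Prop :=
  ∀ P : (∀ (J : Type) [Fintype J] [DecidableEq J], Matrix J J (MonoidAlgebra ℤ Γ) →
      Matrix J J (MonoidAlgebra ℤ Γ) → Prop), Good Γ δ P → P J γ μ

theorem Ztr.of_FE {δ : ℤ} {γ μ : Matrix J J (MonoidAlgebra ℤ Γ)}
    {γ' μ' : Matrix J' J' (MonoidAlgebra ℤ Γ)} (h : FE δ γ μ γ' μ') (h' : Ztr δ γ' μ') :
    Ztr δ γ μ := fun P hP => (h P hP).mpr (h' P hP)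

theorem Ztr.one (δ : ℤ) : Ztr δ (1 : Matrix J J (MonoidAlgebra ℤ Γ)) 0 := fun _ hP => hP.one J

end fe

section units

variable {I J : Type} [Fintype I] [DecidableEq I] [Fintype J] [DecidableEq J]

/-- upper unipotent block matrices -/
noncomputable def uu (A : Matrix I J (MonoidAlgebra ℤ Γ)) :
    (Matrix (I ⊕ J) (I ⊕ J) (MonoidAlgebra ℤ Γ))ˣ where
  val := fromBlocks 1 A 0 1
  inv := fromBlocks 1 (-A) 0 1
  val_inv := by rw [fromBlocks_multiply, ← fromBlocks_one]; simp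
  inv_val := by rw [fromBlocks_multiply, ← fromBlocks_one]; simp

/-- lower unipotent block matrices -/
noncomputable def ul (A : Matrix J I (MonoidAlgebra ℤ Γ)) :
    (Matrix (I ⊕ J) (I ⊕ J) (MonoidAlgebra ℤ Γ))ˣ where
  val := fromBlocks 1 0 A 1
  inv := fromBlocks 1 0 (-A) 1
  val_inv := by rw [fromBlocks_multiply, ← fromBlocks_one]; simp
  inv_val := by rw [fromBlocks_multiply, ← fromBlocks_one]; simp

theorem uu_val (A : Matrix I J (MonoidAlgebra ℤ Γ)) : (uu A).val = fromBlocks 1 A 0 1 := rfl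
theorem uu_inv (A : Matrix I J (MonoidAlgebra ℤ Γ)) : ((uu A)⁻¹).val = fromBlocks 1 (-A) 0 1 := rfl
theorem ul_val (A : Matrix J I (MonoidAlgebra ℤ Γ)) : (ul A).val = fromBlocks 1 0 A 1 := rfl
theorem ul_inv (A : Matrix J I (MonoidAlgebra ℤ Γ)) : ((ul A)⁻¹).val = fromBlocks 1 0 (-A) 1 := rfl

theorem TT_uu (A : Matrix I J (MonoidAlgebra ℤ Γ)) : TT (TU Γ) (uu A) := by
  obtain ⟨E, h1, h2⟩ := El_unit (R := MonoidAlgebra ℤ Γ)
    (1 + (fromBlocks 0 A 0 0 : Matrix (I ⊕ J) (I ⊕ J) (MonoidAlgebra ℤ Γ)))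
    (el_unip (Finset.univ.filter fun v : I ⊕ J => v.isLeft) _ (by
      rintro (i | i) (j | j) h <;> simp at h ⊢))
  have h3 : uu A = E := by
    apply Units.ext
    rw [h1, uu_val, ← fromBlocks_one, fromBlocks_add]; simp
  rw [h3]; exact h2 _

theorem TT_ul (A : Matrix J I (MonoidAlgebra ℤ Γ)) : TT (TU Γ) (ul A) := by
  obtain ⟨E, h1, h2⟩ := El_unit (R := MonoidAlgebra ℤ Γ)
    (1 + (fromBlocks 0 0 A 0 : Matrix (I ⊕ J) (I ⊕ J) (MonoidAlgebra ℤ Γ)))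
    (el_unip (Finset.univ.filter fun v : I ⊕ J => v.isRight) _ (by
      rintro (i | i) (j | j) h <;> simp at h ⊢))
  have h3 : ul A = E := by
    apply Units.ext
    rw [h1, ul_val, ← fromBlocks_one, fromBlocks_add]; simp
  rw [h3]; exact h2 _

theorem smul_one_mul_smul_one {δ : ℤ} (hδ : δ * δ = 1) :
    (δ • (1 : Matrix I I (MonoidAlgebra ℤ Γ))) * (δ • (1 : Matrix I I (MonoidAlgebra ℤ Γ))) = 1 := by
  rw [Matrix.smul_mul, Matrix.one_mul, smul_smul, hδ, one_smul]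

/-- signs -/
noncomputable def us {δ : ℤ} (hδ : δ * δ = 1) (I J : Type) [Fintype I] [DecidableEq I] [Fintype J] [DecidableEq J] :
    (Matrix (I ⊕ J) (I ⊕ J) (MonoidAlgebra ℤ Γ))ˣ where
  val := fromBlocks (-(δ • 1)) 0 0 1
  inv := fromBlocks (-(δ • 1)) 0 0 1
  val_inv := by
    rw [fromBlocks_multiply, ← fromBlocks_one]
    simp only [Matrix.neg_mul, Matrix.mul_neg, neg_neg, smul_one_mul_smul_one hδ, Matrix.mul_zero,
      Matrix.zero_mul, add_zero, zero_add, Matrix.mul_one, neg_zero]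
  inv_val := by
    rw [fromBlocks_multiply, ← fromBlocks_one]
    simp only [Matrix.neg_mul, Matrix.mul_neg, neg_neg, smul_one_mul_smul_one hδ, Matrix.mul_zero,
      Matrix.zero_mul, add_zero, zero_add, Matrix.mul_one, neg_zero]

/-- signs -/
noncomputable def us' {δ : ℤ} (hδ : δ * δ = 1) (I J : Type) [Fintype I] [DecidableEq I] [Fintype J]
    [DecidableEq J] : (Matrix (I ⊕ J) (I ⊕ J) (MonoidAlgebra ℤ Γ))ˣ where
  val := fromBlocks 1 0 0 (-(δ • 1))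
  inv := fromBlocks 1 0 0 (-(δ • 1))
  val_inv := by
    rw [fromBlocks_multiply, ← fromBlocks_one]
    simp only [Matrix.neg_mul, Matrix.mul_neg, neg_neg, smul_one_mul_smul_one hδ, Matrix.mul_zero,
      Matrix.zero_mul, add_zero, zero_add, Matrix.mul_one, neg_zero]
  inv_val := by
    rw [fromBlocks_multiply, ← fromBlocks_one]
    simp only [Matrix.neg_mul, Matrix.mul_neg, neg_neg, smul_one_mul_smul_one hδ, Matrix.mul_zero,
      Matrix.zero_mul, add_zero, zero_add, Matrix.mul_one, neg_zero]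

theorem one_supp {i j : I} {g : Γ} (h : ((1 : Matrix I I (MonoidAlgebra ℤ Γ)) i j).coeff g ≠ 0) :
    g = 1 := by
  classical
  by_contra hg
  apply h
  rw [Matrix.one_apply]
  split_ifs
  · rw [MonoidAlgebra.one_def, MonoidAlgebra.coeff_single, Finsupp.single_apply, if_neg (Ne.symm hg)]
  · rfl

theorem neg_supp {δ : ℤ} {i j : I} {g : Γ}
    (h : ((-(δ • (1 : Matrix I I (MonoidAlgebra ℤ Γ)))) i j).coeff g ≠ 0) : g = 1 := by
  rw [Matrix.neg_apply, Matrix.smul_apply] at h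
  by_contra hg
  apply h
  have h1 : ((1 : Matrix I I (MonoidAlgebra ℤ Γ)) i j).coeff g = 0 := by
    by_contra h2
    exact hg (one_supp h2)
  rw [MonoidAlgebra.coeff_neg, Finsupp.neg_apply, coeff_zsmul', h1, mul_zero, neg_zero]

theorem TT_us {δ : ℤ} (hδ : δ * δ = 1) : TT (TU Γ) (us (Γ := Γ) hδ I J) := by
  apply TT_trivial
  rintro (i | i) (j | j) g h
  · exact neg_supp h
  · exact absurd rfl h
  · exact absurd rfl h
  · exact one_supp h

theorem TT_us' {δ : ℤ} (hδ : δ * δ = 1) : TT (TU Γ) (us' (Γ := Γ) hδ I J) := by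
  apply TT_trivial
  rintro (i | i) (j | j) g h
  · exact one_supp h
  · exact absurd rfl h
  · exact absurd rfl h
  · exact neg_supp h

/-- block diagonal units -/
theorem exists_bd (E : (Matrix I I (MonoidAlgebra ℤ Γ))ˣ) (E' : (Matrix J J (MonoidAlgebra ℤ Γ))ˣ)
    (hE : TT (TU Γ) E) (hE' : TT (TU Γ) E') :
    ∃ W : (Matrix (I ⊕ J) (I ⊕ J) (MonoidAlgebra ℤ Γ))ˣ,
      W.val = fromBlocks E.val 0 0 E'.val ∧ (W⁻¹).val = fromBlocks E⁻¹.val 0 0 E'⁻¹.val ∧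
      TT (TU Γ) W := by
  refine ⟨⟨fromBlocks E.val 0 0 E'.val, fromBlocks E⁻¹.val 0 0 E'⁻¹.val, ?_, ?_⟩, rfl, rfl, ?_⟩
  · rw [fromBlocks_multiply, ← fromBlocks_one]; simp
  · rw [fromBlocks_multiply, ← fromBlocks_one]; simp
  · exact TT_tri _ E E' 0 _ rfl hE hE'

end units

section uform

variable {κ₁ κ₀ κ₁' κ₀' : Type} [Fintype κ₁] [DecidableEq κ₁] [Fintype κ₀] [DecidableEq κ₀]
  [Fintype κ₁'] [DecidableEq κ₁'] [Fintype κ₀'] [DecidableEq κ₀']

/-- first component of a unilateral formation -/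
noncomputable def ug (δ : ℤ) (α : Matrix κ₀ κ₁ (MonoidAlgebra ℤ Γ))
    (β : Matrix κ₁ κ₀ (MonoidAlgebra ℤ Γ)) : Matrix (κ₁ ⊕ κ₀) (κ₁ ⊕ κ₀) (MonoidAlgebra ℤ Γ) :=
  fromBlocks 1 β α (-(δ • 1))

/-- second component of a unilateral formation -/
noncomputable def um (d : Matrix κ₁ κ₀ (MonoidAlgebra ℤ Γ)) :
    Matrix (κ₁ ⊕ κ₀) (κ₁ ⊕ κ₀) (MonoidAlgebra ℤ Γ) := fromBlocks 0 d (adj d) 0

/-- exchanging the two complexes -/
theorem fe_swap {δ : ℤ} (hδ : δ * δ = 1) (d : Matrix κ₁ κ₀ (MonoidAlgebra ℤ Γ))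
    (α : Matrix κ₀ κ₁ (MonoidAlgebra ℤ Γ)) (β : Matrix κ₁ κ₀ (MonoidAlgebra ℤ Γ)) :
    FE δ (ug δ α β) (um d) (ug δ β α) (um (adj d)) := by
  have h1 := FE.re (δ := δ) (Equiv.sumComm κ₀ κ₁) (ug δ α β) (um d)
  refine h1.symm.trans ?_
  refine (FE.row (us hδ κ₀ κ₁) (TT_us hδ) _ _).trans ?_
  refine (FE.col (us' hδ κ₀ κ₁) (TT_us' hδ) _ _).trans ?_
  have e1 : (ug δ α β).submatrix (Equiv.sumComm κ₀ κ₁) (Equiv.sumComm κ₀ κ₁)
      = fromBlocks (-(δ • 1)) α β 1 := by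
    ext1 i j
    rcases i with i | i <;> rcases j with j | j <;> rfl
  have e2 : (um d).submatrix (Equiv.sumComm κ₀ κ₁) (Equiv.sumComm κ₀ κ₁)
      = fromBlocks 0 (adj d) d 0 := by
    ext1 i j
    rcases i with i | i <;> rcases j with j | j <;> rfl
  have e3 : (us (Γ := Γ) hδ κ₀ κ₁).val = fromBlocks (-(δ • 1)) 0 0 1 := rfl
  have e4 : (us' (Γ := Γ) hδ κ₀ κ₁).val = fromBlocks 1 0 0 (-(δ • 1)) := rfl
  have e5 : ((us' (Γ := Γ) hδ κ₀ κ₁)⁻¹).val = fromBlocks 1 0 0 (-(δ • 1)) := rfl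
  rw [e1, e2, e3, e4, e5, adj_fromBlocks, fromBlocks_multiply, fromBlocks_multiply,
    fromBlocks_multiply, fromBlocks_multiply]
  simp only [adj_one, adj_zero, adj_neg, adj_zsmul, Matrix.mul_one, Matrix.one_mul,
    Matrix.mul_zero, Matrix.zero_mul, add_zero, zero_add, Matrix.neg_mul, Matrix.mul_neg,
    Matrix.smul_mul, Matrix.mul_smul, neg_neg, smul_smul, hδ, one_smul, neg_zero, smul_neg,
    smul_zero]
  exact FE.of_eq rfl (by rw [um, adj_adj])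

/-- base change in the complex -/
theorem fe_star {δ : ℤ} (d : Matrix κ₁ κ₀ (MonoidAlgebra ℤ Γ))
    (α : Matrix κ₀ κ₁ (MonoidAlgebra ℤ Γ)) (β : Matrix κ₁ κ₀ (MonoidAlgebra ℤ Γ))
    (F : (Matrix κ₁ κ₁ (MonoidAlgebra ℤ Γ))ˣ) (G : (Matrix κ₀ κ₀ (MonoidAlgebra ℤ Γ))ˣ)
    (hF : TT (TU Γ) F) (hG : TT (TU Γ) G) (h : F.val * d = d * adj G.val) :
    FE δ (ug δ α (F⁻¹.val * β * G⁻¹.val)) (um d) (ug δ (G⁻¹.val * α * F⁻¹.val) β) (um d) := by
  -- the middle formation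
  have h1 : FE δ (fromBlocks F.val β α (-(δ • G.val))) (um d) (ug δ α (F⁻¹.val * β * G⁻¹.val))
      (um d) := by
    obtain ⟨W, hW1, hW2, hW3⟩ := exists_bd F⁻¹ (1 : (Matrix κ₀ κ₀ (MonoidAlgebra ℤ Γ))ˣ) (TT_inv _ _ hF) (TT_one _)
    obtain ⟨W', hW1', hW2', hW3'⟩ := exists_bd (1 : (Matrix κ₁ κ₁ (MonoidAlgebra ℤ Γ))ˣ) G⁻¹ (TT_one _) (TT_inv _ _ hG)
    refine (FE.row W hW3 _ _).trans ((FE.col W' hW3' _ _).trans (FE.of_eq ?_ ?_))
    · rw [hW1, hW1', fromBlocks_multiply, fromBlocks_multiply, ug]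
      simp only [Units.val_one, Matrix.zero_mul, Matrix.mul_zero, add_zero, zero_add,
        Matrix.one_mul, Matrix.mul_one, F.inv_mul, Matrix.neg_mul, Matrix.smul_mul, G.mul_inv]
    · rw [hW1, hW2', um, adj_fromBlocks, fromBlocks_multiply, fromBlocks_multiply]
      simp only [Units.val_one, Matrix.zero_mul, Matrix.mul_zero, add_zero, zero_add,
        Matrix.one_mul, Matrix.mul_one, adj_one, adj_zero, inv_inv, inv_one]
      rw [Matrix.mul_assoc, ← h, ← Matrix.mul_assoc, F.inv_mul, Matrix.one_mul]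
  have h2 : FE δ (fromBlocks F.val β α (-(δ • G.val))) (um d) (ug δ (G⁻¹.val * α * F⁻¹.val) β)
      (um d) := by
    obtain ⟨W, hW1, hW2, hW3⟩ := exists_bd (1 : (Matrix κ₁ κ₁ (MonoidAlgebra ℤ Γ))ˣ) G⁻¹ (TT_one _) (TT_inv _ _ hG)
    obtain ⟨W', hW1', hW2', hW3'⟩ := exists_bd F⁻¹ (1 : (Matrix κ₀ κ₀ (MonoidAlgebra ℤ Γ))ˣ) (TT_inv _ _ hF) (TT_one _)
    refine (FE.row W hW3 _ _).trans ((FE.col W' hW3' _ _).trans (FE.of_eq ?_ ?_))
    · rw [hW1, hW1', fromBlocks_multiply, fromBlocks_multiply, ug]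
      simp only [Units.val_one, Matrix.zero_mul, Matrix.mul_zero, add_zero, zero_add,
        Matrix.one_mul, Matrix.mul_one, F.mul_inv, Matrix.mul_neg, Matrix.mul_smul, G.inv_mul,
        smul_zero, neg_zero]
    · rw [hW1, hW2', um, adj_fromBlocks, fromBlocks_multiply, fromBlocks_multiply]
      simp only [Units.val_one, Matrix.zero_mul, Matrix.mul_zero, add_zero, zero_add,
        Matrix.one_mul, Matrix.mul_one, adj_one, adj_zero, inv_inv, inv_one]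
      have h3 : adj d * adj F.val = G.val * adj d := by
        have h4 := congrArg adj h
        rwa [adj_mul, adj_mul, adj_adj] at h4
      rw [Matrix.mul_assoc, h3, ← Matrix.mul_assoc, G.inv_mul, Matrix.one_mul]
  exact h1.symm.trans h2

/-- changing the quadratic structure by an exact term -/
theorem fe_mod {δ : ℤ} (d : Matrix κ₁ κ₀ (MonoidAlgebra ℤ Γ))
    (α : Matrix κ₀ κ₁ (MonoidAlgebra ℤ Γ)) (β : Matrix κ₁ κ₀ (MonoidAlgebra ℤ Γ))
    (χ : Matrix κ₀ κ₀ (MonoidAlgebra ℤ Γ)) :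
    FE δ (ug δ α β) (um d) (ug δ α (β + d * (χ - δ • adj χ))) (um d) := by
  refine (FE.up (fromBlocks 0 0 0 χ) _ _).trans (FE.of_eq ?_ rfl)
  rw [um, adj_fromBlocks, fromBlocks_smul, Pool.Agent.R719.LF.fb_sub, fromBlocks_multiply, ug,
    fromBlocks_add, ug]
  simp [adj_zero]

/-- the terminal case -/
theorem fe_zero {δ : ℤ} (hδ : δ * δ = 1) (d : Matrix κ₁ κ₀ (MonoidAlgebra ℤ Γ))
    (α : Matrix κ₀ κ₁ (MonoidAlgebra ℤ Γ)) (θ : Matrix κ₀ κ₀ (MonoidAlgebra ℤ Γ))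
    (h : α * d = θ - δ • adj θ) : Ztr δ (ug δ α 0) (um d) := by
  refine Ztr.of_FE (FE.dn (fromBlocks 0 (-d) 0 (-(δ • θ))) _ _) ?_
  have e1 : um d + ug δ α 0 * (fromBlocks 0 (-d) 0 (-(δ • θ)) - δ • adj (fromBlocks 0 (-d) 0
      (-(δ • θ)))) = 0 := by
    rw [adj_fromBlocks, fromBlocks_smul, Pool.Agent.R719.LF.fb_sub, ug, fromBlocks_multiply, um,
      fromBlocks_add]
    rw [← fromBlocks_zero]
    congr 1
    · simp [adj_zero]
    · simp [adj_zero]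
    · simp only [adj_zero, adj_neg, adj_zsmul, smul_zero, sub_zero, Matrix.mul_neg, smul_neg,
        Matrix.neg_mul, Matrix.smul_mul, Matrix.one_mul, smul_smul, hδ, one_smul, sub_neg_eq_add,
        Matrix.mul_zero, zero_add, neg_zero, zero_sub, neg_neg, Matrix.mul_smul, add_neg_cancel]
    · simp only [adj_zero, adj_neg, adj_zsmul, smul_zero, sub_zero, Matrix.mul_neg, smul_neg,
        Matrix.neg_mul, Matrix.smul_mul, Matrix.one_mul, smul_smul, hδ, one_smul, sub_neg_eq_add,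
        Matrix.mul_add, smul_add, h]
      abel
  rw [e1]
  obtain ⟨W, hW1, hW2⟩ : ∃ W : (Matrix (κ₁ ⊕ κ₀) (κ₁ ⊕ κ₀) (MonoidAlgebra ℤ Γ))ˣ,
      W.val * ug δ α 0 = 1 ∧ TT (TU Γ) W := by
    refine ⟨us' hδ κ₁ κ₀ * ul (-α), ?_, TT_mul _ _ _ (TT_us' hδ) (TT_ul _)⟩
    rw [Units.val_mul, ul_val, ug]
    change fromBlocks 1 0 0 (-(δ • 1)) * fromBlocks 1 0 (-α) 1 * _ = _
    rw [fromBlocks_multiply, fromBlocks_multiply, ← fromBlocks_one]
    congr 1
    · simp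
    · simp
    · simp only [Matrix.zero_mul, Matrix.mul_neg, Matrix.neg_mul, Matrix.smul_mul, Matrix.one_mul,
        neg_neg, zero_add, Matrix.mul_one, smul_zero, add_zero, add_neg_cancel, neg_zero]
    · simp only [Matrix.zero_mul, Matrix.mul_neg, Matrix.neg_mul, Matrix.smul_mul, Matrix.one_mul,
        neg_neg, zero_add, Matrix.mul_one, smul_zero, add_zero, Matrix.mul_zero, smul_smul, hδ,
        one_smul]
  refine Ztr.of_FE (FE.row W hW2 _ _) ?_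
  rw [hW1, Matrix.mul_zero]
  exact Ztr.one δ

/-- elimination of a summand on which one of the quadratic structures vanishes -/
theorem fe_elim {δ : ℤ} (hδ : δ * δ = 1) (d : Matrix κ₁ κ₀ (MonoidAlgebra ℤ Γ))
    (d' : Matrix κ₁' κ₀' (MonoidAlgebra ℤ Γ)) (α : Matrix κ₀ κ₁ (MonoidAlgebra ℤ Γ))
    (b11 : Matrix κ₁ κ₀ (MonoidAlgebra ℤ Γ)) (b12 : Matrix κ₁ κ₀' (MonoidAlgebra ℤ Γ))
    (b21 : Matrix κ₁' κ₀ (MonoidAlgebra ℤ Γ)) (b22 : Matrix κ₁' κ₀' (MonoidAlgebra ℤ Γ))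
    (χ : Matrix κ₁' κ₁' (MonoidAlgebra ℤ Γ)) (h22 : b22 * adj d' = χ - δ • adj χ)
    (h12 : δ • (b12 * adj d') + d * adj b21 = 0) :
    FE δ (ug δ (fromBlocks α 0 0 0) (fromBlocks b11 b12 b21 b22)) (um (fromBlocks d 0 0 d'))
      (ug δ α b11) (um d) := by
  -- reindexing
  let e : (κ₁ ⊕ κ₀) ⊕ (κ₁' ⊕ κ₀') ≃ (κ₁ ⊕ κ₁') ⊕ (κ₀ ⊕ κ₀') := Equiv.sumSumSumComm κ₁ κ₀ κ₁' κ₀'
  refine (FE.re (δ := δ) e _ _).symm.trans ?_
  have e1 : (ug δ (fromBlocks α 0 0 0) (fromBlocks b11 b12 b21 b22)).submatrix e e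
      = fromBlocks (ug δ α b11) (fromBlocks 0 b12 0 0) (fromBlocks 0 b21 0 0) (ug δ 0 b22) := by
    have h0 : ug δ (fromBlocks α 0 0 0) (fromBlocks b11 b12 b21 b22)
        = fromBlocks (fromBlocks 1 0 0 1) (fromBlocks b11 b12 b21 b22) (fromBlocks α 0 0 0)
          (fromBlocks (-(δ • 1)) 0 0 (-(δ • 1))) := by
      rw [ug, ← fromBlocks_one (l := κ₁) (m := κ₁'), ← fromBlocks_one (l := κ₀) (m := κ₀'),
        fromBlocks_smul, fromBlocks_neg, smul_zero, smul_zero, neg_zero, neg_zero]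
    rw [h0, ug, ug]
    generalize (-(δ • 1) : Matrix κ₀ κ₀ (MonoidAlgebra ℤ Γ)) = D
    generalize (-(δ • 1) : Matrix κ₀' κ₀' (MonoidAlgebra ℤ Γ)) = D'
    ext1 i j
    rcases i with (i | i) | (i | i) <;> rcases j with (j | j) | (j | j) <;> rfl
  have e2 : (um (fromBlocks d 0 0 d')).submatrix e e = fromBlocks (um d) 0 0 (um d') := by
    ext1 i j
    rcases i with (i | i) | (i | i) <;> rcases j with (j | j) | (j | j) <;>
      simp [e, um, adj_fromBlocks, adj_zero]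
  rw [e1, e2]
  -- first row operation
  let X : Matrix (κ₁ ⊕ κ₀) (κ₁' ⊕ κ₀') (MonoidAlgebra ℤ Γ) := fromBlocks 0 (δ • b12) 0 0
  refine (FE.row (uu X) (TT_uu X) _ _).trans ?_
  have s1 : (uu X).val * fromBlocks (ug δ α b11) (fromBlocks 0 b12 0 0) (fromBlocks 0 b21 0 0)
      (ug δ 0 b22) = fromBlocks (ug δ α b11) 0 (fromBlocks 0 b21 0 0) (ug δ 0 b22) := by
    rw [uu_val, fromBlocks_multiply]
    congr 1
    · simp only [X, ug, Matrix.one_mul, fromBlocks_multiply, Matrix.mul_zero, Matrix.zero_mul,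
        add_zero, zero_add, fromBlocks_zero]
    · simp only [X, ug, Matrix.one_mul, fromBlocks_multiply, Matrix.mul_zero, Matrix.zero_mul,
        add_zero, zero_add, fromBlocks_add, Matrix.mul_neg, Matrix.smul_mul, Matrix.mul_smul,
        Matrix.mul_one, smul_smul, hδ, one_smul, add_neg_cancel, smul_zero, neg_zero,
        fromBlocks_zero]
    · simp only [Matrix.zero_mul, Matrix.one_mul, zero_add]
    · simp only [Matrix.zero_mul, Matrix.one_mul, zero_add]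
  have s2 : (uu X).val * fromBlocks (um d) 0 0 (um d')
      = fromBlocks (um d) (fromBlocks (δ • (b12 * adj d')) 0 0 0) 0 (um d') := by
    rw [uu_val, fromBlocks_multiply]
    congr 1
    · simp only [Matrix.one_mul, Matrix.mul_zero, add_zero]
    · simp only [X, um, fromBlocks_multiply, Matrix.mul_zero, Matrix.zero_mul,
        add_zero, zero_add, Matrix.smul_mul]
    · simp only [Matrix.zero_mul, Matrix.mul_zero, zero_add]
    · simp only [Matrix.zero_mul, Matrix.one_mul, zero_add]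
  rw [s1, s2]
  -- second row operation
  obtain ⟨W, hW1, hW2⟩ : ∃ W : (Matrix ((κ₁ ⊕ κ₀) ⊕ (κ₁' ⊕ κ₀')) ((κ₁ ⊕ κ₀) ⊕ (κ₁' ⊕ κ₀'))
      (MonoidAlgebra ℤ Γ))ˣ, W.val = fromBlocks 1 0 0 (fromBlocks 1 (δ • b22) 0 1) ∧
      TT (TU Γ) W := by
    obtain ⟨W, h1, _, h3⟩ := exists_bd (1 : (Matrix (κ₁ ⊕ κ₀) (κ₁ ⊕ κ₀) (MonoidAlgebra ℤ Γ))ˣ)
      (uu (δ • b22)) (TT_one _) (TT_uu _)
    exact ⟨W, by rw [h1, Units.val_one, uu_val], h3⟩
  refine (FE.row W hW2 _ _).trans ?_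
  have s3 : W.val * fromBlocks (ug δ α b11) 0 (fromBlocks 0 b21 0 0) (ug δ 0 b22)
      = fromBlocks (ug δ α b11) 0 (fromBlocks 0 b21 0 0) (ug δ 0 0) := by
    rw [hW1, fromBlocks_multiply]
    congr 1
    · simp only [Matrix.one_mul, Matrix.zero_mul, add_zero]
    · simp only [Matrix.mul_zero, Matrix.zero_mul, add_zero]
    · simp only [Matrix.one_mul, fromBlocks_multiply, Matrix.mul_zero, Matrix.zero_mul,
        add_zero, zero_add]
    · simp only [ug, Matrix.one_mul, fromBlocks_multiply, Matrix.mul_zero, Matrix.zero_mul,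
        add_zero, zero_add, Matrix.mul_neg, Matrix.smul_mul, Matrix.mul_smul,
        Matrix.mul_one, smul_smul, hδ, one_smul, add_neg_cancel]
  have s4 : W.val * fromBlocks (um d) (fromBlocks (δ • (b12 * adj d')) 0 0 0) 0 (um d')
      = fromBlocks (um d) (fromBlocks (δ • (b12 * adj d')) 0 0 0) 0
        (fromBlocks (δ • (b22 * adj d')) d' (adj d') 0) := by
    rw [hW1, fromBlocks_multiply]
    congr 1
    · simp only [Matrix.one_mul, Matrix.zero_mul, add_zero]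
    · simp only [Matrix.one_mul, Matrix.zero_mul, add_zero]
    · simp only [Matrix.mul_zero, Matrix.zero_mul, add_zero]
    · simp only [um, Matrix.one_mul, fromBlocks_multiply, Matrix.mul_zero, Matrix.zero_mul,
        add_zero, zero_add, Matrix.smul_mul]
  rw [s3, s4]
  -- first shear
  refine (FE.dn (fromBlocks 0 0 0 (fromBlocks (-(δ • χ)) 0 0 0)) _ _).trans ?_
  have s5 : fromBlocks (um d) (fromBlocks (δ • (b12 * adj d')) 0 0 0) 0
        (fromBlocks (δ • (b22 * adj d')) d' (adj d') 0)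
      + fromBlocks (ug δ α b11) 0 (fromBlocks 0 b21 0 0) (ug δ 0 0)
        * (fromBlocks 0 0 0 (fromBlocks (-(δ • χ)) 0 0 0)
          - δ • adj (fromBlocks 0 0 0 (fromBlocks (-(δ • χ)) 0 0 0)))
      = fromBlocks (um d) (fromBlocks (δ • (b12 * adj d')) 0 0 0) 0 (um d') := by
    rw [adj_fromBlocks, adj_fromBlocks, fromBlocks_smul, fromBlocks_smul,
      Pool.Agent.R719.LF.fb_sub, Pool.Agent.R719.LF.fb_sub, fromBlocks_multiply, fromBlocks_add]
    congr 1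
    · simp only [adj_zero, smul_zero, sub_zero, Matrix.mul_zero, add_zero, Matrix.zero_mul]
    · simp only [adj_zero, smul_zero, sub_zero, Matrix.mul_zero, add_zero, Matrix.zero_mul]
    · simp only [adj_zero, smul_zero, sub_zero, Matrix.mul_zero, add_zero, Matrix.zero_mul]
    · simp only [adj_zero, smul_zero, sub_zero, Matrix.mul_zero, add_zero, Matrix.zero_mul,
        zero_add, ug, um, fromBlocks_multiply, Matrix.one_mul, fromBlocks_add, h22, adj_neg,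
        adj_zsmul, smul_sub, smul_neg, smul_smul, hδ, one_smul]
      congr 1
      abel
  rw [s5]
  -- column operation
  let Z : Matrix (κ₁' ⊕ κ₀') (κ₁ ⊕ κ₀) (MonoidAlgebra ℤ Γ) := fromBlocks 0 (-b21) 0 0
  refine (FE.col (ul Z) (TT_ul Z) _ _).trans ?_
  have s6 : fromBlocks (ug δ α b11) 0 (fromBlocks 0 b21 0 0) (ug δ 0 0) * (ul Z).val
      = fromBlocks (ug δ α b11) 0 0 (ug δ 0 0) := by
    rw [ul_val, fromBlocks_multiply]
    congr 1
    · simp only [Matrix.mul_one, Matrix.zero_mul, add_zero]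
    · simp only [Matrix.mul_zero, Matrix.zero_mul, add_zero]
    · simp only [Z, ug, Matrix.mul_one, fromBlocks_multiply, Matrix.mul_zero, Matrix.zero_mul,
        add_zero, zero_add, Matrix.one_mul, fromBlocks_add, add_neg_cancel, fromBlocks_zero]
    · simp only [Matrix.mul_one, Matrix.mul_zero, zero_add]
  have s7 : fromBlocks (um d) (fromBlocks (δ • (b12 * adj d')) 0 0 0) 0 (um d')
      * adj ((ul Z)⁻¹).val = fromBlocks (um d) 0 0 (um d') := by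
    rw [ul_inv, adj_fromBlocks, fromBlocks_multiply]
    congr 1
    · simp only [adj_one, adj_zero, Matrix.mul_one, Matrix.mul_zero, add_zero]
    · simp only [Z, um, adj_neg, adj_fromBlocks, adj_zero, adj_one, Matrix.mul_one, fromBlocks_neg,
        neg_zero, neg_neg, fromBlocks_multiply, Matrix.mul_zero, Matrix.zero_mul, add_zero,
        zero_add, fromBlocks_add]
      rw [add_comm (d * adj b21), h12, fromBlocks_zero]
    · simp only [adj_one, adj_zero, Matrix.mul_zero, Matrix.zero_mul, add_zero]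
    · simp only [adj_one, Matrix.zero_mul, Matrix.mul_one, zero_add]
  rw [s6, s7]
  -- second shear
  refine (FE.dn (fromBlocks 0 0 0 (fromBlocks 0 (-d') 0 0)) _ _).trans ?_
  have s8 : fromBlocks (um d) 0 0 (um d') + fromBlocks (ug δ α b11) 0 0 (ug δ 0 0)
        * (fromBlocks 0 0 0 (fromBlocks 0 (-d') 0 0)
          - δ • adj (fromBlocks 0 0 0 (fromBlocks 0 (-d') 0 0)))
      = fromBlocks (um d) 0 0 0 := by
    rw [adj_fromBlocks, adj_fromBlocks, fromBlocks_smul, fromBlocks_smul,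
      Pool.Agent.R719.LF.fb_sub, Pool.Agent.R719.LF.fb_sub, fromBlocks_multiply, fromBlocks_add]
    congr 1
    · simp only [adj_zero, smul_zero, sub_zero, Matrix.mul_zero, add_zero, Matrix.zero_mul]
    · simp only [adj_zero, smul_zero, sub_zero, Matrix.mul_zero, add_zero, Matrix.zero_mul]
    · simp only [adj_zero, smul_zero, sub_zero, Matrix.mul_zero, add_zero, Matrix.zero_mul]
    · simp only [adj_zero, smul_zero, sub_zero, Matrix.mul_zero, add_zero, Matrix.zero_mul,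
        zero_add, ug, um, fromBlocks_multiply, Matrix.one_mul, fromBlocks_add, adj_neg,
        smul_neg, smul_smul, hδ, one_smul, zero_sub, neg_neg, Matrix.neg_mul, Matrix.smul_mul,
        add_neg_cancel, neg_zero, fromBlocks_zero]
  rw [s8]
  -- last row operation
  obtain ⟨U, hU1, hU2⟩ : ∃ U : (Matrix ((κ₁ ⊕ κ₀) ⊕ (κ₁' ⊕ κ₀')) ((κ₁ ⊕ κ₀) ⊕ (κ₁' ⊕ κ₀'))
      (MonoidAlgebra ℤ Γ))ˣ, U.val = fromBlocks 1 0 0 (fromBlocks 1 0 0 (-(δ • 1))) ∧
      TT (TU Γ) U := by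
    obtain ⟨W, h1, _, h3⟩ := exists_bd (1 : (Matrix (κ₁ ⊕ κ₀) (κ₁ ⊕ κ₀) (MonoidAlgebra ℤ Γ))ˣ)
      (us' (Γ := Γ) hδ κ₁' κ₀') (TT_one _) (TT_us' hδ)
    exact ⟨W, by rw [h1, Units.val_one]; rfl, h3⟩
  refine (FE.row U hU2 _ _).trans ?_
  have s9 : U.val * fromBlocks (ug δ α b11) 0 0 (ug δ 0 0) = fromBlocks (ug δ α b11) 0 0 1 := by
    rw [hU1, fromBlocks_multiply]
    congr 1
    · simp only [Matrix.one_mul, Matrix.zero_mul, add_zero]
    · simp only [Matrix.mul_zero, Matrix.zero_mul, add_zero]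
    · simp only [Matrix.mul_zero, Matrix.zero_mul, add_zero]
    · rw [ug, fromBlocks_multiply, ← fromBlocks_one]
      simp only [Matrix.one_mul, Matrix.zero_mul, Matrix.mul_zero, add_zero, zero_add,
        Matrix.neg_mul, Matrix.mul_neg, neg_neg, smul_one_mul_smul_one hδ, neg_zero]
  have s10 : U.val * fromBlocks (um d) 0 0 0 = fromBlocks (um d) 0 0 0 := by
    rw [hU1, fromBlocks_multiply]
    simp only [Matrix.one_mul, Matrix.zero_mul, Matrix.mul_zero, add_zero, zero_add]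
  rw [s9, s10]
  exact FE.st _ _

/-- interchanging summands -/
theorem fe_comm {δ : ℤ} (d11 : Matrix κ₁ κ₀ (MonoidAlgebra ℤ Γ)) (d12 : Matrix κ₁ κ₀' (MonoidAlgebra ℤ Γ))
    (d21 : Matrix κ₁' κ₀ (MonoidAlgebra ℤ Γ)) (d22 : Matrix κ₁' κ₀' (MonoidAlgebra ℤ Γ))
    (a11 : Matrix κ₀ κ₁ (MonoidAlgebra ℤ Γ)) (a12 : Matrix κ₀ κ₁' (MonoidAlgebra ℤ Γ))
    (a21 : Matrix κ₀' κ₁ (MonoidAlgebra ℤ Γ)) (a22 : Matrix κ₀' κ₁' (MonoidAlgebra ℤ Γ))
    (b11 : Matrix κ₁ κ₀ (MonoidAlgebra ℤ Γ)) (b12 : Matrix κ₁ κ₀' (MonoidAlgebra ℤ Γ))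
    (b21 : Matrix κ₁' κ₀ (MonoidAlgebra ℤ Γ)) (b22 : Matrix κ₁' κ₀' (MonoidAlgebra ℤ Γ)) :
    FE δ (ug δ (fromBlocks a11 a12 a21 a22) (fromBlocks b11 b12 b21 b22))
      (um (fromBlocks d11 d12 d21 d22))
      (ug δ (fromBlocks a22 a21 a12 a11) (fromBlocks b22 b21 b12 b11))
      (um (fromBlocks d22 d21 d12 d11)) := by
  let e : (κ₁' ⊕ κ₁) ⊕ (κ₀' ⊕ κ₀) ≃ (κ₁ ⊕ κ₁') ⊕ (κ₀ ⊕ κ₀') :=
    Equiv.sumCongr (Equiv.sumComm κ₁' κ₁) (Equiv.sumComm κ₀' κ₀)
  refine (FE.re (δ := δ) e _ _).symm.trans (FE.of_eq ?_ ?_)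
  · have h0 : ∀ (x y : Type) [Fintype x] [DecidableEq x] [Fintype y] [DecidableEq y],
        (-(δ • 1) : Matrix (x ⊕ y) (x ⊕ y) (MonoidAlgebra ℤ Γ))
          = fromBlocks (-(δ • 1)) 0 0 (-(δ • 1)) := by
      intro x y _ _ _ _
      rw [← fromBlocks_one (l := x) (m := y), fromBlocks_smul, fromBlocks_neg, smul_zero,
        smul_zero, neg_zero, neg_zero]
    rw [ug, ug, h0, h0, ← fromBlocks_one (l := κ₁) (m := κ₁'), ← fromBlocks_one (l := κ₁') (m := κ₁)]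
    generalize (-(δ • 1) : Matrix κ₀ κ₀ (MonoidAlgebra ℤ Γ)) = D
    generalize (-(δ • 1) : Matrix κ₀' κ₀' (MonoidAlgebra ℤ Γ)) = D'
    ext1 i j
    rcases i with (i | i) | (i | i) <;> rcases j with (j | j) | (j | j) <;> rfl
  · rw [um, um, adj_fromBlocks, adj_fromBlocks]
    ext1 i j
    rcases i with (i | i) | (i | i) <;> rcases j with (j | j) | (j | j) <;> rfl

theorem adj_even {δ : ℤ} (hδ : δ * δ = 1) {I : Type} (χ : Matrix I I (MonoidAlgebra ℤ Γ)) :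
    δ • (χ - δ • adj χ) + adj (χ - δ • adj χ) = 0 := by
  rw [adj_sub, adj_zsmul, adj_adj, smul_sub, smul_smul, hδ, one_smul]
  abel

/-- the exchange move -/
theorem fe_exchange {δ : ℤ} (hδ : δ * δ = 1) (Y : Matrix κ₁ κ₁' (MonoidAlgebra ℤ Γ))
    (d' : Matrix κ₁' κ₀ (MonoidAlgebra ℤ Γ)) (α : Matrix κ₀ κ₁ (MonoidAlgebra ℤ Γ))
    (β' : Matrix κ₁' κ₀ (MonoidAlgebra ℤ Γ)) (θ : Matrix κ₀ κ₀ (MonoidAlgebra ℤ Γ))
    (h : α * (Y * d') = θ - δ • adj θ) (θ' : Matrix κ₁' κ₁' (MonoidAlgebra ℤ Γ))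
    (h' : β' * adj d' = θ' - δ • adj θ') :
    FE δ (ug δ α (Y * β')) (um (Y * d')) (ug δ (α * Y) β') (um d') := by
  have hst := fe_star (δ := δ) (fromBlocks (Y * d') 0 0 d') (fromBlocks α 0 0 0)
    (fromBlocks 0 0 0 β') (uu (-Y)) (ul (-1)) (TT_uu _) (TT_ul _) (by
      rw [uu_val, ul_val, adj_fromBlocks, fromBlocks_multiply, fromBlocks_multiply]
      simp only [adj_one, adj_neg, adj_zero, Matrix.one_mul, Matrix.mul_one, Matrix.mul_zero,
        Matrix.zero_mul, add_zero, zero_add, Matrix.neg_mul, Matrix.mul_neg, neg_zero])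
  rw [uu_inv, ul_inv, fromBlocks_multiply, fromBlocks_multiply, fromBlocks_multiply,
    fromBlocks_multiply] at hst
  simp only [neg_neg, Matrix.one_mul, Matrix.mul_one, Matrix.mul_zero, Matrix.zero_mul, add_zero,
    zero_add] at hst
  have l1 := fe_elim hδ (Y * d') d' α (Y * β') (Y * β') β' β' θ' h' (by
    rw [Matrix.mul_assoc, ← Matrix.mul_smul, Matrix.mul_assoc, ← Matrix.mul_add]
    have h1 : d' * adj β' = adj (θ' - δ • adj θ') := by rw [← h', adj_mul, adj_adj]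
    rw [h1, h', adj_even hδ, Matrix.mul_zero])
  refine l1.symm.trans (hst.trans ?_)
  refine (fe_swap hδ _ _ _).trans ?_
  rw [adj_fromBlocks]
  refine (fe_comm _ _ _ _ _ _ _ _ _ _ _ _).trans ?_
  have l2 := fe_elim hδ (adj d') (adj (Y * d')) β' (α * Y) α (α * Y) α θ
    (by rw [adj_adj]; exact h) (by
      rw [adj_adj, ← adj_mul, Matrix.mul_assoc, h, adj_even hδ])
  simp only [adj_zero]
  refine l2.trans ((fe_swap hδ _ _ _).trans (FE.of_eq rfl ?_))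
  rw [adj_adj]

end uform

end Pool.Agent.T9h15.UO
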