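import Pool.Agent.T9h15.UN.Free

set_option autoImplicit false
set_option linter.unusedSectionVars false
set_option linter.unusedSimpArgs false

/-! Left kernels of matrices over the integral group ring of a free group are finitely generated
and projective, and rationally complemented up to an integer, in an explicit form. -/

namespace Pool.Agent.T9h15.UO

open Matrix Pool.Agent.T9h15.UN

/-- kernels of matrices over the integral group ring are finitely generated and projective, and the
coordinates extend after multiplication with an integer -/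
def KQ (E : Type) [Group E] : Prop :=
  ∀ (n N : ℕ) (Φ : Matrix (Fin n) (Fin N) (MonoidAlgebra ℤ E)),
    ∃ (m : ℕ) (X : Matrix (Fin m) (Fin n) (MonoidAlgebra ℤ E))
      (e : Matrix (Fin m) (Fin m) (MonoidAlgebra ℤ E)) (q : ℤ)
      (Z : Matrix (Fin n) (Fin m) (MonoidAlgebra ℤ E)),
      X * Φ = 0 ∧ e * X = X ∧
      (∀ y : Fin n → MonoidAlgebra ℤ E, y ᵥ* Φ = 0 → ∃ s : Fin m → MonoidAlgebra ℤ E, y = s ᵥ* X) ∧
      (∀ s : Fin m → MonoidAlgebra ℤ E, s ᵥ* X = 0 → s ᵥ* e = 0) ∧ q ≠ 0 ∧ X * Z = q • e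

theorem range_basis' {A ι : Type} [AddCommGroup A] [Finite ι] (ρ : A →+ (ι → ℤ)) :
    ∃ (m : ℕ) (b : Fin m → ρ.range) (co : Fin m → (ρ.range →+ ℤ)) (q : ℤ)
      (ce : Fin m → ((ι → ℤ) →+ ℤ)), q ≠ 0 ∧ (∀ i (w : ρ.range), ce i w.1 = q * co i w) ∧
      ∀ w, w = ∑ i, co i w • b i := by
  let V : Submodule ℤ (ι → ℤ) := AddSubgroup.toIntSubmodule ρ.range
  obtain ⟨m, F⟩ := Submodule.smithNormalForm (Pi.basisFun ℤ ι) V
  let B := F.bN
  have ha : ∀ i, F.a i ≠ 0 := by
    intro i hi
    have h1 := F.snf i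
    rw [hi, zero_smul] at h1
    exact B.ne_zero i (Subtype.ext h1)
  refine ⟨m, fun i => ⟨(B i).1, (B i).2⟩, fun i =>
    { toFun := fun w => B.repr ⟨w.1, w.2⟩ i
      map_zero' := ?_
      map_add' := ?_ }, ∏ j, F.a j, fun i => (∏ j ∈ Finset.univ.erase i, F.a j) •
        (F.bM.coord (F.f i)).toAddMonoidHom, Finset.prod_ne_zero_iff.mpr fun i _ => ha i, ?_, ?_⟩
  · have : (⟨((0 : ρ.range)).1, (0 : ρ.range).2⟩ : V) = 0 := rfl
    rw [this, map_zero]; rfl
  · intro x y
    have : (⟨(x + y).1, (x + y).2⟩ : V) = ⟨x.1, x.2⟩ + ⟨y.1, y.2⟩ := rfl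
    rw [this, map_add]; rfl
  · intro i w
    have h1 := F.repr_apply_embedding_eq_repr_smul (m := (⟨w.1, w.2⟩ : V)) (i := i)
    change (∏ j ∈ Finset.univ.erase i, F.a j) • (F.bM.repr w.1 (F.f i)) = _ * B.repr ⟨w.1, w.2⟩ i
    change F.bM.repr w.1 (F.f i) = _ at h1
    rw [h1, map_smul, Finsupp.smul_apply, smul_eq_mul, smul_eq_mul, ← mul_assoc,
      Finset.prod_erase_mul _ _ (Finset.mem_univ i)]
  · intro w
    have h := B.sum_repr ⟨w.1, w.2⟩
    have h2 := congrArg Subtype.val h
    apply Subtype.ext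
    have h3 : ((∑ i, (B.repr ⟨w.1, w.2⟩) i • B i : V) : ι → ℤ)
        = ∑ i, (B.repr ⟨w.1, w.2⟩) i • (B i : ι → ℤ) := by
      rw [AddSubmonoidClass.coe_finsetSum]; rfl
    have h4 : ((∑ i, (B.repr ⟨w.1, w.2⟩) i • (⟨(B i).1, (B i).2⟩ : ρ.range) : ρ.range) : ι → ℤ)
        = ∑ i, (B.repr ⟨w.1, w.2⟩) i • (B i : ι → ℤ) := by
      rw [AddSubmonoidClass.coe_finsetSum]; rfl
    exact (h4.trans (h3.symm.trans h2)).symm

section main

variable {α : Type} [DecidableEq α] {n : ℕ}

open Classical in
theorem patch_section' (C : Finset (FreeGroup α)) (S : Finset α) (k : ℕ) (hC : C = ball S k)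
    (K : Submodule (MonoidAlgebra ℤ (FreeGroup α)) (Fin n → MonoidAlgebra ℤ (FreeGroup α)))
    (VV : AddSubgroup (C × Fin n → ℤ)) (hK : ∀ y, y ∈ K ↔ ∀ v, pat C v y ∈ VV) :
    ∃ (m : ℕ) (X : Fin m → K)
      (s : K →ₗ[MonoidAlgebra ℤ (FreeGroup α)] (Fin m → MonoidAlgebra ℤ (FreeGroup α)))
      (q : ℤ) (Z : Matrix (Fin n) (Fin m) (MonoidAlgebra ℤ (FreeGroup α))), q ≠ 0 ∧
      (∀ y : K, y.1 ᵥ* Z = q • s y) ∧ ∀ y : K, y = ∑ i, s y i • X i := by
  have h1 : (1 : FreeGroup α) ∈ C := by rw [hC]; exact one_mem_ball S k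
  let ρ : K →+ (C × Fin n → ℤ) := (pat C 1).comp K.subtype.toAddMonoidHom
  have hρ : ∀ y : K, ρ y = pat C 1 y.1 := fun _ => rfl
  have htr : ∀ (g : FreeGroup α) (y : K), tr g y.1 = (MonoidAlgebra.single g (1 : ℤ) • y : K).1 :=
    fun g y => rfl
  obtain ⟨m, b, co, q, ce, hq, hce, hb⟩ := range_basis' ρ
  have hτ : ∀ x : α, ∃ τ : (((resA C x).comp ρ).range) →+ K, ∀ w, (resA C x).comp ρ (τ w) = w :=
    fun x => range_sec _
  choose τ hτ using hτ
  have hA : ∀ x (u : ρ.range), resA C x u.1 ∈ ((resA C x).comp ρ).range := by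
    rintro x ⟨u, y, rfl⟩
    exact ⟨y, rfl⟩
  have hB : ∀ x (u : ρ.range), resB C x u.1 ∈ ((resA C x).comp ρ).range := by
    rintro x ⟨u, y, rfl⟩
    refine ⟨MonoidAlgebra.single (FreeGroup.of x) (1 : ℤ) • y, ?_⟩
    change resA C x (pat C 1 (tr (FreeGroup.of x) y.1)) = resB C x (pat C 1 y.1)
    rw [resA_pat, pat_tr, one_mul, inv_mul_cancel]
  let TA : ∀ x : α, ρ.range →+ K := fun x =>
    (τ x).comp (((resA C x).comp ρ.range.subtype).codRestrict _ (hA x))
  let TB : ∀ x : α, ρ.range →+ K := fun x =>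
    (τ x).comp (((resB C x).comp ρ.range.subtype).codRestrict _ (hB x))
  have hTA : ∀ x u, resA C x (pat C 1 (TA x u).1) = resA C x u.1 := fun x u => hτ x _
  have hTB : ∀ x u, resA C x (pat C 1 (TB x u).1) = resB C x u.1 := fun x u => hτ x _
  have hTAB : ∀ x u u', resA C x u.1 = resB C x u'.1 → TA x u = TB x u' := fun x u u' h =>
    congrArg (τ x) (Subtype.ext h)
  let Z : ρ.range →+ (Fin n → MonoidAlgebra ℤ (FreeGroup α)) :=
    (dlH C h1).comp ρ.range.subtype
      - ∑ x ∈ S, (cutH x).comp (K.subtype.toAddMonoidHom.comp (TA x))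
      + ∑ x ∈ S, (trH (FreeGroup.of x)⁻¹).comp
          ((cutH x).comp (K.subtype.toAddMonoidHom.comp (TB x)))
  let GA : α → FreeGroup α → ρ.range → Fin n → ℤ := fun x v u i =>
    if HT x v then 0 else ((TA x u).1 i).coeff v
  let GB : α → FreeGroup α → ρ.range → Fin n → ℤ := fun x v u i =>
    if HT x v then 0 else ((TB x u).1 i).coeff v
  have hZ : ∀ u i v, (Z u i).coeff v = (if v = 1 then u.1 (⟨1, h1⟩, i) else 0)
      - ∑ x ∈ S, GA x v u i + ∑ x ∈ S, GB x (FreeGroup.of x * v) u i := by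
    intro u i v
    have e1 : Z u i = dlH C h1 u.1 i - ∑ x ∈ S, cutH x (TA x u).1 i
        + ∑ x ∈ S, trH (FreeGroup.of x)⁻¹ (cutH x (TB x u).1) i := by
      simp only [Z, AddMonoidHom.add_apply, AddMonoidHom.sub_apply, AddMonoidHom.finsetSum_apply,
        Pi.add_apply, Pi.sub_apply, Finset.sum_apply]
      rfl
    rw [e1, MonoidAlgebra.coeff_add, Finsupp.add_apply, MonoidAlgebra.coeff_sub,
      Finsupp.sub_apply, coeff_sum', coeff_sum', coeff_dlH]
    simp only [coeff_trH, coeff_cutH, inv_inv, GA, GB]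
  -- the family of patches of `Z u`
  let a : α → FreeGroup α → ρ.range → (C × Fin n → ℤ) := fun x v u =>
    if HT x v then 0 else pat C v (TA x u).1
  let b' : α → FreeGroup α → ρ.range → (C × Fin n → ℤ) := fun x v u =>
    if HT x v then 0 else pat C v (TB x u).1
  let d : FreeGroup α → ρ.range → (C × Fin n → ℤ) := fun v u => if v = 1 then u.1 else 0
  let fam : ρ.range → FreeGroup α → (C × Fin n → ℤ) := fun u v =>
    d v u - ∑ x ∈ S, a x v u + ∑ x ∈ S, b' x (FreeGroup.of x * v) u
  have hfam1 : ∀ u v i, fam u v (⟨1, h1⟩, i) = (Z u i).coeff v := by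
    intro u v i
    rw [hZ]
    simp only [fam, Pi.add_apply, Pi.sub_apply, Finset.sum_apply, d, a, b', GA, GB]
    have e1 : ∀ (p : Prop) [Decidable p] (q : C × Fin n → ℤ) (r : C × Fin n),
        (if p then (0 : C × Fin n → ℤ) else q) r = if p then 0 else q r := by
      intro p _ q r; split_ifs <;> rfl
    have e2 : ∀ (p : Prop) [Decidable p] (q : C × Fin n → ℤ) (r : C × Fin n),
        (if p then q else (0 : C × Fin n → ℤ)) r = if p then q r else 0 := by
      intro p _ q r; split_ifs <;> rfl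
    have e3 : ∀ v (y : Fin n → MonoidAlgebra ℤ (FreeGroup α)),
        pat C v y (⟨1, h1⟩, i) = (y i).coeff v := by
      intro v y; simp [pat]
    simp only [e1, e2, e3]
  have hgen : ∀ (x y : α) (v : FreeGroup α) (w : Fin n → MonoidAlgebra ℤ (FreeGroup α)),
      resA C y (if HT x v then 0 else pat C v w)
        - resB C y (if HT x (v * FreeGroup.of y) then 0 else pat C (v * FreeGroup.of y) w)
      = if v = 1 ∧ y = x then resA C x (pat C 1 w) else 0 := by
    intro x y v w
    have e1 : ∀ (p : Prop) [Decidable p] (f : (C × Fin n → ℤ) →+ (C × Fin n → ℤ))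
        (q : C × Fin n → ℤ), f (if p then 0 else q) = if p then 0 else f q := by
      intro p _ f q; split_ifs
      · exact map_zero f
      · rfl
    rw [e1, e1, ← resA_pat, Pool.Agent.T9h15.UN.ite_sub_ite]
    rcases HT_step x y v with h | ⟨rfl, rfl⟩
    · rw [if_pos h]
      split_ifs with h2
      · exfalso
        obtain ⟨rfl, rfl⟩ := h2
        exact not_HT_one y (h.mpr (by rw [one_mul]; exact HT_of y))
      · rfl
    · rw [if_neg, if_neg (not_HT_one y), if_pos ⟨rfl, rfl⟩]
      rw [one_mul]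
      exact fun h => not_HT_one y (h.mpr (HT_of y))
  have hcons : ∀ u v, ∀ y ∈ S, resA C y (fam u v) = resB C y (fam u (v * FreeGroup.of y)) := by
    intro u v y hy
    rw [← sub_eq_zero]
    simp only [fam, map_add, map_sub, map_sum]
    have e1 : ∑ x ∈ S, resA C y (a x v u) - ∑ x ∈ S, resB C y (a x (v * FreeGroup.of y) u)
        = if v = 1 then resA C y u.1 else 0 := by
      rw [← Finset.sum_sub_distrib, Finset.sum_eq_single_of_mem y hy]
      · rw [hgen]
        simp only [and_true, hTA]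
      · intro x _ hx
        rw [hgen, if_neg]
        exact fun h => hx h.2.symm
    have e2 : ∑ x ∈ S, resA C y (b' x (FreeGroup.of x * v) u)
        - ∑ x ∈ S, resB C y (b' x (FreeGroup.of x * (v * FreeGroup.of y)) u)
        = if v * FreeGroup.of y = 1 then resB C y u.1 else 0 := by
      rw [← Finset.sum_sub_distrib, Finset.sum_eq_single_of_mem y hy]
      · rw [← mul_assoc, hgen]
        simp only [and_true, hTB]
        have e3 : FreeGroup.of y * v = 1 ↔ v * FreeGroup.of y = 1 := by
          rw [mul_eq_one_iff_eq_inv, mul_eq_one_iff_eq_inv]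
          constructor
          · intro h; rw [h]; simp
          · intro h; rw [h]; simp
        simp only [e3]
      · intro x _ hx
        rw [← mul_assoc, hgen, if_neg]
        exact fun h => hx h.2.symm
    have e3 : resA C y (d v u) - resB C y (d (v * FreeGroup.of y) u)
        = (if v = 1 then resA C y u.1 else 0) - if v * FreeGroup.of y = 1 then resB C y u.1 else 0 := by
      simp only [d]
      congr 1 <;> split_ifs <;> simp
    calc _ = (resA C y (d v u) - resB C y (d (v * FreeGroup.of y) u))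
        - (∑ x ∈ S, resA C y (a x v u) - ∑ x ∈ S, resB C y (a x (v * FreeGroup.of y) u))
        + (∑ x ∈ S, resA C y (b' x (FreeGroup.of x * v) u)
        - ∑ x ∈ S, resB C y (b' x (FreeGroup.of x * (v * FreeGroup.of y)) u)) := by abel
      _ = 0 := by rw [e1, e2, e3]; abel
  have hpatZ : ∀ u v, pat C v (Z u) = fam u v := by
    intro u v
    ext1 p
    rcases p with ⟨c, i⟩
    rw [connect C S k hC h1 (fam u) (hcons u), hfam1]
    rfl
  have hrange : ∀ u : ρ.range, u.1 ∈ VV := by
    rintro ⟨u, y, rfl⟩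
    exact (hK y.1).mp y.2 1
  have hZK : ∀ u, Z u ∈ K := by
    intro u
    rw [hK]
    intro v
    rw [hpatZ]
    refine VV.add_mem (VV.sub_mem ?_ ?_) ?_
    · simp only [d]
      split_ifs
      · exact hrange u
      · exact VV.zero_mem
    · refine VV.sum_mem fun x _ => ?_
      simp only [a]
      split_ifs
      · exact VV.zero_mem
      · exact (hK _).mp (TA x u).2 _
    · refine VV.sum_mem fun x _ => ?_
      simp only [b']
      split_ifs
      · exact VV.zero_mem
      · exact (hK _).mp (TB x u).2 _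
  -- the patches as elements of the range
  have hmem : ∀ (v : FreeGroup α) (y : K), pat C v y.1 ∈ ρ.range := by
    intro v y
    refine ⟨MonoidAlgebra.single v⁻¹ (1 : ℤ) • y, ?_⟩
    change pat C 1 (tr v⁻¹ y.1) = _
    rw [pat_tr, inv_inv, mul_one]
  let pK : FreeGroup α → K →+ ρ.range := fun v =>
    ((pat C v).comp K.subtype.toAddMonoidHom).codRestrict _ (hmem v)
  have hpK : ∀ v y, (pK v y).1 = pat C v y.1 := fun _ _ => rfl
  have hpKtr : ∀ v g (y : K), pK v (MonoidAlgebra.single g (1 : ℤ) • y) = pK (g⁻¹ * v) y := by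
    intro v g y
    apply Subtype.ext
    rw [hpK, hpK]
    exact pat_tr C g v y.1
  let T : K → Finset (FreeGroup α) := fun y =>
    Finset.univ.biUnion fun i => (y.1 i).coeff.support.biUnion fun w => C.image fun c => w * c
  have hT : ∀ y v, v ∉ T y → pK v y = 0 := by
    intro y v hv
    apply Subtype.ext
    rw [hpK]
    ext1 p
    rcases p with ⟨c, i⟩
    change (y.1 i).coeff (v * (c : FreeGroup α)⁻¹) = 0
    by_contra h
    apply hv
    simp only [T, Finset.mem_biUnion, Finset.mem_univ, true_and, Finset.mem_image,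
      Finsupp.mem_support_iff]
    exact ⟨i, _, h, c, c.2, by simp⟩
  -- the section
  let s : K →+ (Fin m → MonoidAlgebra ℤ (FreeGroup α)) :=
    { toFun := fun y i => .ofCoeff (Finsupp.onFinset (T y) (fun v => co i (pK v y)) (by
        intro v hv
        by_contra h
        exact hv (by rw [hT y v h, map_zero])))
      map_zero' := by ext i v; simp
      map_add' := fun y z => by ext i v; simp }
  have hs : ∀ y i v, (s y i).coeff v = co i (pK v y) := fun y i v => rfl
  have hsl : ∀ (c : MonoidAlgebra ℤ (FreeGroup α)) (y : K), s (c • y) = c • s y := by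
    intro c y
    induction c using MonoidAlgebra.induction_linear with
    | zero => rw [zero_smul, zero_smul, map_zero]
    | add c1 c2 h1 h2 => rw [add_smul, add_smul, map_add, h1, h2]
    | single g r =>
      have e1 : MonoidAlgebra.single g r = r • MonoidAlgebra.single g (1 : ℤ) := by
        rw [MonoidAlgebra.smul_single]; simp
      rw [e1, smul_assoc, map_zsmul, smul_assoc]
      congr 1
      ext i v
      rw [hs, hpKtr, Pi.smul_apply, smul_eq_mul, MonoidAlgebra.coeff_single_mul_apply, one_mul, hs]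
  refine ⟨m, fun i => ⟨Z (b i), hZK _⟩, { toFun := s, map_add' := map_add s, map_smul' := hsl }, q,
    Matrix.of fun l i => ∑ c : C, MonoidAlgebra.single (c : FreeGroup α)
      (ce i (Pi.single (c, l) 1)), hq, ?_, ?_⟩
  · intro y
    ext i v
    have e1 : ((y.1 ᵥ* (Matrix.of fun l i => ∑ c : C, MonoidAlgebra.single (c : FreeGroup α)
        (ce i (Pi.single (c, l) 1)))) i).coeff v
        = ∑ l, ∑ c : C, pat C v y.1 (c, l) * ce i (Pi.single (c, l) 1) := by
      rw [Matrix.vecMul, dotProduct, coeff_sum']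
      refine Finset.sum_congr rfl fun l _ => ?_
      rw [Matrix.of_apply, Finset.mul_sum, coeff_sum']
      refine Finset.sum_congr rfl fun c _ => ?_
      rw [MonoidAlgebra.coeff_mul_single_apply]
      rfl
    have e2 : ce i (pat C v y.1) = ∑ l, ∑ c : C, pat C v y.1 (c, l) * ce i (Pi.single (c, l) 1) := by
      have e3 : pat C v y.1 = ∑ p : C × Fin n, pat C v y.1 p • (Pi.single p (1 : ℤ) : C × Fin n → ℤ) := by
        ext1 p
        rw [Finset.sum_apply, Finset.sum_eq_single_of_mem p (Finset.mem_univ p)]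
        · simp
        · intro p' _ hp'
          simp [Pi.single_apply, Ne.symm hp']
      conv_lhs => rw [e3]
      rw [map_sum, Fintype.sum_prod_type, Finset.sum_comm]
      refine Finset.sum_congr rfl fun l _ => Finset.sum_congr rfl fun c _ => ?_
      rw [map_zsmul, smul_eq_mul]
    rw [e1, ← e2]
    have e3 := hce i (pK v y)
    rw [hpK] at e3
    rw [e3]
    change _ = (q • s y i).coeff v
    rw [MonoidAlgebra.coeff_smul, Finsupp.smul_apply, smul_eq_mul, hs]
  intro y
  apply Subtype.ext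
  change y.1 = ((∑ i, s y i • (⟨Z (b i), hZK _⟩ : K) : K) : Fin n → MonoidAlgebra ℤ (FreeGroup α))
  rw [Submodule.coe_sum]
  ext j h
  have hsupp : ∀ i, (s y i).coeff.support ⊆ T y := by
    intro i v hv
    by_contra h2
    rw [Finsupp.mem_support_iff, hs, hT y v h2, map_zero] at hv
    exact hv rfl
  have hfs : ∀ f : FreeGroup α → ℤ, (∀ v, v ∉ T y → f v = 0) → ∑ v ∈ T y, f v = ∑ᶠ v, f v := by
    intro f hf
    refine (finsum_eq_sum_of_support_subset f fun v hv => ?_).symm
    by_contra h2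
    exact hv (hf v h2)
  have e1 : ((∑ i, ((s y i • (⟨Z (b i), hZK _⟩ : K) : K) : Fin n → MonoidAlgebra ℤ (FreeGroup α))) j).coeff h
      = ∑ v ∈ T y, (Z (pK v y) j).coeff (v⁻¹ * h) := by
    rw [Finset.sum_apply, coeff_sum']
    have e2 : ∀ i, (((s y i • (⟨Z (b i), hZK _⟩ : K) : K) : Fin n → MonoidAlgebra ℤ (FreeGroup α)) j).coeff h
        = ∑ v ∈ T y, co i (pK v y) * (Z (b i) j).coeff (v⁻¹ * h) := by
      intro i
      change (s y i * Z (b i) j).coeff h = _
      rw [coeff_mul_left' (T y) _ _ (hsupp i)]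
      rfl
    simp only [e2]
    rw [Finset.sum_comm]
    refine Finset.sum_congr rfl fun v _ => ?_
    conv_rhs => rw [hb (pK v y)]
    rw [map_sum, Finset.sum_apply, coeff_sum']
    refine Finset.sum_congr rfl fun i _ => ?_
    rw [map_zsmul, Pi.smul_apply, MonoidAlgebra.coeff_smul, Finsupp.smul_apply, smul_eq_mul]
  rw [e1]
  simp only [hZ]
  rw [Finset.sum_add_distrib, Finset.sum_sub_distrib, Finset.sum_comm (s := T y) (t := S),
    Finset.sum_comm (s := T y) (t := S)]
  have e3 : ∀ x ∈ S, ∑ v ∈ T y, GA x (v⁻¹ * h) (pK v y) j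
      = ∑ v ∈ T y, GB x (FreeGroup.of x * (v⁻¹ * h)) (pK v y) j := by
    intro x _
    rw [hfs _ (fun v hv => by simp [GA, hT y v hv]), hfs _ (fun v hv => by simp [GB, hT y v hv])]
    refine Eq.trans ?_ (finsum_comp_equiv (Equiv.mulRight (FreeGroup.of x)))
    refine finsum_congr fun v => ?_
    have e4 : TA x (pK v y) = TB x (pK (v * FreeGroup.of x) y) := hTAB x _ _ (resA_pat C x v y.1)
    simp only [GA, GB, Equiv.coe_mulRight, e4]
    have e5 : FreeGroup.of x * ((v * FreeGroup.of x)⁻¹ * h) = v⁻¹ * h := by group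
    rw [e5]
  rw [Finset.sum_congr rfl e3, sub_add_cancel]
  have e6 : ∀ v, (if v⁻¹ * h = 1 then (pK v y).1 (⟨1, h1⟩, j) else 0)
      = if v = h then (y.1 j).coeff h else 0 := by
    intro v
    by_cases hv : v = h
    · subst hv
      rw [if_pos (inv_mul_cancel v), if_pos rfl, hpK]
      simp [pat]
    · rw [if_neg hv, if_neg]
      intro h2
      exact hv (inv_mul_eq_one.mp h2)
  simp only [e6]
  rw [Finset.sum_ite_eq']
  split_ifs with h2
  · rfl
  · have h3 := hT y h h2
    have h4 : pat C h y.1 (⟨1, h1⟩, j) = 0 := by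
      rw [← hpK, h3]; rfl
    simpa [pat] using h4

/-- kernels over the integral group ring of a free group -/
theorem kq_free (α : Type) : KQ (FreeGroup α) := by
  classical
  intro n N Φ
  let D : Finset (FreeGroup α) :=
    Finset.univ.biUnion fun i => Finset.univ.biUnion fun j => (Φ i j).coeff.support
  obtain ⟨S, k, hD⟩ := exists_ball D
  let C := ball S k
  have hsupp : ∀ i j, (Φ i j).coeff.support ⊆ C := by
    intro i j c hc
    apply hD
    simp only [D, Finset.mem_biUnion, Finset.mem_univ, true_and]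
    exact ⟨i, j, hc⟩
  let VV : AddSubgroup (C × Fin n → ℤ) :=
    { carrier := {q | ∀ j, ∑ i, ∑ c : C, q (c, i) * (Φ i j).coeff c = 0}
      zero_mem' := by intro j; simp
      add_mem' := by
        intro p q hp hq j
        simp only [Pi.add_apply, add_mul, Finset.sum_add_distrib]
        rw [hp j, hq j, add_zero]
      neg_mem' := by
        intro p hp j
        simp only [Pi.neg_apply, neg_mul, Finset.sum_neg_distrib]
        rw [hp j, neg_zero] }
  let K := LinearMap.ker (Matrix.vecMulLinear Φ)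
  have hK : ∀ y, y ∈ K ↔ ∀ v, pat C v y ∈ VV := by
    intro y
    have e1 : ∀ v j, ∑ i, ∑ c : C, pat C v y (c, i) * (Φ i j).coeff c = ((y ᵥ* Φ) j).coeff v := by
      intro v j
      rw [Matrix.vecMul, dotProduct, coeff_sum']
      refine Finset.sum_congr rfl fun i _ => ?_
      rw [coeff_mul_right C _ _ (hsupp i j), ← Finset.sum_coe_sort C]
      rfl
    rw [LinearMap.mem_ker]
    change y ᵥ* Φ = 0 ↔ ∀ v j, _
    simp only [e1]
    constructor
    · intro h v j; rw [h]; rfl
    · intro h; ext j v; rw [h]; rfl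
  obtain ⟨m, X, s, q, Z, hq, hZ, hs⟩ := patch_section' C S k rfl K VV hK
  have hlin : ∀ r : Fin m → MonoidAlgebra ℤ (FreeGroup α),
      ((∑ i, r i • X i : K) : Fin n → MonoidAlgebra ℤ (FreeGroup α))
        = r ᵥ* (Matrix.of fun i => (X i).1) := by
    intro r
    rw [Matrix.vecMul_eq_sum, Submodule.coe_sum]
    rfl
  refine ⟨m, Matrix.of fun i => (X i).1, Matrix.of fun i => s (X i), q, Z, ?_, ?_, ?_, ?_, hq,
    funext fun i => hZ (X i)⟩
  · refine funext fun i => ?_
    exact (X i).2
  · refine funext fun i => ?_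
    have h := congrArg Subtype.val (hs (X i))
    rw [hlin] at h
    exact h.symm
  · intro y hy
    refine ⟨s ⟨y, hy⟩, ?_⟩
    have h := congrArg Subtype.val (hs ⟨y, hy⟩)
    rw [hlin] at h
    exact h
  · intro r hr
    have h1 : (∑ i, r i • X i : K) = 0 := Subtype.ext ((hlin r).trans hr)
    have h2 := congrArg s h1
    rw [map_sum, map_zero] at h2
    rw [Matrix.vecMul_eq_sum]
    simp only [map_smul] at h2
    exact h2

end main

end Pool.Agent.T9h15.UO
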