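import Pool.Agent.T9h15.UO.Pa

set_option autoImplicit false
set_option linter.unusedSectionVars false
set_option linter.unusedSimpArgs false

/-! Unilateral formations with factorising words are trivial. -/

namespace Pool.Agent.T9h15.UO

open Matrix TH6.LF TH57.Thr Pool.Agent.T9h15.UN

variable {Γ : Type} [Group Γ] {Λ : Type} [MulAction Γ Λ]

section two

variable {κ₁ κ₀ : Type} [Fintype κ₁] [DecidableEq κ₁] [Fintype κ₀] [DecidableEq κ₀]
  {S : Sys Γ Λ} {b : Bool} {δ : ℤ} {ℓ₁ : κ₁ → Λ} {ℓ₀ : κ₀ → Λ}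
    {d : Matrix κ₁ κ₀ (MonoidAlgebra ℤ Γ)} {α : Matrix κ₀ κ₁ (MonoidAlgebra ℤ Γ)}
    {β : Matrix κ₁ κ₀ (MonoidAlgebra ℤ Γ)} {e₁ : Matrix κ₁ κ₁ (MonoidAlgebra ℤ Γ)}
    {e₀ : Matrix κ₀ κ₀ (MonoidAlgebra ℤ Γ)}

theorem KO.mat (h : KO d e₁) {ι : Type} (X : Matrix ι κ₁ (MonoidAlgebra ℤ Γ)) (hX : X * d = 0) :
    X * e₁ = 0 := funext fun i => h (X i) (congrFun hX i)

theorem at_vecMul {κ μ : Type} [Fintype κ] [Fintype μ] {ℓ : κ → Λ} {ℓ' : μ → Λ}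
    {X : Matrix κ μ (MonoidAlgebra ℤ Γ)} (hX : Sup ℓ ℓ' (fun x y => x = y) X) {y : Λ}
    {v : κ → MonoidAlgebra ℤ Γ} (hv : At ℓ y v) : At ℓ' y (v ᵥ* X) := by
  intro k g hg
  have h1 := pts_word inv_eq hX hv ((mem_pts ℓ' (v ᵥ* X) (g • ℓ' k)).mpr ⟨k, g, hg, rfl⟩)
  exact h1.symm

/-- the data for the second step -/
theorem OD.word (hδ : δ * δ = 1) (D : OD S b δ ℓ₁ ℓ₀ d α β e₁ e₀) (k1 : KO d e₁)
    (k0 : KO (adj d) (adj e₀)) {n : ℕ} (h : HS n d α β) :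
    ∃ T : Matrix (κ₁ ⊕ κ₀) κ₀ (MonoidAlgebra ℤ Γ),
      Sup (Sum.elim ℓ₁ ℓ₀) ℓ₀ (Wk S.R (!b) n) (adj (cc α β) ^ n * rR κ₁ e₀) ∧
      Sup (Sum.elim ℓ₁ ℓ₀) ℓ₀ (Wk S.R b (n + 1)) T ∧
      (adj (cc α β) ^ n * rR κ₁ e₀) * adj β = T * adj d ∧
      (adj (cc α β) ^ n * rR κ₁ e₀) * e₀ = adj (cc α β) ^ n * rR κ₁ e₀ ∧ T * adj e₀ = T ∧
      T * adj (adj (cc α β) ^ n * rR κ₁ e₀) + δ • ((adj (cc α β) ^ n * rR κ₁ e₀) * adj T) = 0 := by
  obtain ⟨T₀, hT₀⟩ := h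
  have heβ : e₀ * adj β = adj β := by
    have h3 := congrArg adj D.be
    rwa [adj_mul, adj_adj] at h3
  have heα : adj e₁ * adj α = adj α := by
    have h3 := congrArg adj D.ae
    rwa [adj_mul] at h3
  have hed : adj e₀ * adj d = adj d := by rw [← adj_mul, D.de]
  have hsW : Sup (Sum.elim ℓ₁ ℓ₀) ℓ₀ (Wk S.R (!b) n) (adj (cc α β) ^ n * rR κ₁ e₀) := by
    have h1 : rR κ₁ e₀ = iR Γ κ₁ κ₀ * e₀ := by rw [rows_inr, Matrix.one_mul]
    rw [h1, ← Matrix.mul_assoc, adj_cc]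
    have h2 := (sup_cc (S := S) (b := !b) (α := adj β) (β := adj α) (ℓ₁ := ℓ₁) (ℓ₀ := ℓ₀)
      (by rw [Bool.not_not]; exact D.sb.adj (S.inv b) (S.symm b))
      (D.sa.adj (S.inv _) (S.symm _)) n).2
    exact h2.mul inv_eq (fun x y z h h' => by rw [← h']; exact h) D.s0
  let EJ : Matrix (κ₁ ⊕ κ₀) (κ₁ ⊕ κ₀) (MonoidAlgebra ℤ Γ) := fromBlocks (adj e₁) 0 0 e₀
  have hEs : Sup (Sum.elim ℓ₁ ℓ₀) (Sum.elim ℓ₁ ℓ₀) (fun x y => x = y) EJ := by
    rintro (k | k) (l | l) g hg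
    · exact D.s1.adj inv_eq (fun x y h => h.symm) k l g hg
    · exact absurd rfl hg
    · exact absurd rfl hg
    · exact D.s0 k l g hg
  have hEE : EJ * EJ = EJ := by
    simp only [EJ, fromBlocks_multiply]
    congr 1
    · rw [Matrix.zero_mul, add_zero, ← adj_mul, D.i1]
    · simp
    · simp
    · rw [Matrix.zero_mul, zero_add, D.i0]
  have hEW : EJ * (adj (cc α β) ^ n * rR κ₁ e₀) = adj (cc α β) ^ n * rR κ₁ e₀ := by
    rcases n with _ | n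
    · rw [pow_zero, Matrix.one_mul]
      simp only [EJ]
      rw [fromBlocks_mul_fromRows]
      simp [D.i0]
    · rw [pow_succ', ← Matrix.mul_assoc, ← Matrix.mul_assoc]
      congr 2
      rw [adj_cc]
      simp only [EJ, cc, fromBlocks_multiply]
      congr 1 <;> simp [heα, heβ]
  have hWβ : (adj (cc α β) ^ n * rR κ₁ e₀) * adj β = T₀ * adj d := by
    rw [Matrix.mul_assoc, rows_inr, heβ]; exact hT₀
  have hWe : (adj (cc α β) ^ n * rR κ₁ e₀) * e₀ = adj (cc α β) ^ n * rR κ₁ e₀ := by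
    rw [Matrix.mul_assoc, rows_inr, D.i0]
  have hUW : ∃ U : Matrix (κ₁ ⊕ κ₀) κ₁ (MonoidAlgebra ℤ Γ),
      um d * (adj (cc α β) ^ n * rR κ₁ e₀) = U * d := by
    refine ⟨(-δ) ^ n • (cc α β ^ n * iL Γ κ₁ κ₀), ?_⟩
    have h1 := cc_pow_um D.ka D.kb n
    have h2 : um d * adj (cc α β) ^ n = (-δ) ^ n • (cc α β ^ n * um d) := by
      rw [h1, smul_smul, ← mul_pow, neg_mul_neg, hδ, one_pow, one_smul]
    rw [← Matrix.mul_assoc, h2, Matrix.smul_mul, Matrix.mul_assoc, um_inr, D.de,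
      Matrix.smul_mul, Matrix.mul_assoc, rows_inl, Matrix.one_mul]
  generalize adj (cc α β) ^ n * rR κ₁ e₀ = W at hsW hEW hWβ hWe hUW ⊢
  obtain ⟨U, hU⟩ := hUW
  let T : Matrix (κ₁ ⊕ κ₀) κ₀ (MonoidAlgebra ℤ Γ) :=
    trc (Wk S.R b (n + 1)) (Sum.elim ℓ₁ ℓ₀) ℓ₀ (EJ * T₀ * adj e₀)
  have hs0 : Sup ℓ₀ ℓ₀ (fun x y => x = y) (adj e₀) := D.s0.adj inv_eq (fun x y h => h.symm)
  have hWT : W * adj β = T * adj d := by
    have h1 : W * adj β = EJ * T₀ * adj e₀ * adj d := by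
      rw [Matrix.mul_assoc _ (adj e₀), hed, Matrix.mul_assoc, ← hWβ, ← Matrix.mul_assoc, hEW]
    have h2 : Sup (Sum.elim ℓ₁ ℓ₀) ℓ₁ (Wk S.R b (n + 1)) (W * adj β) :=
      hsW.mul (S.inv b) (fun x y z h h' => ⟨y, h, h'⟩) (D.sb.adj (S.inv b) (S.symm b))
    rw [← trc_of_sup h2, h1, trc_mul_vert _ (D.sd.adj inv_eq (fun x y h => h.symm))]
  have hTe : T * adj e₀ = T := by
    simp only [T]
    rw [← trc_mul_vert _ hs0, Matrix.mul_assoc _ (adj e₀), ← adj_mul, D.i0]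
  have hET : EJ * T = T := by
    simp only [T]
    rw [← trc_mul_left (wk_inv S (n + 1) b) hEs, ← Matrix.mul_assoc, ← Matrix.mul_assoc, hEE]
  refine ⟨T, hsW, sup_trc _ _, hWT, hWe, hTe, ?_⟩
  have hdβ : d * adj β + δ • (β * adj d) = 0 := by
    have h1 := congrArg adj D.kb
    rw [adj_add, adj_zsmul, adj_adj, adj_zero] at h1
    rwa [adj_mul, adj_adj] at h1
  have h1 : um d * T + δ • (U * β) = 0 := by
    have h2 : (um d * T + δ • (U * β)) * adj d = 0 := by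
      have h3 : (um d * T + δ • (U * β)) * adj d = U * (d * adj β + δ • (β * adj d)) := by
        rw [Matrix.add_mul, Matrix.mul_assoc, ← hWT, ← Matrix.mul_assoc, hU]
        simp only [Matrix.mul_add, Matrix.mul_smul, Matrix.smul_mul, Matrix.mul_assoc]
      rw [h3, hdβ, Matrix.mul_zero]
    have h4 := k0.mat _ h2
    rwa [Matrix.add_mul, Matrix.smul_mul, Matrix.mul_assoc, hTe, Matrix.mul_assoc, D.be] at h4
  have h2 : um d * (T * adj W + δ • (W * adj T)) = 0 := by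
    have h3 : um d * T = -(δ • (U * β)) := eq_neg_of_add_eq_zero_left h1
    have h4 : d * adj T = β * adj W := by
      have h5 := congrArg adj hWT
      rw [adj_mul, adj_mul, adj_adj, adj_adj] at h5
      exact h5.symm
    rw [Matrix.mul_add, Matrix.mul_smul, ← Matrix.mul_assoc, ← Matrix.mul_assoc, h3, hU,
      Matrix.mul_assoc U d, h4]
    simp only [Matrix.neg_mul, Matrix.smul_mul, Matrix.mul_assoc]
    rw [neg_add_cancel]
  have h3 : adj (T * adj W + δ • (W * adj T)) = δ • (T * adj W + δ • (W * adj T)) := by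
    rw [adj_add, adj_zsmul, adj_mul, adj_mul, adj_adj, adj_adj, smul_add, smul_smul, hδ, one_smul,
      add_comm]
  have h4 : (T * adj W + δ • (W * adj T)) * um d = 0 := by
    have h5 := congrArg adj h2
    have h6 : adj (um d) = um d := by
      rw [um, adj_fromBlocks, adj_zero, adj_zero, adj_adj]
    rw [adj_mul, h6, h3, adj_zero, Matrix.smul_mul] at h5
    have h7 := congrArg (fun X => δ • X) h5
    simpa only [smul_smul, hδ, one_smul, smul_zero] using h7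
  have h5 : (T * adj W + δ • (W * adj T)) * adj EJ = T * adj W + δ • (W * adj T) := by
    rw [Matrix.add_mul, Matrix.smul_mul, Matrix.mul_assoc, Matrix.mul_assoc, ← adj_mul, ← adj_mul,
      hEW, hET]
  rw [← h5]
  generalize T * adj W + δ • (W * adj T) = Om at h4
  refine funext fun i => ?_
  change Om i ᵥ* adj EJ = 0
  have h6 : Om i ᵥ* um d = 0 := congrFun h4 i
  have h7 : adj EJ = fromBlocks e₁ 0 0 (adj e₀) := by
    simp only [EJ]
    rw [adj_fromBlocks, adj_adj, adj_zero, adj_zero]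
  have h8 : (Om i ∘ Sum.inl) ᵥ* d = 0 := by
    have h9 := congrArg (fun w => w ᵥ* iR Γ κ₁ κ₀) h6
    simp only [Matrix.vecMul_vecMul, Matrix.zero_vecMul] at h9
    rwa [um_inr, Matrix.mul_one, vecMul_fromRows, Matrix.vecMul_zero, add_zero] at h9
  have h9 : (Om i ∘ Sum.inr) ᵥ* adj d = 0 := by
    have h9 := congrArg (fun w => w ᵥ* iL Γ κ₁ κ₀) h6
    simp only [Matrix.vecMul_vecMul, Matrix.zero_vecMul] at h9
    rwa [um_inl, Matrix.mul_one, vecMul_fromRows, Matrix.vecMul_zero, zero_add] at h9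
  have h10 := k1 _ h8
  have h11 := k0 _ h9
  rw [h7]
  ext1 j
  rcases j with j | j
  · have h12 := congrFun h10 j
    simp only [Matrix.vecMul, dotProduct, Fintype.sum_sum_type, fromBlocks_apply₁₁,
      fromBlocks_apply₂₁, Matrix.zero_apply, mul_zero, Finset.sum_const_zero, add_zero,
      Function.comp_apply, Pi.zero_apply] at h12 ⊢
    exact h12
  · have h12 := congrFun h11 j
    simp only [Matrix.vecMul, dotProduct, Fintype.sum_sum_type, fromBlocks_apply₁₂,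
      fromBlocks_apply₂₂, Matrix.zero_apply, mul_zero, Finset.sum_const_zero, zero_add,
      Function.comp_apply, Pi.zero_apply] at h12 ⊢
    exact h12

/-- the second step -/
theorem step_two (hno : ∀ g : Γ, g = g⁻¹ → g = 1) (hδ : δ * δ = 1)
    (D : OD S b δ ℓ₁ ℓ₀ d α β e₁ e₀) (k1 : KO d e₁) (k0 : KO (adj d) (adj e₀)) {n : ℕ}
    (h : HS n d α β) :
    ∃ (M : Type) (_ : Fintype M) (_ : DecidableEq M) (ℓM : M → Λ)
      (d' : Matrix M κ₀ (MonoidAlgebra ℤ Γ)) (α' : Matrix κ₀ M (MonoidAlgebra ℤ Γ))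
      (β' : Matrix M κ₀ (MonoidAlgebra ℤ Γ)) (e : Matrix M M (MonoidAlgebra ℤ Γ)),
      OD S b δ ℓM ℓ₀ d' α' β' e e₀ ∧ FE δ (ug δ α β) (um d) (ug δ α' β') (um d') ∧
      KO d' e ∧ KO (adj d') (adj e₀) ∧ ST n d' α' β' e₀ := by
  obtain ⟨T, hsW, hsT, hWT, hWe, hTe, hΩ⟩ := D.word hδ k1 k0 h
  obtain ⟨Q, j1, j2, ℓQ, P, A, C, hl, hP, hA, hPe, hAe, h1, h2, hW⟩ :=
    parts hδ _ T n hsW hsT hWT D.sd D.sb D.s0 hWe hTe hΩ
  obtain ⟨M, i1, i2, ℓM, Y, YQ, d', β', e, q, S₁, S₂, hOD, hFE, hS1, hS2, hd, hβ, hPd, hAβ, hYe,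
    hYQe, hker, hq, hSY⟩ := D.fop hno hδ ℓQ hl P A hP hA hPe hAe h1 h2
  have hk0 : KO (adj d') (adj e₀) := by
    intro v hv
    apply k0
    rw [hd, adj_mul, ← Matrix.vecMul_vecMul, hv, Matrix.zero_vecMul]
  refine ⟨M, i1, i2, ℓM, d', α * Y, β', e, hOD, hFE, ?_, hk0, ?_⟩
  · have hat : ∀ y (v : M → MonoidAlgebra ℤ Γ), At ℓM y v → v ᵥ* d' = 0 → v ᵥ* e = 0 := by
      intro y v hv hvd
      have e1 : v ᵥ* β' = 0 := by
        have h3 : (v ᵥ* β') ᵥ* adj d' = 0 := by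
          rw [Matrix.vecMul_vecMul, eq_neg_of_add_eq_zero_left hOD.kb, adj_mul, adj_adj,
            Matrix.vecMul_neg, Matrix.vecMul_smul, ← Matrix.vecMul_vecMul, hvd,
            Matrix.zero_vecMul, smul_zero, neg_zero]
        have h4 := hk0 _ h3
        rwa [Matrix.vecMul_vecMul, hOD.be] at h4
      have h3 : ∀ {ι : Type} [Fintype ι] (X : Matrix M ι (MonoidAlgebra ℤ Γ)), e * X = X →
          (v ᵥ* S₁) ᵥ* (Y * X) + (v ᵥ* S₂) ᵥ* (YQ * X) = q • (v ᵥ* X) := by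
        intro ι _ X hX
        rw [Matrix.vecMul_vecMul, Matrix.vecMul_vecMul, ← Matrix.vecMul_add, ← Matrix.mul_assoc,
          ← Matrix.mul_assoc, ← Matrix.add_mul, hSY, Matrix.smul_mul, hX, Matrix.vecMul_smul]
      have h4 := hker y (v ᵥ* S₁) (v ᵥ* S₂) (at_vecMul hS1 hv) (at_vecMul hS2 hv)
        (by rw [hd, hPd, h3 d' hOD.ed, hvd, smul_zero])
        (by rw [hβ, hAβ, h3 β' hOD.eb, e1, smul_zero])
      rw [Matrix.vecMul_vecMul, Matrix.vecMul_vecMul, ← Matrix.vecMul_add, hSY,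
        Matrix.vecMul_smul] at h4
      exact zsmul_cancel hq h4
    intro v hv
    rw [sum_part ℓM v, Matrix.sum_vecMul]
    refine Finset.sum_eq_zero fun y _ => hat y _ (at_part _ _ _) ?_
    exact part_vecMul inv_eq hOD.sd v hv (fun y₁ _ y₂ _ z e1 e2 => e1.trans e2.symm) y
  · let YJ : Matrix (κ₁ ⊕ κ₀) (M ⊕ κ₀) (MonoidAlgebra ℤ Γ) := fromBlocks Y 0 0 1
    have hint : cc α β * YJ = YJ * cc (α * Y) β' := by
      simp only [cc, YJ, fromBlocks_multiply]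
      congr 1 <;> simp [hβ]
    have h3 : ∀ m, adj (cc (α * Y) β') ^ m * adj YJ = adj YJ * adj (cc α β) ^ m := by
      have h4 := congrArg adj hint
      rw [adj_mul, adj_mul] at h4
      intro m
      induction m with
      | zero => simp
      | succ m ih =>
        rw [pow_succ, Matrix.mul_assoc, ← h4, ← Matrix.mul_assoc, ih, Matrix.mul_assoc, ← pow_succ]
    have h4 : rR M e₀ = adj YJ * rR κ₁ e₀ := by
      simp only [YJ, adj_fromBlocks]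
      rw [fromBlocks_mul_fromRows]; simp [adj_zero, adj_one]
    refine ⟨adj YJ * C * YQ, ?_⟩
    rw [h4, ← Matrix.mul_assoc, h3, Matrix.mul_assoc, hW, hPd]
    simp only [Matrix.mul_assoc]

/-- the terminal case -/
theorem OD.term (hno : ∀ g : Γ, g = g⁻¹ → g = 1) (hδ : δ * δ = 1)
    (D : OD S b δ ℓ₁ ℓ₀ d α β e₁ e₀) (k1 : KO d e₁) (h : ST 0 d α β e₀) :
    Ztr δ (ug δ α β) (um d) := by
  obtain ⟨T, hT⟩ := h
  have h1 : e₀ = T.toRows₂ * d := by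
    rw [pow_zero, Matrix.one_mul] at hT
    have h2 := congrArg toRows₂ hT
    rw [toRows₂_fromRows] at h2
    exact h2
  let X := trc (fun x y => x = y) ℓ₀ ℓ₁ T.toRows₂
  have hX : Sup ℓ₀ ℓ₁ (fun x y => x = y) X := sup_trc _ _
  have hXd : X * d = e₀ := by
    simp only [X]
    rw [← trc_mul_vert _ D.sd, ← h1, trc_of_sup D.s0]
  have h2 : e₁ = d * X * e₁ := by
    have h3 := k1.mat (e₁ - d * X) (by
      rw [Matrix.sub_mul, D.ed, Matrix.mul_assoc, hXd, D.de, sub_self])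
    rw [Matrix.sub_mul, D.i1, sub_eq_zero] at h3
    exact h3
  have h3 : β = d * (X * β) := by
    have h4 : d * X * e₁ * β = d * (X * β) := by
      rw [Matrix.mul_assoc _ e₁, D.eb, Matrix.mul_assoc]
    rw [← h4, ← h2, D.eb]
  have h4 : X * β + δ • adj (X * β) = 0 := by
    have h5 : X * β = X * (β * adj d) * adj X := by
      have h6 : X * (β * adj d) * adj X = X * (β * adj e₀) := by
        rw [← hXd, adj_mul]; simp only [Matrix.mul_assoc]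
      rw [h6, D.be]
    have h6 : adj (X * β) = X * adj (β * adj d) * adj X := by
      conv_lhs => rw [h5]
      simp only [adj_mul, adj_adj, Matrix.mul_assoc]
    rw [h6]
    conv_lhs => rw [h5]
    rw [← Matrix.smul_mul, ← Matrix.mul_smul, ← Matrix.add_mul, ← Matrix.mul_add, D.kb,
      Matrix.mul_zero, Matrix.zero_mul]
  obtain ⟨χ, hχ⟩ := even_of_skew hno hδ (S.irr b) (ℓ := ℓ₀) _ h4
    (hX.mul (S.inv b) (fun x y z h h' => eq_trans_rel x y z h h') D.sb)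
  have h5 := fe_mod (δ := δ) d α β (-χ)
  have h6 : β + d * (-χ - δ • adj (-χ)) = 0 := by
    have h7 : -χ - δ • adj (-χ) = -(X * β) := by
      rw [hχ, adj_neg, smul_neg]; abel
    rw [h7, Matrix.mul_neg, ← h3, add_neg_cancel]
  rw [h6] at h5
  obtain ⟨θ, hθ⟩ := D.even hno hδ
  exact Ztr.of_FE h5 (fe_zero hδ d α θ hθ)

end two

section phases

theorem phase_two {S : Sys Γ Λ} (hno : ∀ g : Γ, g = g⁻¹ → g = 1) {δ : ℤ} (hδ : δ * δ = 1) (m : ℕ) :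
    ∀ (b : Bool) {κ₁ κ₀ : Type} [Fintype κ₁] [DecidableEq κ₁] [Fintype κ₀] [DecidableEq κ₀]
      (ℓ₁ : κ₁ → Λ) (ℓ₀ : κ₀ → Λ) (d : Matrix κ₁ κ₀ (MonoidAlgebra ℤ Γ))
      (α : Matrix κ₀ κ₁ (MonoidAlgebra ℤ Γ)) (β : Matrix κ₁ κ₀ (MonoidAlgebra ℤ Γ))
      (e₁ : Matrix κ₁ κ₁ (MonoidAlgebra ℤ Γ)) (e₀ : Matrix κ₀ κ₀ (MonoidAlgebra ℤ Γ))
      (_ : OD S b δ ℓ₁ ℓ₀ d α β e₁ e₀) (_ : KO d e₁) (_ : KO (adj d) (adj e₀))
      (_ : ST m d α β e₀), Ztr δ (ug δ α β) (um d) := by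
  induction m with
  | zero =>
    intro b κ₁ κ₀ _ _ _ _ ℓ₁ ℓ₀ d α β e₁ e₀ D k1 k0 h
    exact D.term hno hδ k1 h
  | succ m ih =>
    intro b κ₁ κ₀ _ _ _ _ ℓ₁ ℓ₀ d α β e₁ e₀ D k1 k0 h
    refine Ztr.of_FE (fe_swap hδ d α β) ?_
    obtain ⟨M, i1, i2, ℓM, d', α', β', e, hOD, hFE, h1, h2, h3⟩ := step_two hno hδ D.swap k0
      (by rw [adj_adj, adj_adj]; exact k1) (st_swap_hs D h)
    exact Ztr.of_FE hFE (ih (!b) ℓM ℓ₁ d' α' β' e (adj e₁) hOD h1 h2 h3)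

theorem phase_one {S : Sys Γ Λ} (hno : ∀ g : Γ, g = g⁻¹ → g = 1) {δ : ℤ} (hδ : δ * δ = 1) (n : ℕ) :
    ∀ (b : Bool) {κ₁ κ₀ : Type} [Fintype κ₁] [DecidableEq κ₁] [Fintype κ₀] [DecidableEq κ₀]
      (ℓ₁ : κ₁ → Λ) (ℓ₀ : κ₀ → Λ) (d : Matrix κ₁ κ₀ (MonoidAlgebra ℤ Γ))
      (α : Matrix κ₀ κ₁ (MonoidAlgebra ℤ Γ)) (β : Matrix κ₁ κ₀ (MonoidAlgebra ℤ Γ))
      (e₁ : Matrix κ₁ κ₁ (MonoidAlgebra ℤ Γ)) (e₀ : Matrix κ₀ κ₀ (MonoidAlgebra ℤ Γ))
      (_ : OD S b δ ℓ₁ ℓ₀ d α β e₁ e₀) (_ : HK n d α β e₁) (m : ℕ)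
      (_ : ST m d α β e₀), Ztr δ (ug δ α β) (um d) := by
  induction n with
  | zero =>
    intro b κ₁ κ₀ _ _ _ _ ℓ₁ ℓ₀ d α β e₁ e₀ D hk m h
    have k1 : KO d e₁ := by
      intro v hv
      have h1 := hk (Sum.elim v 0) (by
        ext1 j
        rcases j with j | j
        · simp [um, Matrix.vecMul, dotProduct]
        · have h2 := congrFun hv j
          simp only [Matrix.vecMul, dotProduct, Pi.zero_apply] at h2
          simp [um, Matrix.vecMul, dotProduct, h2])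
      rw [pow_zero, Matrix.one_mul, sumElim_vecMul_fromRows, Matrix.zero_vecMul, add_zero] at h1
      exact h1
    refine Ztr.of_FE (fe_swap hδ d α β) ?_
    obtain ⟨M, i1, i2, ℓM, d', α', β', e, hOD, hFE, h1, h2, h3⟩ := step_one hno hδ D.swap
      (ko_swap D.ae D.ka k1)
    refine Ztr.of_FE hFE (phase_two hno hδ (m + 1) (!b) ℓM ℓ₁ d' α' β' e (adj e₁) hOD ?_
      (h3 (by rw [adj_adj, adj_adj]; exact k1)) (h2 _ (st_swap_up hδ D h)))
    intro v hv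
    have h4 := h1 (Sum.elim v 0) (by
      ext1 j
      rcases j with j | j
      · simp [um, Matrix.vecMul, dotProduct]
      · have h2 := congrFun hv j
        simp only [Matrix.vecMul, dotProduct, Pi.zero_apply] at h2
        simp [um, Matrix.vecMul, dotProduct, h2])
    rw [pow_zero, Matrix.one_mul, sumElim_vecMul_fromRows, Matrix.zero_vecMul, add_zero] at h4
    exact h4
  | succ n ih =>
    intro b κ₁ κ₀ _ _ _ _ ℓ₁ ℓ₀ d α β e₁ e₀ D hk m h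
    refine Ztr.of_FE (fe_swap hδ d α β) ?_
    obtain ⟨M, i1, i2, ℓM, d', α', β', e, hOD, hFE, h1, h2, h3⟩ := step_one hno hδ D.swap
      (hk_swap D.ae hk)
    exact Ztr.of_FE hFE (ih (!b) ℓM ℓ₁ d' α' β' e (adj e₁) hOD h1 (m + 1)
      (h2 _ (st_swap_up hδ D h)))

end phases

end Pool.Agent.T9h15.UO
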