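import Pool.Agent.T9h15.UO.Rc
import Pool.Agent.T9h15.UO.Fm

set_option autoImplicit false
set_option linter.unusedSectionVars false
set_option linter.unusedSimpArgs false

/-! The basic operation on unilateral formations. -/

namespace Pool.Agent.T9h15.UO

open Matrix TH6.LF TH57.Thr Pool.Agent.T9h15.UN

variable {Γ : Type} [Group Γ] {Λ : Type} [MulAction Γ Λ]

section od

variable {κ₁ κ₀ : Type} [Fintype κ₁] [DecidableEq κ₁] [Fintype κ₀] [DecidableEq κ₀]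

/-- the data of a unilateral formation -/
structure OD (S : Sys Γ Λ) (b : Bool) (δ : ℤ) (ℓ₁ : κ₁ → Λ) (ℓ₀ : κ₀ → Λ)
    (d : Matrix κ₁ κ₀ (MonoidAlgebra ℤ Γ)) (α : Matrix κ₀ κ₁ (MonoidAlgebra ℤ Γ))
    (β : Matrix κ₁ κ₀ (MonoidAlgebra ℤ Γ)) (e₁ : Matrix κ₁ κ₁ (MonoidAlgebra ℤ Γ))
    (e₀ : Matrix κ₀ κ₀ (MonoidAlgebra ℤ Γ)) : Prop where
  nrm : Nrm Γ (Sum.elim ℓ₁ ℓ₀)
  skq : SKQ Γ (Sum.elim ℓ₁ ℓ₀)
  sd : Sup ℓ₁ ℓ₀ (fun x y => x = y) d
  sa : Sup ℓ₀ ℓ₁ (S.R (!b)) α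
  sb : Sup ℓ₁ ℓ₀ (S.R b) β
  s1 : Sup ℓ₁ ℓ₁ (fun x y => x = y) e₁
  s0 : Sup ℓ₀ ℓ₀ (fun x y => x = y) e₀
  i1 : e₁ * e₁ = e₁
  i0 : e₀ * e₀ = e₀
  ed : e₁ * d = d
  de : d * e₀ = d
  ea : adj e₀ * α = α
  ae : α * e₁ = α
  eb : e₁ * β = β
  be : β * adj e₀ = β
  ka : α * d + δ • adj (α * d) = 0
  kb : β * adj d + δ • adj (β * adj d) = 0

variable {S : Sys Γ Λ} {b : Bool} {δ : ℤ} {ℓ₁ : κ₁ → Λ} {ℓ₀ : κ₀ → Λ}
    {d : Matrix κ₁ κ₀ (MonoidAlgebra ℤ Γ)} {α : Matrix κ₀ κ₁ (MonoidAlgebra ℤ Γ)}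
    {β : Matrix κ₁ κ₀ (MonoidAlgebra ℤ Γ)} {e₁ : Matrix κ₁ κ₁ (MonoidAlgebra ℤ Γ)}
    {e₀ : Matrix κ₀ κ₀ (MonoidAlgebra ℤ Γ)}

theorem OD.swap (D : OD S b δ ℓ₁ ℓ₀ d α β e₁ e₀) :
    OD S (!b) δ ℓ₀ ℓ₁ (adj d) β α (adj e₀) (adj e₁) where
  nrm := nrm_sub D.nrm (by
    rintro (j | j)
    · exact ⟨Sum.inr j, rfl⟩
    · exact ⟨Sum.inl j, rfl⟩)
  skq := D.skq.of_sub (by
    rintro (j | j)
    · exact ⟨Sum.inr j, rfl⟩
    · exact ⟨Sum.inl j, rfl⟩)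
  sd := D.sd.adj inv_eq (fun x y h => h.symm)
  sa := by rw [Bool.not_not]; exact D.sb
  sb := D.sa
  s1 := D.s0.adj inv_eq (fun x y h => h.symm)
  s0 := D.s1.adj inv_eq (fun x y h => h.symm)
  i1 := by rw [← adj_mul, D.i0]
  i0 := by rw [← adj_mul, D.i1]
  ed := by rw [← adj_mul, D.de]
  de := by rw [← adj_mul, D.ed]
  ea := by rw [adj_adj, D.eb]
  ae := D.be
  eb := D.ea
  be := by rw [adj_adj, D.ae]
  ka := D.kb
  kb := by rw [adj_adj]; exact D.ka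

theorem OD.even (hno : ∀ g : Γ, g = g⁻¹ → g = 1) (hδ : δ * δ = 1)
    (D : OD S b δ ℓ₁ ℓ₀ d α β e₁ e₀) :
    ∃ θ : Matrix κ₀ κ₀ (MonoidAlgebra ℤ Γ), α * d = θ - δ • adj θ := by
  refine even_of_skew hno hδ (S.irr (!b)) (ℓ := ℓ₀) _ D.ka ?_
  exact D.sa.mul inv_eq (fun x y z h h' => by rw [← h']; exact h) D.sd

theorem OD.even' (hno : ∀ g : Γ, g = g⁻¹ → g = 1) (hδ : δ * δ = 1)
    (D : OD S b δ ℓ₁ ℓ₀ d α β e₁ e₀) :
    ∃ θ : Matrix κ₁ κ₁ (MonoidAlgebra ℤ Γ), β * adj d = θ - δ • adj θ :=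
  OD.even hno hδ D.swap

/-- the basic operation -/
theorem OD.fop (hno : ∀ g : Γ, g = g⁻¹ → g = 1) (hδ : δ * δ = 1)
    (D : OD S b δ ℓ₁ ℓ₀ d α β e₁ e₀) {Q : Type} [Fintype Q] [DecidableEq Q] (ℓQ : Q → Λ)
    (hQ : ∀ q, ∃ k, ℓQ q = ℓ₀ k) (P A : Matrix Q κ₀ (MonoidAlgebra ℤ Γ))
    (hP : Sup ℓQ ℓ₀ (fun x y => x = y) P) (hA : Sup ℓQ ℓ₀ (S.R b) A) (hPe : P * e₀ = P)
    (hAe : A * adj e₀ = A) (h1 : P * adj β + δ • (A * adj d) = 0)
    (h2 : A * adj P + δ • (P * adj A) = 0) :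
    ∃ (M : Type) (_ : Fintype M) (_ : DecidableEq M) (ℓM : M → Λ)
      (Y : Matrix κ₁ M (MonoidAlgebra ℤ Γ)) (YQ : Matrix Q M (MonoidAlgebra ℤ Γ))
      (d' β' : Matrix M κ₀ (MonoidAlgebra ℤ Γ)) (e : Matrix M M (MonoidAlgebra ℤ Γ)) (q : ℤ)
      (S₁ : Matrix M κ₁ (MonoidAlgebra ℤ Γ)) (S₂ : Matrix M Q (MonoidAlgebra ℤ Γ)),
      OD S b δ ℓM ℓ₀ d' (α * Y) β' e e₀ ∧
      FE δ (ug δ α β) (um d) (ug δ (α * Y) β') (um d') ∧
      Sup ℓM ℓ₁ (fun x y => x = y) S₁ ∧ Sup ℓM ℓQ (fun x y => x = y) S₂ ∧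
      d = Y * d' ∧ β = Y * β' ∧ P = YQ * d' ∧ A = YQ * β' ∧ Y * e = Y ∧ YQ * e = YQ ∧
      (∀ y v₁ v₂, At ℓ₁ y v₁ → At ℓQ y v₂ → v₁ ᵥ* d + v₂ ᵥ* P = 0 → v₁ ᵥ* β + v₂ ᵥ* A = 0 →
        v₁ ᵥ* Y + v₂ ᵥ* YQ = 0) ∧ q ≠ 0 ∧ S₁ * Y + S₂ * YQ = q • e := by
  have hsub : ∀ j : κ₁ ⊕ Q, ∃ k, Sum.elim ℓ₁ ℓQ j = Sum.elim ℓ₁ ℓ₀ k := by
    rintro (j | j)
    · exact ⟨Sum.inl j, rfl⟩
    · obtain ⟨k, hk⟩ := hQ j
      exact ⟨Sum.inr k, hk⟩
  let Dt : Matrix (κ₁ ⊕ Q) κ₀ (MonoidAlgebra ℤ Γ) := fromRows d P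
  let Bt : Matrix (κ₁ ⊕ Q) κ₀ (MonoidAlgebra ℤ Γ) := fromRows β A
  have hDt : Sup (Sum.elim ℓ₁ ℓQ) ℓ₀ (fun x y => x = y) Dt := by
    rintro (k | k) l g hg
    · exact D.sd k l g hg
    · exact hP k l g hg
  have hBt : Sup (Sum.elim ℓ₁ ℓQ) ℓ₀ (S.R b) Bt := by
    rintro (k | k) l g hg
    · exact D.sb k l g hg
    · exact hA k l g hg
  obtain ⟨M, i1, i2, ℓM, Y, G', e, q, T, hl, hY, he, hT, hG, heG, hYe, hee, hker, hinj, hq, hTY⟩ :=
    rfactor (nrm_sub D.nrm hsub) (D.skq.of_sub hsub) (fromCols Dt Bt)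
  let d' : Matrix M κ₀ (MonoidAlgebra ℤ Γ) := trc (fun x y => x = y) ℓM ℓ₀ G'.toCols₁
  let β' : Matrix M κ₀ (MonoidAlgebra ℤ Γ) := trc (S.R b) ℓM ℓ₀ G'.toCols₂
  have hG12 : Dt = Y * G'.toCols₁ ∧ Bt = Y * G'.toCols₂ := by
    have h3 : fromCols Dt Bt = fromCols (Y * G'.toCols₁) (Y * G'.toCols₂) := by
      rw [hG, ← mul_fromCols, fromCols_toCols]
    exact (fromCols_ext_iff _ _ _ _).mp h3
  have heG12 : e * G'.toCols₁ = G'.toCols₁ ∧ e * G'.toCols₂ = G'.toCols₂ := by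
    have h3 : fromCols (e * G'.toCols₁) (e * G'.toCols₂) = fromCols G'.toCols₁ G'.toCols₂ := by
      rw [← mul_fromCols, fromCols_toCols, heG]
    exact (fromCols_ext_iff _ _ _ _).mp h3
  have hd' : Dt = Y * d' := by
    have h3 : trc (fun x y => x = y) (Sum.elim ℓ₁ ℓQ) ℓ₀ (Y * G'.toCols₁) = Y * d' :=
      trc_mul_left inv_eq hY _
    rw [← h3, ← hG12.1, trc_of_sup hDt]
  have hβ' : Bt = Y * β' := by
    have h3 : trc (S.R b) (Sum.elim ℓ₁ ℓQ) ℓ₀ (Y * G'.toCols₂) = Y * β' :=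
      trc_mul_left (S.inv b) hY _
    rw [← h3, ← hG12.2, trc_of_sup hBt]
  have hed : e * d' = d' := by
    have h3 : trc (fun x y => x = y) ℓM ℓ₀ (e * G'.toCols₁) = e * d' := trc_mul_left inv_eq he _
    rw [← h3, heG12.1]
  have heβ : e * β' = β' := by
    have h3 : trc (S.R b) ℓM ℓ₀ (e * G'.toCols₂) = e * β' := trc_mul_left (S.inv b) he _
    rw [← h3, heG12.2]
  have hYr : Y = fromRows Y.toRows₁ Y.toRows₂ := (fromRows_toRows Y).symm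
  have hsplit : ∀ {ι : Type} (W : Matrix M ι (MonoidAlgebra ℤ Γ)),
      Y * W = fromRows (Y.toRows₁ * W) (Y.toRows₂ * W) := by
    intro ι W
    conv_lhs => rw [hYr]
    rw [fromRows_mul]
  have hd2 : d = Y.toRows₁ * d' ∧ P = Y.toRows₂ * d' := by
    have h3 : fromRows d P = fromRows (Y.toRows₁ * d') (Y.toRows₂ * d') := by
      rw [← hsplit]; exact hd'
    exact (fromRows_ext_iff _ _ _ _).mp h3
  have hβ2 : β = Y.toRows₁ * β' ∧ A = Y.toRows₂ * β' := by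
    have h3 : fromRows β A = fromRows (Y.toRows₁ * β') (Y.toRows₂ * β') := by
      rw [← hsplit]; exact hβ'
    exact (fromRows_ext_iff _ _ _ _).mp h3
  have hYe2 : Y.toRows₁ * e = Y.toRows₁ ∧ Y.toRows₂ * e = Y.toRows₂ := by
    have h3 : fromRows (Y.toRows₁ * e) (Y.toRows₂ * e) = fromRows Y.toRows₁ Y.toRows₂ := by
      rw [← hsplit, hYe, ← hYr]
    exact (fromRows_ext_iff _ _ _ _).mp h3
  have hY1 : Sup ℓ₁ ℓM (fun x y => x = y) Y.toRows₁ := fun k l g hg => hY (Sum.inl k) l g hg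
  -- the new quadratic structure
  have hkb : β' * adj d' + δ • adj (β' * adj d') = 0 := by
    have h3 : Bt * adj Dt + δ • adj (Bt * adj Dt) = 0 := by
      have h4 : adj Dt = fromCols (adj d) (adj P) := by
        ext1 i j
        rcases j with j | j <;> rfl
      have h5 : Bt * adj Dt = fromBlocks (β * adj d) (β * adj P) (A * adj d) (A * adj P) := by
        rw [h4]; exact fromRows_mul_fromCols _ _ _ _
      rw [h5, adj_fromBlocks, fromBlocks_smul, fromBlocks_add, ← fromBlocks_zero]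
      congr 1
      · exact D.kb
      · have h6 := congrArg adj h1
        rw [adj_add, adj_zsmul, adj_zero, adj_mul, adj_adj] at h6
        exact h6
      · rw [adj_mul, adj_adj]
        have h6 := congrArg (fun X => δ • X) h1
        simp only [smul_add, smul_smul, hδ, one_smul, smul_zero] at h6
        rw [add_comm]
        exact h6
      · rw [adj_mul, adj_adj]; exact h2
    have h4 : Bt * adj Dt = Y * (β' * adj d') * adj Y := by
      rw [hd', hβ', adj_mul]; simp only [Matrix.mul_assoc]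
    rw [h4] at h3
    have h5 : Y * ((β' * adj d' + δ • adj (β' * adj d')) * adj Y) = 0 := by
      rw [← h3]
      simp only [adj_mul, adj_adj, Matrix.add_mul, Matrix.mul_add, Matrix.smul_mul,
        Matrix.mul_smul, Matrix.mul_assoc]
    have h6 := hinj _ h5
    have h7 : e * (β' * adj d' + δ • adj (β' * adj d'))
        = β' * adj d' + δ • adj (β' * adj d') := by
      rw [Matrix.mul_add, Matrix.mul_smul, adj_mul, adj_adj, ← Matrix.mul_assoc, heβ,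
        ← Matrix.mul_assoc, hed]
    rw [← Matrix.mul_assoc, h7] at h6
    have h8 := congrArg adj h6
    rw [adj_mul, adj_adj, adj_zero] at h8
    have h9 := hinj _ h8
    have h10 := congrArg adj h9
    rw [adj_mul, adj_adj, adj_zero, Matrix.add_mul, Matrix.smul_mul] at h10
    have h11 : β' * adj d' * adj e = β' * adj d' := by
      rw [Matrix.mul_assoc, ← adj_mul, hed]
    have h12 : adj (β' * adj d') * adj e = adj (β' * adj d') := by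
      rw [← adj_mul, ← Matrix.mul_assoc, heβ]
    rwa [h11, h12] at h10
  have hOD : OD S b δ ℓM ℓ₀ d' (α * Y.toRows₁) β' e e₀ := by
    have hsubM : ∀ j : M ⊕ κ₀, ∃ k, Sum.elim ℓM ℓ₀ j = Sum.elim ℓ₁ ℓ₀ k := by
      rintro (j | j)
      · obtain ⟨k, hk⟩ := hl j
        obtain ⟨k', hk'⟩ := hsub k
        exact ⟨k', hk.trans hk'⟩
      · exact ⟨Sum.inr j, rfl⟩
    have hinj' : ∀ {ι : Type} (W W' : Matrix M ι (MonoidAlgebra ℤ Γ)), e * W = W → e * W' = W' →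
        Y * W = Y * W' → W = W' := by
      intro ι W W' h3 h4 h5
      have h6 := hinj (W - W') (by rw [Matrix.mul_sub, h5, sub_self])
      rw [Matrix.mul_sub, h3, h4, sub_eq_zero] at h6
      exact h6
    refine
      { nrm := nrm_sub D.nrm hsubM
        skq := D.skq.of_sub hsubM
        sd := sup_trc _ _
        sa := D.sa.mul inv_eq (fun x y z h h' => by rw [← h']; exact h) hY1
        sb := sup_trc _ _
        s1 := he
        s0 := D.s0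
        i1 := hee
        i0 := D.i0
        ed := hed
        de := ?_
        ea := by rw [← Matrix.mul_assoc, D.ea]
        ae := by rw [Matrix.mul_assoc, hYe2.1]
        eb := heβ
        be := ?_
        ka := by rw [Matrix.mul_assoc, ← hd2.1]; exact D.ka
        kb := hkb }
    · refine hinj' _ _ (by rw [← Matrix.mul_assoc, hed]) hed ?_
      rw [← Matrix.mul_assoc, ← hd']
      change fromRows d P * e₀ = fromRows d P
      rw [fromRows_mul, D.de, hPe]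
    · refine hinj' _ _ (by rw [← Matrix.mul_assoc, heβ]) heβ ?_
      rw [← Matrix.mul_assoc, ← hβ']
      change fromRows β A * adj e₀ = fromRows β A
      rw [fromRows_mul, D.be, hAe]
  obtain ⟨θ, hθ⟩ := D.even hno hδ
  obtain ⟨θ', hθ'⟩ := hOD.even' hno hδ
  refine ⟨M, i1, i2, ℓM, Y.toRows₁, Y.toRows₂, d', β', e, q, T.toCols₁, T.toCols₂, hOD, ?_,
    fun k l g hg => hT k (Sum.inl l) g hg, fun k l g hg => hT k (Sum.inr l) g hg,
    hd2.1, hβ2.1, hd2.2, hβ2.2, hYe2.1, hYe2.2, ?_, hq, ?_⟩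
  · have h3 := fe_exchange hδ Y.toRows₁ d' α β' θ (by rw [← hd2.1]; exact hθ) θ' hθ'
    rwa [← hd2.1, ← hβ2.1] at h3
  · intro y v₁ v₂ hv₁ hv₂ h3 h4
    have h5 := hker y (Sum.elim v₁ v₂) (by
      rintro (k | k) g hg
      · exact hv₁ k g hg
      · exact hv₂ k g hg) (by
      rw [vecMul_fromCols]
      have e1 : Sum.elim v₁ v₂ ᵥ* Dt = 0 := by
        rw [← h3]; exact sumElim_vecMul_fromRows _ _ _ _
      have e2 : Sum.elim v₁ v₂ ᵥ* Bt = 0 := by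
        rw [← h4]; exact sumElim_vecMul_fromRows _ _ _ _
      rw [e1, e2]
      ext1 j
      rcases j with j | j <;> rfl)
    rw [hYr, sumElim_vecMul_fromRows] at h5
    exact h5
  · rw [← fromCols_mul_fromRows, fromCols_toCols, fromRows_toRows, hTY]

end od

end Pool.Agent.T9h15.UO
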