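import Pool.Agent.T9h15.UO.Ph

set_option autoImplicit false
set_option linter.unusedSectionVars false
set_option linter.unusedSimpArgs false

/-! The second phase: factoring the words through the differential. -/

namespace Pool.Agent.T9h15.UO

open Matrix TH6.LF TH57.Thr Pool.Agent.T9h15.UN

variable {Γ : Type} [Group Γ] {Λ : Type} [MulAction Γ Λ]

theorem part_eq_prt {κ : Type} [Fintype κ] (ℓ : κ → Λ) (y : Λ) (v : κ → MonoidAlgebra ℤ Γ) :
    part ℓ y v = prt ℓ (fun x => x = y) v := by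
  classical
  ext k g
  rw [coeff_part, coeff_prt]

theorem pair_coeff {I J κ : Type} [Fintype κ] (X : Matrix I κ (MonoidAlgebra ℤ Γ))
    (Z : Matrix J κ (MonoidAlgebra ℤ Γ)) (i : I) (j : J) (g : Γ) :
    ((X * adj Z) i j).coeff g = ∑ k, ∑ᶠ a, (X i k).coeff a * (Z j k).coeff (g⁻¹ * a) := by
  rw [Matrix.mul_apply, coeff_sum']
  refine Finset.sum_congr rfl fun k _ => ?_
  rw [coeff_mul_finsum]
  refine finsum_congr fun a => ?_
  rw [coeff_adj]
  congr 2
  group

theorem sup_Dm {I : Type} [Fintype I] [DecidableEq I] {ℓ ℓ' : I → Λ} (u : I → Γ)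
    (h : ∀ i, ℓ i = u i • ℓ' i) : Sup ℓ ℓ' (fun x y => x = y) (Dm u) := by
  classical
  intro i j g hg
  unfold Dm at hg
  rw [Matrix.diagonal_apply] at hg
  split_ifs at hg with h1
  · subst h1
    rw [MonoidAlgebra.coeff_single, Finsupp.single_apply] at hg
    have h2 : u i = g := by
      by_contra h3
      exact hg (if_neg h3)
    rw [← h2]
    exact h i
  · exact absurd rfl hg

section parts

variable {κ₁ κ₀ : Type} [Fintype κ₁] [DecidableEq κ₁] [Fintype κ₀] [DecidableEq κ₀]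
  {S : Sys Γ Λ} {b : Bool} {δ : ℤ} {ℓ₁ : κ₁ → Λ} {ℓ₀ : κ₀ → Λ}
    {d : Matrix κ₁ κ₀ (MonoidAlgebra ℤ Γ)}
    {β : Matrix κ₁ κ₀ (MonoidAlgebra ℤ Γ)}
    {e₀ : Matrix κ₀ κ₀ (MonoidAlgebra ℤ Γ)}

theorem parts (hδ : δ * δ = 1) {J : Type} [Fintype J] [DecidableEq J] {ℓJ : J → Λ}
    (W T : Matrix J κ₀ (MonoidAlgebra ℤ Γ)) (n : ℕ)
    (hW : Sup ℓJ ℓ₀ (Wk S.R (!b) n) W) (hT : Sup ℓJ ℓ₀ (Wk S.R b (n + 1)) T)
    (hWT : W * adj β = T * adj d) (sd : Sup ℓ₁ ℓ₀ (fun x y => x = y) d)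
    (sb : Sup ℓ₁ ℓ₀ (S.R b) β) (s0 : Sup ℓ₀ ℓ₀ (fun x y => x = y) e₀)
    (hWe : W * e₀ = W) (hTe : T * adj e₀ = T) (hΩ : T * adj W + δ • (W * adj T) = 0) :
    ∃ (Q : Type) (_ : Fintype Q) (_ : DecidableEq Q) (ℓQ : Q → Λ)
      (P A : Matrix Q κ₀ (MonoidAlgebra ℤ Γ)) (C : Matrix J Q (MonoidAlgebra ℤ Γ)),
      (∀ q, ∃ k, ℓQ q = ℓ₀ k) ∧ Sup ℓQ ℓ₀ (fun x y => x = y) P ∧ Sup ℓQ ℓ₀ (S.R b) A ∧
      P * e₀ = P ∧ A * adj e₀ = A ∧ P * adj β + δ • (A * adj d) = 0 ∧
      A * adj P + δ • (P * adj A) = 0 ∧ W = C * P := by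
  classical
  let Q : Type := Σ i : J, {y // y ∈ pts ℓ₀ (W i)}
  have hQ : ∀ q : Q, ∃ k g, (W q.1 k).coeff g ≠ 0 ∧ g • ℓ₀ k = q.2.1 :=
    fun q => (mem_pts ℓ₀ (W q.1) q.2.1).mp q.2.2
  choose kq gq hq1 hq2 using hQ
  let yQ : Q → Λ := fun q => q.2.1
  let ℓQ : Q → Λ := fun q => ℓ₀ (kq q)
  let PP : Matrix Q κ₀ (MonoidAlgebra ℤ Γ) := fun q => prt ℓ₀ (fun x => x = yQ q) (W q.1)
  let AA : Matrix Q κ₀ (MonoidAlgebra ℤ Γ) := fun q => prt ℓ₀ (fun z => S.R b (yQ q) z) (T q.1)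
  have hwk : ∀ q : Q, Wk S.R (!b) n (ℓJ q.1) (yQ q) := by
    intro q
    have h1 := hW _ _ _ (hq1 q)
    rwa [hq2 q] at h1
  have hPc : ∀ q k g, (PP q k).coeff g = if g • ℓ₀ k = yQ q then (W q.1 k).coeff g else 0 :=
    fun q k g => coeff_prt _ _ _ _ _
  have hAc : ∀ q k g, (AA q k).coeff g = if S.R b (yQ q) (g • ℓ₀ k) then (T q.1 k).coeff g else 0 :=
    fun q k g => coeff_prt _ _ _ _ _
  have hPs : Sup yQ ℓ₀ (fun x y => x = y) PP := by
    intro q k g hg
    rw [hPc] at hg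
    by_contra h
    exact hg (if_neg fun h' => h h'.symm)
  have hAs : Sup yQ ℓ₀ (S.R b) AA := by
    intro q k g hg
    rw [hAc] at hg
    by_contra h
    exact hg (if_neg h)
  have hPe : PP * e₀ = PP := by
    refine funext fun q => ?_
    change PP q ᵥ* e₀ = PP q
    simp only [PP]
    rw [← prt_vecMul _ _ s0]
    congr 1
    exact congrFun hWe q.1
  have hAe : AA * adj e₀ = AA := by
    refine funext fun q => ?_
    change AA q ᵥ* adj e₀ = AA q
    simp only [AA]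
    rw [← prt_vecMul _ _ (s0.adj inv_eq (fun x y h => h.symm))]
    congr 1
    exact congrFun hTe q.1
  have hPA : PP * adj β = AA * adj d := by
    refine funext fun q => ?_
    change PP q ᵥ* adj β = AA q ᵥ* adj d
    simp only [PP, AA]
    rw [← prt_vecMul _ _ (sd.adj inv_eq (fun x y h => h.symm)),
      ← prt_vecMul_rel (S.inv b) (sb.adj (S.inv b) (S.symm b)) (W q.1) (yQ q)]
    · congr 1
      exact congrFun hWT q.1
    · intro y₁ hy₁ z h1 h2
      obtain ⟨k, g, h3, rfl⟩ := (mem_pts ℓ₀ (W q.1) y₁).mp hy₁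
      exact S.nc b n (ℓJ q.1) _ _ z (hW _ _ _ h3) (hwk q) h1 h2
  have hskew : AA * adj PP + δ • (PP * adj AA) = 0 := by
    ext q q' g
    have h0 := congrArg (fun X : Matrix J J (MonoidAlgebra ℤ Γ) => (X q.1 q'.1).coeff g) hΩ
    simp only [Matrix.add_apply, Matrix.smul_apply, coeff_add', coeff_zsmul'] at h0 ⊢
    by_cases hc : S.R b (yQ q) (g • yQ q')
    · refine Eq.trans ?_ h0
      rw [pair_coeff, pair_coeff, pair_coeff, pair_coeff]
      have hwq : Wk S.R (!b) n (g • ℓJ q'.1) (g • yQ q') := wk_inv S n _ g _ _ (hwk q')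
      congr 1
      · refine Finset.sum_congr rfl fun k _ => finsum_congr fun a => ?_
        rw [hAc, hPc]
        by_cases h1 : (T q.1 k).coeff a = 0
        · rw [h1]; simp
        by_cases h2 : (W q'.1 k).coeff (g⁻¹ * a) = 0
        · rw [h2]; simp
        have h3 := hT _ _ _ h1
        have h4 := wk_inv S n _ g _ _ (hW _ _ _ h2)
        rw [smul_smul, mul_inv_cancel_left] at h4
        have h5 := mu S n b (n + 1) (ℓJ q.1) (g • ℓJ q'.1) (a • ℓ₀ k) (g • yQ q') h3 h4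
          ⟨yQ q, hwk q, hc⟩ hwq
        rw [if_pos (by rw [h5]; exact hc), if_pos (by rw [mul_smul, h5, inv_smul_smul])]
      · refine congrArg (fun x => δ * x) ?_
        refine Finset.sum_congr rfl fun k _ => finsum_congr fun a => ?_
        rw [hAc, hPc]
        by_cases h1 : (W q.1 k).coeff a = 0
        · rw [h1]; simp
        by_cases h2 : (T q'.1 k).coeff (g⁻¹ * a) = 0
        · rw [h2]; simp
        have h3 := hW _ _ _ h1
        have h4 := wk_inv S (n + 1) _ g _ _ (hT _ _ _ h2)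
        rw [smul_smul, mul_inv_cancel_left] at h4
        have h5 := mu S (n + 1) (!b) n (ℓJ q.1) (g • ℓJ q'.1) (a • ℓ₀ k) (yQ q) h3
          (by rwa [Bool.not_not]) (hwk q)
          (by rw [Bool.not_not]; exact ⟨g • yQ q', hwq, S.symm _ _ _ hc⟩)
        rw [if_pos h5, if_pos]
        rw [mul_smul, h5, ← (S.inv b).iff g, smul_inv_smul]
        exact S.symm _ _ _ hc
    · rw [pair_coeff, pair_coeff]
      have e1 : ∑ k, ∑ᶠ a, (AA q k).coeff a * (PP q' k).coeff (g⁻¹ * a) = 0 := by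
        refine Finset.sum_eq_zero fun k _ => ?_
        rw [← finsum_zero (α := Γ)]
        refine finsum_congr fun a => ?_
        rw [hAc, hPc]
        split_ifs with h1 h2
        · exfalso
          apply hc
          rw [mul_smul, inv_smul_eq_iff] at h2
          rwa [← h2]
        · rw [mul_zero]
        · rw [zero_mul]
        · rw [zero_mul]
      have e2 : ∑ k, ∑ᶠ a, (PP q k).coeff a * (AA q' k).coeff (g⁻¹ * a) = 0 := by
        refine Finset.sum_eq_zero fun k _ => ?_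
        rw [← finsum_zero (α := Γ)]
        refine finsum_congr fun a => ?_
        rw [hAc, hPc]
        split_ifs with h1 h2
        · exfalso
          apply hc
          rw [mul_smul, h1, ← (S.inv b).iff g, smul_inv_smul] at h2
          exact S.symm _ _ _ h2
        · rw [mul_zero]
        · rw [zero_mul]
        · rw [zero_mul]
      rw [e1, e2]; simp
  let CC : Matrix J Q (MonoidAlgebra ℤ Γ) := fun i q => if q.1 = i then 1 else 0
  have hCC : W = CC * PP := by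
    refine funext fun i => ?_
    ext1 k
    rw [Matrix.mul_apply, Fintype.sum_sigma, Finset.sum_eq_single_of_mem i (Finset.mem_univ i)]
    · have h1 := congrFun (sum_part ℓ₀ (W i)) k
      rw [Finset.sum_apply, ← Finset.sum_coe_sort] at h1
      rw [h1]
      refine Finset.sum_congr rfl fun y _ => ?_
      simp only [CC, if_true, one_mul, PP]
      rw [part_eq_prt]
    · intro i' _ hi'
      refine Finset.sum_eq_zero fun y _ => ?_
      simp only [CC]
      rw [if_neg hi', zero_mul]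
  have hDm := Dm_mul_inv (fun q => (gq q)⁻¹)
  have hDs : Sup ℓQ yQ (fun x y => x = y) (Dm fun q => (gq q)⁻¹) := by
    refine sup_Dm _ fun q => ?_
    change ℓ₀ (kq q) = (gq q)⁻¹ • q.2.1
    rw [← hq2 q, inv_smul_smul]
  refine ⟨Q, inferInstance, inferInstance, ℓQ, Dm (fun q => (gq q)⁻¹) * PP,
    -(δ • (Dm (fun q => (gq q)⁻¹) * AA)), CC * adj (Dm (fun q => (gq q)⁻¹)),
    fun q => ⟨kq q, rfl⟩, ?_, ?_, ?_, ?_, ?_, ?_, ?_⟩
  · exact hDs.mul inv_eq (fun x y z h h' => eq_trans_rel x y z h h') hPs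
  · rw [← neg_smul]
    exact (hDs.mul (S.inv b) (fun x y z h h' => eq_trans_rel x y z h h') hAs).zsmul _
  · rw [Matrix.mul_assoc, hPe]
  · rw [Matrix.neg_mul, Matrix.smul_mul, Matrix.mul_assoc, hAe]
  · rw [Matrix.neg_mul, Matrix.smul_mul, smul_neg, smul_smul, hδ, one_smul, Matrix.mul_assoc,
      Matrix.mul_assoc, hPA, add_neg_cancel]
  · have h1 : -(δ • (Dm (fun q => (gq q)⁻¹) * AA)) * adj (Dm (fun q => (gq q)⁻¹) * PP)
        + δ • ((Dm (fun q => (gq q)⁻¹) * PP) * adj (-(δ • (Dm (fun q => (gq q)⁻¹) * AA))))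
        = -(δ • (Dm (fun q => (gq q)⁻¹) * (AA * adj PP + δ • (PP * adj AA))
          * adj (Dm (fun q => (gq q)⁻¹)))) := by
      simp only [adj_mul, adj_neg, adj_zsmul, Matrix.mul_add, Matrix.add_mul, Matrix.mul_smul,
        Matrix.smul_mul, Matrix.mul_assoc, Matrix.neg_mul, Matrix.mul_neg, smul_add, smul_neg,
        smul_smul, neg_add]
    rw [h1, hskew, Matrix.mul_zero, Matrix.zero_mul, smul_zero, neg_zero]
  · rw [Matrix.mul_assoc, ← Matrix.mul_assoc (adj _), hDm.2, Matrix.one_mul]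
    exact hCC

end parts

end Pool.Agent.T9h15.UO
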