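import Pool.Agent.T9h15.UO.Op

set_option autoImplicit false
set_option linter.unusedSectionVars false
set_option linter.unusedSimpArgs false

/-! The first phase: making the underlying complexes injective. -/

namespace Pool.Agent.T9h15.UO

open Matrix TH6.LF TH57.Thr Pool.Agent.T9h15.UN

variable {Γ : Type} [Group Γ] {Λ : Type} [MulAction Γ Λ]

section cc

variable {κ₁ κ₀ : Type} [Fintype κ₁] [DecidableEq κ₁] [Fintype κ₀] [DecidableEq κ₀]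

/-- the composite structure matrix -/
noncomputable def cc (α : Matrix κ₀ κ₁ (MonoidAlgebra ℤ Γ)) (β : Matrix κ₁ κ₀ (MonoidAlgebra ℤ Γ)) :
    Matrix (κ₁ ⊕ κ₀) (κ₁ ⊕ κ₀) (MonoidAlgebra ℤ Γ) := fromBlocks 0 β α 0

/-- a matrix as the upper block of rows -/
noncomputable abbrev rL {κ₁ : Type} (κ₀ : Type) {ι : Type} (X : Matrix κ₁ ι (MonoidAlgebra ℤ Γ)) :
    Matrix (κ₁ ⊕ κ₀) ι (MonoidAlgebra ℤ Γ) := fromRows X 0

/-- a matrix as the lower block of rows -/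
noncomputable abbrev rR (κ₁ : Type) {κ₀ ι : Type} (X : Matrix κ₀ ι (MonoidAlgebra ℤ Γ)) :
    Matrix (κ₁ ⊕ κ₀) ι (MonoidAlgebra ℤ Γ) := fromRows 0 X

/-- the inclusion of the first summand -/
noncomputable abbrev iL (Γ : Type) [Group Γ] (κ₁ κ₀ : Type) [DecidableEq κ₁] :
    Matrix (κ₁ ⊕ κ₀) κ₁ (MonoidAlgebra ℤ Γ) := rL κ₀ 1

/-- the inclusion of the second summand -/
noncomputable abbrev iR (Γ : Type) [Group Γ] (κ₁ κ₀ : Type) [DecidableEq κ₀] :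
    Matrix (κ₁ ⊕ κ₀) κ₀ (MonoidAlgebra ℤ Γ) := rR κ₁ 1

theorem adj_cc (α : Matrix κ₀ κ₁ (MonoidAlgebra ℤ Γ)) (β : Matrix κ₁ κ₀ (MonoidAlgebra ℤ Γ)) :
    adj (cc α β) = cc (adj β) (adj α) := by
  rw [cc, cc, adj_fromBlocks, adj_zero, adj_zero]

theorem cc_inl {ι : Type} (α : Matrix κ₀ κ₁ (MonoidAlgebra ℤ Γ)) (β : Matrix κ₁ κ₀ (MonoidAlgebra ℤ Γ))
    (X : Matrix κ₁ ι (MonoidAlgebra ℤ Γ)) :
    cc α β * rL κ₀ X = rR κ₁ (α * X) := by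
  rw [cc, fromBlocks_mul_fromRows]; simp

theorem cc_inr {ι : Type} (α : Matrix κ₀ κ₁ (MonoidAlgebra ℤ Γ)) (β : Matrix κ₁ κ₀ (MonoidAlgebra ℤ Γ))
    (X : Matrix κ₀ ι (MonoidAlgebra ℤ Γ)) :
    cc α β * rR κ₁ X = rL κ₀ (β * X) := by
  rw [cc, fromBlocks_mul_fromRows]; simp

theorem um_inl {ι : Type} (d : Matrix κ₁ κ₀ (MonoidAlgebra ℤ Γ)) (X : Matrix κ₁ ι (MonoidAlgebra ℤ Γ)) :
    um d * rL κ₀ X = rR κ₁ (adj d * X) := by
  rw [um, fromBlocks_mul_fromRows]; simp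

theorem um_inr {ι : Type} (d : Matrix κ₁ κ₀ (MonoidAlgebra ℤ Γ)) (X : Matrix κ₀ ι (MonoidAlgebra ℤ Γ)) :
    um d * rR κ₁ X = rL κ₀ (d * X) := by
  rw [um, fromBlocks_mul_fromRows]; simp

theorem rows_inl {ι μ : Type} [Fintype ι] (X : Matrix κ₁ ι (MonoidAlgebra ℤ Γ))
    (Y : Matrix ι μ (MonoidAlgebra ℤ Γ)) :
    rL κ₀ X * Y = rL κ₀ (X * Y) := by
  rw [fromRows_mul, Matrix.zero_mul]

theorem rows_inr {ι μ : Type} [Fintype ι] (X : Matrix κ₀ ι (MonoidAlgebra ℤ Γ))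
    (Y : Matrix ι μ (MonoidAlgebra ℤ Γ)) :
    rR κ₁ X * Y = rR κ₁ (X * Y) := by
  rw [fromRows_mul, Matrix.zero_mul]

theorem skew_of {δ : ℤ} (hδ : δ * δ = 1) {I : Type} {L : Matrix I I (MonoidAlgebra ℤ Γ)}
    (h : L + δ • adj L = 0) : adj L = -(δ • L) := by
  have h2 := congrArg (fun X => δ • X) h
  simp only [smul_add, smul_smul, hδ, one_smul, smul_zero] at h2
  exact eq_neg_of_add_eq_zero_right h2

/-- the structure matrix is compatible with the differential -/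
theorem cc_um {δ : ℤ} {d : Matrix κ₁ κ₀ (MonoidAlgebra ℤ Γ)}
    {α : Matrix κ₀ κ₁ (MonoidAlgebra ℤ Γ)} {β : Matrix κ₁ κ₀ (MonoidAlgebra ℤ Γ)}
    (ka : α * d + δ • adj (α * d) = 0) (kb : β * adj d + δ • adj (β * adj d) = 0) :
    cc α β * um d = (-δ) • (um d * adj (cc α β)) := by
  have h1 : α * d = -(δ • adj (α * d)) := eq_neg_of_add_eq_zero_left ka
  have h2 : β * adj d = -(δ • adj (β * adj d)) := eq_neg_of_add_eq_zero_left kb
  rw [adj_cc, cc, cc, um, fromBlocks_multiply, fromBlocks_multiply, fromBlocks_smul]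
  congr 1
  · simp only [Matrix.zero_mul, zero_add, Matrix.mul_zero]
    rw [h2, adj_mul, adj_adj, neg_smul]
  · simp only [Matrix.zero_mul, Matrix.mul_zero, add_zero, smul_zero]
  · simp only [Matrix.zero_mul, Matrix.mul_zero, add_zero, smul_zero]
  · simp only [Matrix.zero_mul, add_zero, Matrix.mul_zero]
    rw [h1, adj_mul, neg_smul]

theorem cc_pow_um {δ : ℤ} {d : Matrix κ₁ κ₀ (MonoidAlgebra ℤ Γ)}
    {α : Matrix κ₀ κ₁ (MonoidAlgebra ℤ Γ)} {β : Matrix κ₁ κ₀ (MonoidAlgebra ℤ Γ)}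
    (ka : α * d + δ • adj (α * d) = 0) (kb : β * adj d + δ • adj (β * adj d) = 0) (n : ℕ) :
    cc α β ^ n * um d = (-δ) ^ n • (um d * adj (cc α β) ^ n) := by
  induction n with
  | zero => simp
  | succ n ih =>
    rw [pow_succ', Matrix.mul_assoc, ih, Matrix.mul_smul, ← Matrix.mul_assoc, cc_um ka kb,
      Matrix.smul_mul, smul_smul, Matrix.mul_assoc, ← pow_succ', ← pow_succ]

theorem cc_pow_ker {δ : ℤ} {d : Matrix κ₁ κ₀ (MonoidAlgebra ℤ Γ)}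
    {α : Matrix κ₀ κ₁ (MonoidAlgebra ℤ Γ)} {β : Matrix κ₁ κ₀ (MonoidAlgebra ℤ Γ)}
    (ka : α * d + δ • adj (α * d) = 0) (kb : β * adj d + δ • adj (β * adj d) = 0) (n : ℕ)
    (v : κ₁ ⊕ κ₀ → MonoidAlgebra ℤ Γ) (hv : v ᵥ* um d = 0) : v ᵥ* (cc α β ^ n * um d) = 0 := by
  rw [cc_pow_um ka kb, Matrix.vecMul_smul, ← Matrix.vecMul_vecMul, hv, Matrix.zero_vecMul,
    smul_zero]

theorem sup_one (R : Λ → Λ → Prop) (hR : ∀ x, R x x) {κ : Type} [Fintype κ] [DecidableEq κ]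
    (ℓ : κ → Λ) : Sup ℓ ℓ R (1 : Matrix κ κ (MonoidAlgebra ℤ Γ)) := by
  intro k l g hg
  have h1 : g = 1 := one_supp hg
  rw [Matrix.one_apply] at hg
  split_ifs at hg with h
  · subst h h1
    rw [one_smul]
    exact hR _
  · exact absurd rfl hg

theorem sup_cc {S : Sys Γ Λ} {b : Bool} {ℓ₁ : κ₁ → Λ} {ℓ₀ : κ₀ → Λ}
    {α : Matrix κ₀ κ₁ (MonoidAlgebra ℤ Γ)} {β : Matrix κ₁ κ₀ (MonoidAlgebra ℤ Γ)}
    (sa : Sup ℓ₀ ℓ₁ (S.R (!b)) α) (sb : Sup ℓ₁ ℓ₀ (S.R b) β) (n : ℕ) :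
    Sup (Sum.elim ℓ₁ ℓ₀) ℓ₁ (Wk S.R (!b) n) (cc α β ^ n * iL Γ κ₁ κ₀) ∧
      Sup (Sum.elim ℓ₁ ℓ₀) ℓ₀ (Wk S.R b n) (cc α β ^ n * iR Γ κ₁ κ₀) := by
  induction n with
  | zero =>
    rw [pow_zero, Matrix.one_mul, Matrix.one_mul]
    constructor
    · rintro (k | k) l g hg
      · exact sup_one (fun x y => x = y) (fun _ => rfl) ℓ₁ k l g hg
      · exact absurd rfl hg
    · rintro (k | k) l g hg
      · exact absurd rfl hg
      · exact sup_one (fun x y => x = y) (fun _ => rfl) ℓ₀ k l g hg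
  | succ n ih =>
    rw [pow_succ, Matrix.mul_assoc, Matrix.mul_assoc, cc_inl, cc_inr, Matrix.mul_one,
      Matrix.mul_one]
    have h1 : rR κ₁ α = iR Γ κ₁ κ₀ * α := by
      rw [rows_inr, Matrix.one_mul]
    have h2 : rL κ₀ β = iL Γ κ₁ κ₀ * β := by
      rw [rows_inl, Matrix.one_mul]
    rw [h1, h2, ← Matrix.mul_assoc, ← Matrix.mul_assoc]
    constructor
    · refine ih.2.mul (S.inv _) (fun x y z h h' => ⟨y, ?_, h'⟩) sa
      rwa [Bool.not_not]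
    · exact ih.1.mul (S.inv _) (fun x y z h h' => ⟨y, h, h'⟩) sb

end cc

section pred

variable {κ₁ κ₀ : Type} [Fintype κ₁] [DecidableEq κ₁] [Fintype κ₀] [DecidableEq κ₀]

/-- cycles are killed by words of length `n` -/
def HK (n : ℕ) (d : Matrix κ₁ κ₀ (MonoidAlgebra ℤ Γ)) (α : Matrix κ₀ κ₁ (MonoidAlgebra ℤ Γ))
    (β : Matrix κ₁ κ₀ (MonoidAlgebra ℤ Γ)) (e₁ : Matrix κ₁ κ₁ (MonoidAlgebra ℤ Γ)) : Prop :=
  ∀ v : κ₁ ⊕ κ₀ → MonoidAlgebra ℤ Γ, v ᵥ* um d = 0 → v ᵥ* (cc α β ^ n * rL κ₀ e₁) = 0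

/-- cycles are killed by words of length `n + 1` -/
def HB (n : ℕ) (d : Matrix κ₁ κ₀ (MonoidAlgebra ℤ Γ)) (α : Matrix κ₀ κ₁ (MonoidAlgebra ℤ Γ))
    (β : Matrix κ₁ κ₀ (MonoidAlgebra ℤ Γ)) : Prop :=
  ∀ v : κ₁ ⊕ κ₀ → MonoidAlgebra ℤ Γ, v ᵥ* um d = 0 → v ᵥ* (cc α β ^ n * rL κ₀ β) = 0

/-- the differential is injective -/
def KO (d : Matrix κ₁ κ₀ (MonoidAlgebra ℤ Γ)) (e₁ : Matrix κ₁ κ₁ (MonoidAlgebra ℤ Γ)) : Prop :=
  ∀ v : κ₁ → MonoidAlgebra ℤ Γ, v ᵥ* d = 0 → v ᵥ* e₁ = 0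

/-- words of length `n` factor through the differential -/
def ST (n : ℕ) (d : Matrix κ₁ κ₀ (MonoidAlgebra ℤ Γ)) (α : Matrix κ₀ κ₁ (MonoidAlgebra ℤ Γ))
    (β : Matrix κ₁ κ₀ (MonoidAlgebra ℤ Γ)) (e₀ : Matrix κ₀ κ₀ (MonoidAlgebra ℤ Γ)) : Prop :=
  ∃ T : Matrix (κ₁ ⊕ κ₀) κ₁ (MonoidAlgebra ℤ Γ), adj (cc α β) ^ n * rR κ₁ e₀ = T * d

/-- words of length `n + 1` factor through the dual differential -/
def HS (n : ℕ) (d : Matrix κ₁ κ₀ (MonoidAlgebra ℤ Γ)) (α : Matrix κ₀ κ₁ (MonoidAlgebra ℤ Γ))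
    (β : Matrix κ₁ κ₀ (MonoidAlgebra ℤ Γ)) : Prop :=
  ∃ T : Matrix (κ₁ ⊕ κ₀) κ₀ (MonoidAlgebra ℤ Γ),
    adj (cc α β) ^ n * rR κ₁ (adj β) = T * adj d

variable {S : Sys Γ Λ} {b : Bool} {δ : ℤ} {ℓ₁ : κ₁ → Λ} {ℓ₀ : κ₀ → Λ}
    {d : Matrix κ₁ κ₀ (MonoidAlgebra ℤ Γ)} {α : Matrix κ₀ κ₁ (MonoidAlgebra ℤ Γ)}
    {β : Matrix κ₁ κ₀ (MonoidAlgebra ℤ Γ)} {e₁ : Matrix κ₁ κ₁ (MonoidAlgebra ℤ Γ)}
    {e₀ : Matrix κ₀ κ₀ (MonoidAlgebra ℤ Γ)}

/-- the swap of the index sets -/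
abbrev sw (κ₁ κ₀ : Type) : κ₀ ⊕ κ₁ ≃ κ₁ ⊕ κ₀ := Equiv.sumComm κ₀ κ₁

theorem cc_swap (α : Matrix κ₀ κ₁ (MonoidAlgebra ℤ Γ)) (β : Matrix κ₁ κ₀ (MonoidAlgebra ℤ Γ)) :
    cc β α = (cc α β).submatrix (sw κ₁ κ₀) (sw κ₁ κ₀) := by
  ext1 i j
  rcases i with i | i <;> rcases j with j | j <;> rfl

theorem um_swap (d : Matrix κ₁ κ₀ (MonoidAlgebra ℤ Γ)) :
    um (adj d) = (um d).submatrix (sw κ₁ κ₀) (sw κ₁ κ₀) := by
  rw [um, adj_adj]
  ext1 i j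
  rcases i with i | i <;> rcases j with j | j <;> rfl

theorem pow_submatrix {I J : Type} [Fintype I] [DecidableEq I] [Fintype J] [DecidableEq J]
    (e : I ≃ J) (X : Matrix J J (MonoidAlgebra ℤ Γ)) (n : ℕ) :
    (X.submatrix e e) ^ n = (X ^ n).submatrix e e := by
  induction n with
  | zero => simp
  | succ n ih => rw [pow_succ, ih, Matrix.submatrix_mul_equiv, pow_succ]

theorem word_swap_inl {ι : Type} (n : ℕ) (α : Matrix κ₀ κ₁ (MonoidAlgebra ℤ Γ))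
    (β : Matrix κ₁ κ₀ (MonoidAlgebra ℤ Γ)) (X : Matrix κ₀ ι (MonoidAlgebra ℤ Γ)) :
    cc β α ^ n * rL κ₁ X = (cc α β ^ n * rR κ₁ X).submatrix (sw κ₁ κ₀) id := by
  have h1 : rL κ₁ X = (rR κ₁ X).submatrix (sw κ₁ κ₀) id := by
    ext1 i j
    rcases i with i | i <;> rfl
  rw [cc_swap, pow_submatrix, h1, Matrix.submatrix_mul_equiv]

theorem word_swap_inr {ι : Type} (n : ℕ) (α : Matrix κ₀ κ₁ (MonoidAlgebra ℤ Γ))
    (β : Matrix κ₁ κ₀ (MonoidAlgebra ℤ Γ)) (X : Matrix κ₁ ι (MonoidAlgebra ℤ Γ)) :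
    cc β α ^ n * rR κ₀ X = (cc α β ^ n * rL κ₀ X).submatrix (sw κ₁ κ₀) id := by
  have h1 : rR κ₀ X = (rL κ₀ X).submatrix (sw κ₁ κ₀) id := by
    ext1 i j
    rcases i with i | i <;> rfl
  rw [cc_swap, pow_submatrix, h1, Matrix.submatrix_mul_equiv]

theorem ker_swap (v : κ₀ ⊕ κ₁ → MonoidAlgebra ℤ Γ) (hv : v ᵥ* um (adj d) = 0) :
    (v ∘ (sw κ₁ κ₀).symm) ᵥ* um d = 0 := by
  rw [um_swap, Matrix.submatrix_vecMul_equiv] at hv
  ext1 j
  have h1 := congrFun hv ((sw κ₁ κ₀).symm j)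
  simpa using h1

theorem hk_swap (ae : α * e₁ = α) {n : ℕ} (h : HK (n + 1) d α β e₁) : HB n (adj d) β α := by
  intro v hv
  have h1 := h _ (ker_swap v hv)
  rw [pow_succ, Matrix.mul_assoc, cc_inl, ae] at h1
  rw [word_swap_inl, Matrix.submatrix_vecMul_equiv, h1]
  rfl

theorem ko_swap {δ : ℤ} (ae : α * e₁ = α) (ka : α * d + δ • adj (α * d) = 0) (h : KO d e₁) :
    HB 0 (adj d) β α := by
  intro v hv
  rw [pow_zero, Matrix.one_mul, vecMul_fromRows, Matrix.vecMul_zero, add_zero]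
  have h1 : (v ∘ Sum.inl) ᵥ* adj d = 0 := by
    have h2 := congrArg (fun w => w ᵥ* iR Γ κ₀ κ₁) hv
    simp only [Matrix.vecMul_vecMul, Matrix.zero_vecMul] at h2
    rw [um_inr, Matrix.mul_one, vecMul_fromRows, Matrix.vecMul_zero, add_zero] at h2
    exact h2
  have h3 : ((v ∘ Sum.inl) ᵥ* α) ᵥ* d = 0 := by
    rw [Matrix.vecMul_vecMul, eq_neg_of_add_eq_zero_left ka, adj_mul, Matrix.vecMul_neg,
      Matrix.vecMul_smul, ← Matrix.vecMul_vecMul, h1, Matrix.zero_vecMul, smul_zero, neg_zero]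
  have h4 := h _ h3
  rwa [Matrix.vecMul_vecMul, ae] at h4

theorem st_swap_up (hδ : δ * δ = 1) (D : OD S b δ ℓ₁ ℓ₀ d α β e₁ e₀) {n : ℕ}
    (h : ST n d α β e₀) : ST (n + 1) (adj d) β α (adj e₁) := by
  obtain ⟨T, hT⟩ := h
  refine ⟨(-(δ • (T * β))).submatrix (sw κ₁ κ₀) id, ?_⟩
  rw [adj_cc, pow_succ, Matrix.mul_assoc, cc_inr, ← adj_mul, D.eb, word_swap_inl]
  have h1 : (-(δ • (T * β))).submatrix (sw κ₁ κ₀) id * adj d
      = (-(δ • (T * β)) * adj d).submatrix (sw κ₁ κ₀) id := rfl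
  rw [h1]
  congr 1
  rw [adj_cc] at hT
  have h2 : rR κ₁ (adj β) = rR κ₁ e₀ * adj β := by
    rw [rows_inr]
    congr 1
    have h3 := congrArg adj D.be
    rw [adj_mul, adj_adj] at h3
    exact h3.symm
  rw [h2, ← Matrix.mul_assoc, hT, Matrix.mul_assoc]
  have h3 := skew_of hδ D.kb
  rw [adj_mul, adj_adj] at h3
  rw [h3]
  simp only [Matrix.mul_neg, Matrix.neg_mul, Matrix.mul_smul, Matrix.smul_mul, Matrix.mul_assoc]

theorem st_swap_hs (D : OD S b δ ℓ₁ ℓ₀ d α β e₁ e₀) {n : ℕ}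
    (h : ST (n + 1) d α β e₀) : HS n (adj d) β α := by
  obtain ⟨T, hT⟩ := h
  refine ⟨T.submatrix (sw κ₁ κ₀) id, ?_⟩
  have h1 : T.submatrix (sw κ₁ κ₀) id * adj (adj d) = (T * d).submatrix (sw κ₁ κ₀) id := by
    rw [adj_adj]; rfl
  rw [h1, ← hT, adj_cc, adj_cc, word_swap_inr, pow_succ, Matrix.mul_assoc, cc_inr]
  have h3 := congrArg adj D.ea
  rw [adj_mul, adj_adj] at h3
  rw [h3]

end pred

section one

variable {κ₁ κ₀ : Type} [Fintype κ₁] [DecidableEq κ₁] [Fintype κ₀] [DecidableEq κ₀]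
  {S : Sys Γ Λ} {b : Bool} {δ : ℤ} {ℓ₁ : κ₁ → Λ} {ℓ₀ : κ₀ → Λ}
    {d : Matrix κ₁ κ₀ (MonoidAlgebra ℤ Γ)} {α : Matrix κ₀ κ₁ (MonoidAlgebra ℤ Γ)}
    {β : Matrix κ₁ κ₀ (MonoidAlgebra ℤ Γ)} {e₁ : Matrix κ₁ κ₁ (MonoidAlgebra ℤ Γ)}
    {e₀ : Matrix κ₀ κ₀ (MonoidAlgebra ℤ Γ)}

theorem zsmul_cancel {I : Type} {q : ℤ} (hq : q ≠ 0) {v : I → MonoidAlgebra ℤ Γ} (h : q • v = 0) :
    v = 0 := by
  ext i g
  have h1 := congrArg (fun w => (w i).coeff g) h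
  simp only [Pi.smul_apply, Pi.zero_apply] at h1
  rw [coeff_zsmul'] at h1
  have h2 : (0 : MonoidAlgebra ℤ Γ).coeff g = 0 := rfl
  rw [h2] at h1
  exact (mul_eq_zero.mp h1).resolve_left hq

/-- the points reached by a word -/
theorem pts_word {κ μ : Type} [Fintype κ] [Fintype μ] {ℓ : κ → Λ} {ℓ' : μ → Λ} {R : Λ → Λ → Prop}
    (hR : Inv Γ R) {X : Matrix κ μ (MonoidAlgebra ℤ Γ)} (hX : Sup ℓ ℓ' R X) {x : Λ}
    {v : κ → MonoidAlgebra ℤ Γ} (hv : At ℓ x v) {y : Λ} (hy : y ∈ pts ℓ' (v ᵥ* X)) : R x y := by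
  obtain ⟨k, g, h1, rfl⟩ := (mem_pts ℓ' _ y).mp hy
  rw [Matrix.vecMul, dotProduct, coeff_sum'] at h1
  obtain ⟨j, _, hj⟩ := Finset.exists_ne_zero_of_sum_ne_zero h1
  obtain ⟨a, h2, h3⟩ := coeff_mul_ne hj
  have h4 := hR a _ _ (hX _ _ _ h3)
  rwa [hv _ _ h2, smul_smul, mul_inv_cancel_left] at h4

theorem sup_um (sd : Sup ℓ₁ ℓ₀ (fun x y => x = y) d) :
    Sup (Sum.elim ℓ₁ ℓ₀) (Sum.elim ℓ₁ ℓ₀) (fun x y => x = y) (um d) := by
  rintro (k | k) (l | l) g hg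
  · exact absurd rfl hg
  · exact sd k l g hg
  · exact sd.adj inv_eq (fun x y h => h.symm) k l g hg
  · exact absurd rfl hg

/-- the first step -/
theorem step_one (hno : ∀ g : Γ, g = g⁻¹ → g = 1) (hδ : δ * δ = 1)
    (D : OD S b δ ℓ₁ ℓ₀ d α β e₁ e₀) {n : ℕ} (hB : HB n d α β) :
    ∃ (M : Type) (_ : Fintype M) (_ : DecidableEq M) (ℓM : M → Λ)
      (d' : Matrix M κ₀ (MonoidAlgebra ℤ Γ)) (α' : Matrix κ₀ M (MonoidAlgebra ℤ Γ))
      (β' : Matrix M κ₀ (MonoidAlgebra ℤ Γ)) (e : Matrix M M (MonoidAlgebra ℤ Γ)),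
      OD S b δ ℓM ℓ₀ d' α' β' e e₀ ∧ FE δ (ug δ α β) (um d) (ug δ α' β') (um d') ∧
      HK n d' α' β' e ∧ (∀ m, ST m d α β e₀ → ST m d' α' β' e₀) ∧
      (KO (adj d) (adj e₀) → KO (adj d') (adj e₀)) := by
  obtain ⟨M, i1, i2, ℓM, Y, YQ, d', β', e, q, S₁, S₂, hOD, hFE, -, -, hd, hβ, -, -, hYe, -, hker,
    hq, hSY⟩ := D.fop hno hδ (Q := Empty) (fun q => q.elim) (fun q => q.elim) 0 0
    (fun q => q.elim) (fun q => q.elim) (by rw [Matrix.zero_mul]) (by rw [Matrix.zero_mul])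
    (by rw [Matrix.zero_mul, Matrix.zero_mul, smul_zero, add_zero])
    (by rw [Matrix.zero_mul, smul_zero, add_zero])
  have hSY' : S₁ * Y = q • e := by
    rw [← hSY]
    have h1 : S₂ * YQ = 0 := by
      ext1 i j
      rw [Matrix.mul_apply]
      exact Finset.sum_of_isEmpty _
    rw [h1, add_zero]
  -- the comparison matrix
  let YJ : Matrix (κ₁ ⊕ κ₀) (M ⊕ κ₀) (MonoidAlgebra ℤ Γ) := fromBlocks Y 0 0 1
  have hint : cc α β * YJ = YJ * cc (α * Y) β' := by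
    simp only [cc, YJ, fromBlocks_multiply]
    congr 1 <;> simp [hβ]
  have hintn : ∀ n, cc α β ^ n * YJ = YJ * cc (α * Y) β' ^ n := by
    intro n
    induction n with
    | zero => simp
    | succ n ih =>
      rw [pow_succ, Matrix.mul_assoc, hint, ← Matrix.mul_assoc, ih, Matrix.mul_assoc, ← pow_succ]
  refine ⟨M, i1, i2, ℓM, d', α * Y, β', e, hOD, hFE, ?_, ?_, ?_⟩
  · -- cycles
    have claim : ∀ v : κ₁ ⊕ κ₀ → MonoidAlgebra ℤ Γ, v ᵥ* um d = 0 →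
        v ᵥ* (cc α β ^ n * rL κ₀ Y) = 0 := by
      intro v hv
      have h1 : ∀ x, part (Sum.elim ℓ₁ ℓ₀) x v ᵥ* (cc α β ^ n * rL κ₀ Y) = 0 := by
        intro x
        have hvx : part (Sum.elim ℓ₁ ℓ₀) x v ᵥ* um d = 0 :=
          part_vecMul inv_eq (sup_um D.sd) v hv (fun y₁ _ y₂ _ z e1 e2 => e1.trans e2.symm) x
        have hat := at_part (Sum.elim ℓ₁ ℓ₀) x v
        generalize part (Sum.elim ℓ₁ ℓ₀) x v = w at hvx hat
        let u := w ᵥ* (cc α β ^ n * iL Γ κ₁ κ₀)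
        have hu : ∀ {ι : Type} [Fintype ι] (X : Matrix κ₁ ι (MonoidAlgebra ℤ Γ)),
            u ᵥ* X = w ᵥ* (cc α β ^ n * rL κ₀ X) := by
          intro ι _ X
          simp only [u]
          rw [Matrix.vecMul_vecMul, Matrix.mul_assoc, rows_inl, Matrix.one_mul]
        have huβ : u ᵥ* β = 0 := by rw [hu]; exact hB w hvx
        have hud : u ᵥ* d = 0 := by
          rw [hu]
          have h2 := cc_pow_ker D.ka D.kb n w hvx
          have h3 := congrArg (fun w => w ᵥ* iR Γ κ₁ κ₀) h2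
          simp only [Matrix.vecMul_vecMul, Matrix.zero_vecMul] at h3
          rw [Matrix.mul_assoc, um_inr, Matrix.mul_one] at h3
          exact h3
        have hpts : ∀ y ∈ pts ℓ₁ u, Wk S.R (!b) n x y := fun y hy =>
          pts_word (wk_inv S n (!b)) (sup_cc D.sa D.sb n).1 hat hy
        rw [← hu Y, sum_part ℓ₁ u, Matrix.sum_vecMul]
        refine Finset.sum_eq_zero fun y _ => ?_
        have h4 := hker y (part ℓ₁ y u) 0 (at_part _ _ _) (fun q => q.elim)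
          (by
            rw [Matrix.vecMul_zero, add_zero]
            exact part_vecMul inv_eq D.sd u hud (fun y₁ _ y₂ _ z e1 e2 => e1.trans e2.symm) y)
          (by
            rw [Matrix.vecMul_zero, add_zero]
            exact part_vecMul (S.inv b) D.sb u huβ (fun y₁ hy₁ y₂ hy₂ z hz₁ hz₂ =>
              S.nc b n x y₁ y₂ z (hpts _ hy₁) (hpts _ hy₂) hz₁ hz₂) y)
        rwa [Matrix.zero_vecMul, add_zero] at h4
      rw [sum_part (Sum.elim ℓ₁ ℓ₀) v, Matrix.sum_vecMul]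
      exact Finset.sum_eq_zero fun x _ => h1 x
    intro v hv
    let SJ : Matrix (M ⊕ κ₀) (κ₁ ⊕ κ₀) (MonoidAlgebra ℤ Γ) := fromBlocks S₁ 0 0 (q • 1)
    have hSd : SJ * um d = q • (um d' * adj YJ) := by
      simp only [SJ, YJ, um, adj_fromBlocks, fromBlocks_multiply, fromBlocks_smul]
      congr 1
      · simp [adj_zero]
      · simp only [Matrix.zero_mul, add_zero, Matrix.mul_zero, zero_add, adj_one, Matrix.mul_one]
        rw [hd, ← Matrix.mul_assoc, hSY', Matrix.smul_mul, hOD.ed]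
      · simp only [Matrix.zero_mul, add_zero, Matrix.mul_zero, zero_add, adj_one, Matrix.mul_one,
          adj_zero, Matrix.smul_mul, Matrix.one_mul]
        rw [hd, adj_mul]
      · simp [adj_zero]
    have h2 := claim (v ᵥ* SJ) (by
      rw [Matrix.vecMul_vecMul, hSd, Matrix.vecMul_smul, ← Matrix.vecMul_vecMul, hv,
        Matrix.zero_vecMul, smul_zero])
    have h3 : rL κ₀ Y = YJ * iL Γ M κ₀ := by
      simp only [YJ]
      rw [fromBlocks_mul_fromRows]; simp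
    have h4 : SJ * YJ = q • (fromBlocks e 0 0 1 : Matrix (M ⊕ κ₀) (M ⊕ κ₀) (MonoidAlgebra ℤ Γ)) := by
      simp only [SJ, YJ, fromBlocks_multiply, fromBlocks_smul]
      congr 1
      · simp only [Matrix.zero_mul, add_zero]; exact hSY'
      · simp
      · simp
      · simp only [Matrix.zero_mul, Matrix.mul_zero, zero_add, Matrix.mul_one]
    rw [h3, ← Matrix.mul_assoc, hintn, Matrix.vecMul_vecMul, ← Matrix.mul_assoc,
      ← Matrix.mul_assoc, h4, Matrix.smul_mul, Matrix.smul_mul, Matrix.vecMul_smul] at h2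
    have h5 := zsmul_cancel hq h2
    have h6 := congrArg (fun w => w ᵥ* e) h5
    simp only [Matrix.zero_vecMul, Matrix.vecMul_vecMul] at h6
    rw [Matrix.mul_assoc, rows_inl, Matrix.one_mul] at h6
    have h7 : (fromBlocks e 0 0 1 : Matrix (M ⊕ κ₀) (M ⊕ κ₀) (MonoidAlgebra ℤ Γ))
        * cc (α * Y) β' ^ n * rL κ₀ e = cc (α * Y) β' ^ n * rL κ₀ e := by
      rcases n with _ | n
      · rw [pow_zero, Matrix.mul_one, Matrix.one_mul, fromBlocks_mul_fromRows]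
        simp [hOD.i1]
      · rw [pow_succ', ← Matrix.mul_assoc]
        congr 2
        simp only [cc, fromBlocks_multiply]
        congr 1 <;> simp [hOD.eb]
    rw [h7] at h6
    exact h6
  · rintro m ⟨T, hT⟩
    refine ⟨adj YJ * T * Y, ?_⟩
    have h1 : ∀ m, adj (cc (α * Y) β') ^ m * adj YJ = adj YJ * adj (cc α β) ^ m := by
      have h2 := congrArg adj hint
      rw [adj_mul, adj_mul] at h2
      intro m
      induction m with
      | zero => simp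
      | succ m ih =>
        rw [pow_succ, Matrix.mul_assoc, ← h2, ← Matrix.mul_assoc, ih, Matrix.mul_assoc, ← pow_succ]
    have h2 : rR M e₀ = adj YJ * rR κ₁ e₀ := by
      simp only [YJ, adj_fromBlocks]
      rw [fromBlocks_mul_fromRows]; simp [adj_zero, adj_one]
    rw [h2, ← Matrix.mul_assoc, h1, Matrix.mul_assoc, hT, hd]
    simp only [Matrix.mul_assoc]
  · intro h v hv
    apply h
    rw [hd, adj_mul, ← Matrix.vecMul_vecMul, hv, Matrix.zero_vecMul]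

end one

end Pool.Agent.T9h15.UO
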