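import Pool.Agent.T9h15.UO.Rf

set_option autoImplicit false
set_option linter.unusedSectionVars false
set_option linter.unusedSimpArgs false

/-! Factorisation of rectangular labelled matrices. -/

namespace Pool.Agent.T9h15.UO

open Matrix TH6.LF Pool.Agent.T9h15.UN

variable {Γ : Type} [Group Γ] {Λ : Type} [MulAction Γ Λ]

section rf

variable {κ : Type} [Fintype κ] [DecidableEq κ]

theorem rfactor {N : Type} [Fintype N] {ℓ : κ → Λ} (hn : Nrm Γ ℓ) (hK : SKQ Γ ℓ)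
    (G : Matrix κ N (MonoidAlgebra ℤ Γ)) :
    ∃ (M : Type) (_ : Fintype M) (_ : DecidableEq M) (ℓM : M → Λ)
      (Y : Matrix κ M (MonoidAlgebra ℤ Γ)) (G' : Matrix M N (MonoidAlgebra ℤ Γ))
      (e : Matrix M M (MonoidAlgebra ℤ Γ)) (q : ℤ) (S : Matrix M κ (MonoidAlgebra ℤ Γ)),
      (∀ j, ∃ k, ℓM j = ℓ k) ∧ Sup ℓ ℓM (fun x y => x = y) Y ∧ Sup ℓM ℓM (fun x y => x = y) e ∧
      Sup ℓM ℓ (fun x y => x = y) S ∧ G = Y * G' ∧ e * G' = G' ∧ Y * e = Y ∧ e * e = e ∧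
      (∀ y v, At ℓ y v → v ᵥ* G = 0 → v ᵥ* Y = 0) ∧
      (∀ {ι : Type} (W : Matrix M ι (MonoidAlgebra ℤ Γ)), Y * W = 0 → e * W = 0) ∧
      q ≠ 0 ∧ S * Y = q • e := by
  obtain ⟨M₁, i1, i2, ℓ₁, X, e₁, -, -, -, -, -, hl1, hX, -, hXL, -, hker, -⟩ := lift_all' hn hK G
  have hXa : Sup ℓ ℓ₁ (fun x y => x = y) (adj X) := hX.adj inv_eq (fun x y h => h.symm)
  obtain ⟨M, i3, i4, ℓM, Z, e, q, T, hq, hZT, hT, hl2, hZ, he, hZX, heZ, hkerZ, hinjZ⟩ :=
    lift_eq' hn hK (adj X) hXa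
  have hXY : X * adj Z = 0 := by
    have h := congrArg adj hZX
    rwa [adj_mul, adj_adj, adj_zero] at h
  have hYe : adj Z * adj e = adj Z := by
    have h := congrArg adj heZ
    rwa [adj_mul] at h
  have hee : adj e * adj e = adj e := by
    have h4 : (e - 1) * Z = 0 := by rw [Matrix.sub_mul, heZ, Matrix.one_mul, sub_self]
    have h5 := hinjZ _ h4
    rw [Matrix.sub_mul, Matrix.one_mul, sub_eq_zero] at h5
    rw [← adj_mul, h5]
  obtain ⟨G', hG1, hG2⟩ : ∃ G' : Matrix M N (MonoidAlgebra ℤ Γ), G = adj Z * G' ∧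
      adj e * G' = G' := by
    have h := congrArg adj hXL
    rw [adj_mul, adj_zero] at h
    obtain ⟨S, hS⟩ := hkerZ (adj G) h
    have h1 : G = adj Z * adj S := by
      have h2 := congrArg adj hS
      rwa [adj_adj, adj_mul] at h2
    refine ⟨adj e * adj S, ?_, ?_⟩
    · rw [← Matrix.mul_assoc, hYe]; exact h1
    · rw [← Matrix.mul_assoc, hee]
  refine ⟨M, i3, i4, ℓM, adj Z, G', adj e, q, adj T, hl2,
    hZ.adj inv_eq (fun x y h => h.symm), he.adj inv_eq (fun x y h => h.symm),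
    hT.adj inv_eq (fun x y h => h.symm), hG1, hG2, hYe, hee, ?_, ?_, hq, ?_⟩
  · intro y v hv hvL
    obtain ⟨s, hs⟩ := hker y v hv hvL
    rw [hs, Matrix.vecMul_vecMul, hXY, Matrix.vecMul_zero]
  · intro ι W hW
    have h := congrArg adj hW
    rw [adj_mul, adj_zero, adj_adj] at h
    have h1 := congrArg adj (hinjZ _ h)
    rwa [adj_mul, adj_adj, adj_zero] at h1
  · rw [← adj_mul, hZT, adj_zsmul]

end rf

section misc

variable {κ μ ι : Type} [Fintype κ] [Fintype μ] [Fintype ι]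
  {ℓ : κ → Λ} {ℓ' : μ → Λ} {ℓ'' : ι → Λ}

theorem trc_mul_vert {R : Λ → Λ → Prop} (A : Matrix κ μ (MonoidAlgebra ℤ Γ))
    {Y : Matrix μ ι (MonoidAlgebra ℤ Γ)} (hY : Sup ℓ' ℓ'' (fun x y => x = y) Y) :
    trc R ℓ ℓ'' (A * Y) = trc R ℓ ℓ' A * Y := by
  classical
  ext k l g
  rw [coeff_trc, Matrix.mul_apply, Matrix.mul_apply, coeff_sum', coeff_sum']
  have h : ∀ m, (trc R ℓ ℓ' A k m * Y m l).coeff g
      = if R (ℓ k) (g • ℓ'' l) then (A k m * Y m l).coeff g else 0 := by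
    intro m
    rw [MonoidAlgebra.coeff_mul_apply_right, MonoidAlgebra.coeff_mul_apply_right, Finsupp.sum,
      Finsupp.sum]
    have h1 : ∀ a ∈ (Y m l).coeff.support, (trc R ℓ ℓ' A k m).coeff (g * a⁻¹) * (Y m l).coeff a
        = if R (ℓ k) (g • ℓ'' l) then (A k m).coeff (g * a⁻¹) * (Y m l).coeff a else 0 := by
      intro a ha
      have h2 : ℓ' m = a • ℓ'' l := hY m l a (Finsupp.mem_support_iff.mp ha)
      have h3 : R (ℓ k) ((g * a⁻¹) • ℓ' m) ↔ R (ℓ k) (g • ℓ'' l) := by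
        rw [h2, smul_smul, inv_mul_cancel_right]
      rw [coeff_trc]
      simp only [h3]
      split_ifs
      · rfl
      · rw [zero_mul]
    rw [Finset.sum_congr rfl h1]
    split_ifs
    · rfl
    · simp
  simp only [h]
  split_ifs
  · rfl
  · simp

open Classical in
/-- the part of a row at the points with property `p` -/
noncomputable def prt (ℓ : κ → Λ) (p : Λ → Prop) (v : κ → MonoidAlgebra ℤ Γ) :
    κ → MonoidAlgebra ℤ Γ :=
  fun k => .ofCoeff ((v k).coeff.filter fun g => p (g • ℓ k))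

open Classical in
theorem coeff_prt (ℓ : κ → Λ) (p : Λ → Prop) (v : κ → MonoidAlgebra ℤ Γ) (k : κ) (g : Γ) :
    (prt ℓ p v k).coeff g = if p (g • ℓ k) then (v k).coeff g else 0 := by
  simp only [prt, Finsupp.filter_apply]

theorem prt_vecMul (p : Λ → Prop) (v : κ → MonoidAlgebra ℤ Γ)
    {Y : Matrix κ μ (MonoidAlgebra ℤ Γ)} (hY : Sup ℓ ℓ' (fun x y => x = y) Y) :
    prt ℓ' p (v ᵥ* Y) = prt ℓ p v ᵥ* Y := by
  classical
  ext l g
  rw [coeff_prt, Matrix.vecMul, Matrix.vecMul, dotProduct, dotProduct, coeff_sum', coeff_sum']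
  have h : ∀ m, (prt ℓ p v m * Y m l).coeff g
      = if p (g • ℓ' l) then (v m * Y m l).coeff g else 0 := by
    intro m
    rw [MonoidAlgebra.coeff_mul_apply_right, MonoidAlgebra.coeff_mul_apply_right, Finsupp.sum,
      Finsupp.sum]
    have h1 : ∀ a ∈ (Y m l).coeff.support, (prt ℓ p v m).coeff (g * a⁻¹) * (Y m l).coeff a
        = if p (g • ℓ' l) then (v m).coeff (g * a⁻¹) * (Y m l).coeff a else 0 := by
      intro a ha
      have h2 : ℓ m = a • ℓ' l := hY m l a (Finsupp.mem_support_iff.mp ha)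
      have h3 : p ((g * a⁻¹) • ℓ m) ↔ p (g • ℓ' l) := by
        rw [h2, smul_smul, inv_mul_cancel_right]
      rw [coeff_prt]
      simp only [h3]
      split_ifs
      · rfl
      · rw [zero_mul]
    rw [Finset.sum_congr rfl h1]
    split_ifs
    · rfl
    · simp
  simp only [h]
  split_ifs
  · rfl
  · simp

/-- if the points of a row are determined by their neighbours, then parts are compatible with
products -/
theorem prt_vecMul_rel {R : Λ → Λ → Prop} (hR : Inv Γ R)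
    {A : Matrix κ μ (MonoidAlgebra ℤ Γ)} (hA : Sup ℓ ℓ' R A) (v : κ → MonoidAlgebra ℤ Γ) (y : Λ)
    (huniq : ∀ y₁ ∈ pts ℓ v, ∀ z, R y₁ z → R y z → y₁ = y) :
    prt ℓ' (fun z => R y z) (v ᵥ* A) = prt ℓ (fun x => x = y) v ᵥ* A := by
  classical
  ext l g
  rw [coeff_prt, Matrix.vecMul, Matrix.vecMul, dotProduct, dotProduct, coeff_sum', coeff_sum']
  have h : ∀ m, (prt ℓ (fun x => x = y) v m * A m l).coeff g
      = if R y (g • ℓ' l) then (v m * A m l).coeff g else 0 := by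
    intro m
    rw [MonoidAlgebra.coeff_mul_apply_right, MonoidAlgebra.coeff_mul_apply_right, Finsupp.sum,
      Finsupp.sum]
    have h1 : ∀ a ∈ (A m l).coeff.support, (prt ℓ (fun x => x = y) v m).coeff (g * a⁻¹)
        * (A m l).coeff a
        = if R y (g • ℓ' l) then (v m).coeff (g * a⁻¹) * (A m l).coeff a else 0 := by
      intro a ha
      have h2 : R (ℓ m) (a • ℓ' l) := hA m l a (Finsupp.mem_support_iff.mp ha)
      have h3 : R ((g * a⁻¹) • ℓ m) (g • ℓ' l) := by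
        have h4 := hR (g * a⁻¹) _ _ h2
        rwa [smul_smul, inv_mul_cancel_right] at h4
      rw [coeff_prt]
      by_cases hv : (v m).coeff (g * a⁻¹) = 0
      · rw [hv]; simp
      have h5 : (g * a⁻¹) • ℓ m ∈ pts ℓ v := (mem_pts ℓ v _).mpr ⟨m, _, hv, rfl⟩
      by_cases h6 : R y (g • ℓ' l)
      · rw [if_pos h6, if_pos (huniq _ h5 _ h3 h6)]
      · rw [if_neg h6, if_neg, zero_mul]
        intro h7
        rw [h7] at h3
        exact h6 h3
    rw [Finset.sum_congr rfl h1]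
    split_ifs
    · rfl
    · simp
  simp only [h]
  split_ifs
  · rfl
  · simp

theorem nrm_sub {κ κ' : Type} {ℓ : κ → Λ} {ℓ' : κ' → Λ} (h : Nrm Γ ℓ)
    (h' : ∀ j, ∃ k, ℓ' j = ℓ k) : Nrm Γ ℓ' := by
  intro i j g hg
  obtain ⟨k, hk⟩ := h' i
  obtain ⟨l, hl⟩ := h' j
  rw [hk, hl] at hg ⊢
  exact h _ _ _ hg

theorem SKQ.of_sub {κ κ' : Type} {ℓ : κ → Λ} {ℓ' : κ' → Λ} (h : SKQ Γ ℓ)
    (h' : ∀ j, ∃ k, ℓ' j = ℓ k) : SKQ Γ ℓ' := by
  intro j
  obtain ⟨k, hk⟩ := h' j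
  rw [hk]
  exact h k

/-- uniqueness of the middle points of reduced walks -/
theorem mu (S : Sys Γ Λ) (m : ℕ) : ∀ (c : Bool) (n : ℕ) (x z y₁ y₂ : Λ),
    Wk S.R c n x y₁ → Wk S.R (!c) m z y₁ → Wk S.R c n x y₂ → Wk S.R (!c) m z y₂ → y₁ = y₂ := by
  induction m with
  | zero =>
    intro c n x z y₁ y₂ _ h1 _ h2
    exact (show z = y₁ from h1).symm.trans h2
  | succ m ih =>
    rintro c n x z y₁ y₂ h1 ⟨u₁, h2, h3⟩ h4 ⟨u₂, h5, h6⟩
    have e : u₁ = u₂ := by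
      refine ih (!c) (n + 1) x z u₁ u₂ ⟨y₁, ?_, S.symm _ _ _ h3⟩ h2 ⟨y₂, ?_, S.symm _ _ _ h6⟩ h5
      · rwa [Bool.not_not]
      · rwa [Bool.not_not]
    subst e
    refine S.nc (!c) n x y₁ y₂ u₁ ?_ ?_ (S.symm _ _ _ h3) (S.symm _ _ _ h6)
    · rwa [Bool.not_not]
    · rwa [Bool.not_not]

theorem wk_inv (S : Sys Γ Λ) (n : ℕ) : ∀ b, Inv Γ (Wk S.R b n) := by
  induction n with
  | zero =>
    intro b g x y h
    change g • x = g • y
    rw [show x = y from h]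
  | succ n ih =>
    rintro b g x z ⟨y, h1, h2⟩
    exact ⟨g • y, ih _ g _ _ h1, S.inv b g _ _ h2⟩

theorem even_of_skew {κ : Type} [Fintype κ] [DecidableEq κ] (hno : ∀ g : Γ, g = g⁻¹ → g = 1)
    {δ : ℤ} (hδ : δ * δ = 1) {ℓ : κ → Λ} {R : Λ → Λ → Prop} (hirr : ∀ x, ¬ R x x)
    (L : Matrix κ κ (MonoidAlgebra ℤ Γ)) (hL : L + δ • adj L = 0) (hS : Sup ℓ ℓ R L) :
    ∃ θ : Matrix κ κ (MonoidAlgebra ℤ Γ), L = θ - δ • adj θ := by
  have hδ' : (-δ) * (-δ) = 1 := by rw [neg_mul_neg, hδ]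
  have h1 : adj L = (-δ) • L := by
    have h2 := congrArg (fun X => δ • X) hL
    simp only [smul_add, smul_smul, hδ, one_smul, smul_zero] at h2
    rw [neg_smul]
    exact eq_neg_of_add_eq_zero_right h2
  obtain ⟨θ, hθ, -⟩ := half hno hδ' hirr L h1 hS
  exact ⟨θ, by rw [hθ, neg_smul, sub_eq_add_neg]⟩

end misc

end Pool.Agent.T9h15.UO
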