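import Pool.Agent.T9h15.UO.KQF
import Pool.Agent.T9h15.UN.Fin

set_option autoImplicit false
set_option linter.unusedSectionVars false
set_option linter.unusedSimpArgs false

/-! Base change, lifting and factorisation for labelled matrices, in rectangular form. -/

namespace Pool.Agent.T9h15.UO

open Matrix TH6.LF Pool.Agent.T9h15.UN

theorem KQ.equiv {E E' : Type} [Group E] [Group E'] (e : E ≃* E') (h : KQ E) : KQ E' := by
  intro n N Φ
  let f : MonoidAlgebra ℤ E →+* MonoidAlgebra ℤ E' := MonoidAlgebra.mapDomainRingHom ℤ e.toMonoidHom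
  let f' : MonoidAlgebra ℤ E' →+* MonoidAlgebra ℤ E :=
    MonoidAlgebra.mapDomainRingHom ℤ e.symm.toMonoidHom
  have h1 : ∀ x, f (f' x) = x := by
    intro x
    have h := congrArg (fun φ => φ x) (MonoidAlgebra.mapDomainRingHom_comp (R := ℤ) e.toMonoidHom e.symm.toMonoidHom)
    have h3 : e.toMonoidHom.comp e.symm.toMonoidHom = MonoidHom.id E' := by ext x; simp
    rw [h3, MonoidAlgebra.mapDomainRingHom_id] at h
    exact h.symm
  have h2 : ∀ x, f' (f x) = x := by
    intro x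
    have h := congrArg (fun φ => φ x) (MonoidAlgebra.mapDomainRingHom_comp (R := ℤ) e.symm.toMonoidHom e.toMonoidHom)
    have h3 : e.symm.toMonoidHom.comp e.toMonoidHom = MonoidHom.id E := by ext x; simp
    rw [h3, MonoidAlgebra.mapDomainRingHom_id] at h
    exact h.symm
  obtain ⟨m, X, e', q, Z, h3, h4, h5, h6, hq, hZ⟩ := h n N (Φ.map f')
  have hvm : ∀ {p q : ℕ} (v : Fin p → MonoidAlgebra ℤ E') (A : Matrix (Fin p) (Fin q) (MonoidAlgebra ℤ E)),
      (fun j => f' ((v ᵥ* A.map f) j)) = (fun i => f' (v i)) ᵥ* A := by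
    intro p q v A
    ext1 j
    simp [Matrix.vecMul, dotProduct, h2]
  have hvm' : ∀ {p q : ℕ} (v : Fin p → MonoidAlgebra ℤ E') (A : Matrix (Fin p) (Fin q) (MonoidAlgebra ℤ E')),
      (fun j => f' ((v ᵥ* A) j)) = (fun i => f' (v i)) ᵥ* A.map f' := by
    intro p q v A
    ext1 j
    simp [Matrix.vecMul, dotProduct]
  refine ⟨m, X.map f, e'.map f, q, Z.map f, ?_, ?_, ?_, ?_, hq, ?_⟩
  rotate_left 4
  · rw [← Matrix.map_mul, hZ]
    ext1 i j
    simp only [Matrix.map_apply, Matrix.smul_apply, map_zsmul]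
  · have e1 : Φ = (Φ.map f').map f := by ext1 i j; simp [h1]
    rw [e1, ← Matrix.map_mul, h3]
    ext1 i j
    simp
  · rw [← Matrix.map_mul, h4]
  · intro y hy
    obtain ⟨s, hs⟩ := h5 (fun i => f' (y i)) (by
      rw [← hvm', hy]
      ext1 j
      simp)
    refine ⟨fun i => f (s i), ?_⟩
    ext1 j
    have e1 := congrArg f (congrFun hs j)
    simp only [h1] at e1
    rw [e1]
    simp [Matrix.vecMul, dotProduct]
  · intro s hs
    have e1 := h6 (fun i => f' (s i)) (by
      rw [← hvm, hs]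
      ext1 j
      simp)
    ext1 j
    have e2 := congrFun e1 j
    rw [← congrFun (hvm s e') j] at e2
    have e3 := congrArg f e2
    rw [h1] at e3
    simpa using e3

theorem KQ.of_free (E : Type) [Group E] [IsFreeGroup E] : KQ E :=
  (kq_free (IsFreeGroup.Generators E)).equiv (IsFreeGroup.toFreeGroup E).symm


variable {Γ : Type} [Group Γ]

section bc

variable (F : Subgroup Γ)

theorem base_change' (hF : KQ F) {κ μ : Type} [Fintype κ] [Fintype μ]
    (Φ : Matrix κ μ (MonoidAlgebra ℤ Γ)) (hΦ : ∀ i j g, (Φ i j).coeff g ≠ 0 → g ∈ F) :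
    ∃ (m : ℕ) (X : Matrix (Fin m) κ (MonoidAlgebra ℤ Γ))
      (e : Matrix (Fin m) (Fin m) (MonoidAlgebra ℤ Γ)) (q : ℤ)
      (Z : Matrix κ (Fin m) (MonoidAlgebra ℤ Γ)), q ≠ 0 ∧ X * Z = q • e ∧
      (∀ i j g, (Z i j).coeff g ≠ 0 → g ∈ F) ∧
      (∀ i j g, (X i j).coeff g ≠ 0 → g ∈ F) ∧ (∀ i j g, (e i j).coeff g ≠ 0 → g ∈ F) ∧
      X * Φ = 0 ∧ e * X = X ∧
      (∀ v : κ → MonoidAlgebra ℤ Γ, v ᵥ* Φ = 0 → ∃ s : Fin m → MonoidAlgebra ℤ Γ, v = s ᵥ* X) ∧
      (∀ s : Fin m → MonoidAlgebra ℤ Γ, s ᵥ* X = 0 → s ᵥ* e = 0) := by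
  classical
  let a := Fintype.equivFin κ
  let b := Fintype.equivFin μ
  let Φ₀ : Matrix (Fin (Fintype.card κ)) (Fin (Fintype.card μ)) (MonoidAlgebra ℤ F) :=
    fun i j => cmp F 1 (Φ (a.symm i) (b.symm j))
  obtain ⟨m, X, e, q, Z, h1, h2, h3, h4, hq, hZ⟩ := hF _ _ Φ₀
  have hΦ₀ : Φ = (Φ₀.map (inc F)).submatrix a b := by
    ext i j g
    rw [Matrix.submatrix_apply, Matrix.map_apply, coeff_inc]
    simp only [Φ₀, Equiv.symm_apply_apply, coeff_cmp, one_mul]
    split_ifs with h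
    · rfl
    · by_contra h5
      exact h (hΦ _ _ _ h5)
  have hsup : ∀ (x : MonoidAlgebra ℤ F) g, (inc F x).coeff g ≠ 0 → g ∈ F := by
    intro x g hg
    by_contra h
    exact hg (by rw [coeff_inc, dif_neg h])
  have hm : ∀ {α β γ : Type} [Fintype β] (A : Matrix α β (MonoidAlgebra ℤ F))
      (B : Matrix β γ (MonoidAlgebra ℤ F)), (A * B).map (inc F) = A.map (inc F) * B.map (inc F) := by
    intro α β γ _ A B
    exact Matrix.map_mul
  have hgen : ∀ {p q : ℕ} (v : Fin p → MonoidAlgebra ℤ Γ) (A : Matrix (Fin p) (Fin q) (MonoidAlgebra ℤ F))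
      (γ : Γ), v ᵥ* (A.map (inc F)) = 0 → (fun i => cmp F γ (v i)) ᵥ* A = 0 := by
    intro p q v A γ hv
    ext1 j
    have h5 := congrArg (cmp F γ) (congrFun hv j)
    rw [Matrix.vecMul, dotProduct, cmp_sum] at h5
    simp only [Matrix.map_apply, cmp_mul, Pi.zero_apply, cmp_zero] at h5
    exact h5
  have hrec : ∀ {p q : ℕ} (v : Fin p → MonoidAlgebra ℤ Γ) (w : Γ → Fin q → MonoidAlgebra ℤ F)
      (A : Matrix (Fin q) (Fin p) (MonoidAlgebra ℤ F)),
      (∀ γ, (fun i => cmp F γ (v i)) = w γ ᵥ* A) → ∃ s : Fin q → MonoidAlgebra ℤ Γ,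
        v = s ᵥ* (A.map (inc F)) := by
    intro p q v w A hw
    obtain ⟨T, hT⟩ := exists_reps F (Finset.univ.biUnion fun i => (v i).coeff.support)
    refine ⟨∑ γ ∈ T, fun i => MonoidAlgebra.single γ (1 : ℤ) * inc F (w γ i), ?_⟩
    rw [Matrix.sum_vecMul]
    ext1 i
    rw [hT (v i) (Finset.subset_biUnion_of_mem (fun i => (v i).coeff.support) (Finset.mem_univ i)),
      Finset.sum_apply]
    refine Finset.sum_congr rfl fun γ _ => ?_
    have h5 := congrArg (inc F) (congrFun (hw γ) i)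
    have h6 := congrFun (map_vecMul (inc F) (w γ) A) i
    rw [h5, h6, Matrix.vecMul, Matrix.vecMul, dotProduct, dotProduct, Finset.mul_sum]
    exact Finset.sum_congr rfl fun _ _ => (mul_assoc _ _ _).symm
  refine ⟨m, (X.map (inc F)).submatrix id a, e.map (inc F), q, (Z.map (inc F)).submatrix a id, hq,
    ?_, fun i j g => hsup _ g, fun i j g => hsup _ g, fun i j g => hsup _ g, ?_, ?_, ?_, ?_⟩
  · rw [Matrix.submatrix_mul_equiv, ← hm, hZ]
    ext1 i j
    simp only [Matrix.submatrix_apply, Matrix.map_apply, Matrix.smul_apply, map_zsmul, id]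
  · rw [hΦ₀, Matrix.submatrix_mul_equiv, ← hm, h1]
    ext1 i j
    simp
  · have h5 : e.map (inc F) * (X.map (inc F)).submatrix id a
        = (e.map (inc F) * X.map (inc F)).submatrix id a := rfl
    rw [h5, ← hm, h2]
  · intro v hv
    have h5 : (fun i => v (a.symm i)) ᵥ* (Φ₀.map (inc F)) = 0 := by
      ext1 j
      have h6 := congrFun hv (b.symm j)
      rw [hΦ₀] at h6
      simp only [Matrix.vecMul, dotProduct, Matrix.submatrix_apply, Equiv.apply_symm_apply,
        Pi.zero_apply] at h6 ⊢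
      rw [← h6]
      exact (Equiv.sum_comp a _).symm.trans (Finset.sum_congr rfl fun i _ => by simp)
    have h6 : ∀ γ, ∃ s : Fin m → MonoidAlgebra ℤ F, (fun i => cmp F γ (v (a.symm i))) = s ᵥ* X :=
      fun γ => h3 _ (hgen _ _ γ h5)
    choose w hw using h6
    obtain ⟨s, hs⟩ := hrec _ w X hw
    refine ⟨s, ?_⟩
    ext1 k
    have h7 := congrFun hs (a k)
    simp only [Equiv.symm_apply_apply] at h7
    exact h7
  · intro s hs
    have h5 : s ᵥ* (X.map (inc F)) = 0 := by
      ext1 j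
      have h6 := congrFun hs (a.symm j)
      simpa [Matrix.vecMul, dotProduct] using h6
    have h6 : ∀ γ, (fun i => cmp F γ (s i)) ᵥ* e = 0 := fun γ => h4 _ (hgen _ _ γ h5)
    ext j g
    obtain ⟨T, hT⟩ := exists_reps F {g}
    have h7 := congrFun (h6 g) j
    have h8 : cmp F g ((s ᵥ* e.map (inc F)) j) = 0 := by
      rw [Matrix.vecMul, dotProduct, cmp_sum]
      simp only [Matrix.map_apply, cmp_mul]
      exact h7
    have h9 := congrArg (fun x => x.coeff 1) h8
    simp only [coeff_cmp, OneMemClass.coe_one, mul_one] at h9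
    exact h9

end bc

section pr

variable (E : Subgroup Γ)

/-- kernels for one subgroup and rows in the set `P` -/
theorem lift_one' (hE : ∀ F : Subgroup Γ, F ≤ E → F.FG → KQ F) {κ μ : Type} [Fintype κ] [Fintype μ]
    (P : κ → Prop) (A : Matrix κ μ (MonoidAlgebra ℤ Γ)) :
    ∃ (m : ℕ) (X : Matrix (Fin m) κ (MonoidAlgebra ℤ Γ))
      (e : Matrix (Fin m) (Fin m) (MonoidAlgebra ℤ Γ)) (q : ℤ)
      (Z : Matrix κ (Fin m) (MonoidAlgebra ℤ Γ)), q ≠ 0 ∧ X * Z = q • e ∧
      (∀ i j g, (Z i j).coeff g ≠ 0 → g ∈ E) ∧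
      (∀ i j g, (X i j).coeff g ≠ 0 → g ∈ E) ∧ (∀ i j g, (e i j).coeff g ≠ 0 → g ∈ E) ∧
      (∀ i j, X i j ≠ 0 → P j) ∧
      X * A = 0 ∧ e * X = X ∧
      (∀ (g₀ : Γ) (v : κ → MonoidAlgebra ℤ Γ),
        (∀ k g, (v k).coeff g ≠ 0 → g₀⁻¹ * g ∈ E ∧ P k) → v ᵥ* A = 0 →
          ∃ s : Fin m → MonoidAlgebra ℤ Γ, v = s ᵥ* X) ∧
      (∀ s : Fin m → MonoidAlgebra ℤ Γ, s ᵥ* X = 0 → s ᵥ* e = 0) := by
  classical
  let T : Finset Γ := Finset.univ.biUnion fun k => Finset.univ.biUnion fun l => (A k l).coeff.support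
  have hT : ∀ k l g, (A k l).coeff g ≠ 0 → g ∈ T := by
    intro k l g hg
    simp only [T, Finset.mem_biUnion, Finset.mem_univ, true_and]
    exact ⟨k, l, Finsupp.mem_support_iff.mpr hg⟩
  let Φ : Matrix κ ((μ × T) ⊕ κ) (MonoidAlgebra ℤ Γ) := fun k c =>
    match c with
    | Sum.inl c => prE E (A k c.1 * MonoidAlgebra.single (c.2 : Γ)⁻¹ 1)
    | Sum.inr k' => if k = k' ∧ ¬ P k then 1 else 0
  have hΦE : ∀ i j g, (Φ i j).coeff g ≠ 0 → g ∈ E := by
    rintro i (j | j) g hg
    · by_contra h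
      exact hg (by simp only [Φ]; rw [coeff_prE, if_neg h])
    · simp only [Φ] at hg
      split_ifs at hg with h
      · rw [MonoidAlgebra.one_def, MonoidAlgebra.coeff_single, Finsupp.single_apply] at hg
        have : 1 = g := by
          by_contra h2
          exact hg (if_neg h2)
        rw [← this]
        exact E.one_mem
      · exact absurd rfl hg
  let D : Finset Γ := Finset.univ.biUnion fun k => Finset.univ.biUnion fun l => (Φ k l).coeff.support
  let F : Subgroup Γ := Subgroup.closure (D : Set Γ)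
  have hFfg : F.FG := ⟨D, rfl⟩
  have hFE : F ≤ E := by
    rw [Subgroup.closure_le]
    intro g hg
    simp only [D, Finset.mem_coe, Finset.mem_biUnion, Finset.mem_univ, true_and] at hg
    obtain ⟨k, l, h⟩ := hg
    exact hΦE k l g (Finsupp.mem_support_iff.mp h)
  have hΦF : ∀ i j g, (Φ i j).coeff g ≠ 0 → g ∈ F := by
    intro i j g hg
    apply Subgroup.subset_closure
    simp only [D, Finset.mem_coe, Finset.mem_biUnion, Finset.mem_univ, true_and]
    exact ⟨i, j, Finsupp.mem_support_iff.mpr hg⟩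
  obtain ⟨m, X, e, q, Z, hq, hXZ, hZF, hXF, heF, h1, h2, h3, h4⟩ :=
    base_change' F (hE F hFE hFfg) Φ hΦF
  have hXP : ∀ i j, X i j ≠ 0 → P j := by
    intro i j hij
    by_contra hP
    apply hij
    have h5 := congrFun (congrFun h1 i) (Sum.inr j)
    rw [Matrix.mul_apply] at h5
    simp only [Φ] at h5
    rw [Finset.sum_eq_single_of_mem j (Finset.mem_univ j)] at h5
    · rw [if_pos ⟨rfl, hP⟩, mul_one] at h5
      exact h5
    · intro b _ hb
      rw [if_neg (fun h => hb h.1), mul_zero]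
  refine ⟨m, X, e, q, Z, hq, hXZ, fun i j g hg => hFE (hZF i j g hg),
    fun i j g hg => hFE (hXF i j g hg), fun i j g hg => hFE (heF i j g hg), hXP,
    ?_, h2, ?_, h4⟩
  · ext i l g
    by_contra hne
    rw [Matrix.mul_apply, coeff_sum'] at hne
    obtain ⟨k, _, hk⟩ := Finset.exists_ne_zero_of_sum_ne_zero hne
    obtain ⟨a, ha1, ha2⟩ := coeff_mul_ne hk
    have ht := hT _ _ _ ha2
    have h5 := congrFun (congrFun h1 i) (Sum.inl (l, ⟨a⁻¹ * g, ht⟩))
    have h6 : (X * Φ) i (Sum.inl (l, ⟨a⁻¹ * g, ht⟩))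
        = prE E (∑ k, X i k * (A k l * MonoidAlgebra.single (a⁻¹ * g)⁻¹ 1)) := by
      rw [Matrix.mul_apply, prE_sum]
      refine Finset.sum_congr rfl fun k _ => ?_
      rw [prE_mul E _ _ (fun g hg => hFE (hXF i k g hg))]
    rw [h6] at h5
    have h7 := congrArg (fun x => x.coeff a) h5
    rw [coeff_prE, if_pos (hFE (hXF _ _ _ ha1)), coeff_sum'] at h7
    apply hne
    refine Eq.trans ?_ h7
    refine Finset.sum_congr rfl fun k' _ => ?_
    rw [← mul_assoc, MonoidAlgebra.coeff_mul_single_apply, mul_one]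
    congr 1
    group
  · intro g₀ v hv hvA
    apply h3
    ext1 c
    rcases c with ⟨l, t⟩ | k'
    · have h5 : (v ᵥ* Φ) (Sum.inl (l, t)) = MonoidAlgebra.single g₀ 1 *
          prE E (∑ k, (MonoidAlgebra.single g₀⁻¹ 1 * v k) *
            (A k l * MonoidAlgebra.single (t : Γ)⁻¹ 1)) := by
        rw [prE_sum, Finset.mul_sum, Matrix.vecMul, dotProduct]
        refine Finset.sum_congr rfl fun k _ => ?_
        rw [prE_mul E]
        · rw [← mul_assoc, ← mul_assoc, MonoidAlgebra.single_mul_single, mul_inv_cancel, mul_one]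
          rw [← MonoidAlgebra.one_def, one_mul]
        · intro g hg
          rw [MonoidAlgebra.coeff_single_mul_apply, one_mul, inv_inv] at hg
          have := (hv k _ hg).1
          rwa [inv_mul_cancel_left] at this
      rw [h5]
      have h6 : ∑ k, (MonoidAlgebra.single g₀⁻¹ (1 : ℤ) * v k) *
            (A k l * MonoidAlgebra.single (t : Γ)⁻¹ 1)
          = MonoidAlgebra.single g₀⁻¹ (1 : ℤ) * ((v ᵥ* A) l) * MonoidAlgebra.single (t : Γ)⁻¹ 1 := by
        rw [Matrix.vecMul, dotProduct, Finset.mul_sum, Finset.sum_mul]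
        exact Finset.sum_congr rfl fun k _ => by simp only [mul_assoc]
      rw [h6, hvA, Pi.zero_apply, mul_zero, zero_mul, prE_zero, mul_zero]
      rfl
    · simp only [Matrix.vecMul, dotProduct, Φ]
      rw [Finset.sum_eq_single_of_mem k' (Finset.mem_univ k')]
      · split_ifs with h
        · have : v k' = 0 := by
            ext g
            by_contra h5
            exact h.2 (hv k' g h5).2
          rw [this, zero_mul]; rfl
        · rw [mul_zero]; rfl
      · intro b _ hb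
        rw [if_neg (fun h => hb h.1), mul_zero]

end pr

section lift

variable {Λ : Type} [MulAction Γ Λ] {κ μ : Type} [Fintype κ] [Fintype μ]

/-- all finitely generated subgroups of stabilisers of labels have good kernels -/
def SKQ (Γ : Type) [Group Γ] {Λ : Type} [MulAction Γ Λ] {κ : Type} (ℓ : κ → Λ) : Prop :=
  ∀ k, ∀ F : Subgroup Γ, F ≤ MulAction.stabilizer Γ (ℓ k) → F.FG → KQ F

theorem lift_all' {ℓ : κ → Λ} (hn : Nrm Γ ℓ) (hK : SKQ Γ ℓ) (A : Matrix κ μ (MonoidAlgebra ℤ Γ)) :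
    ∃ (M : Type) (_ : Fintype M) (_ : DecidableEq M) (ℓM : M → Λ)
      (X : Matrix M κ (MonoidAlgebra ℤ Γ)) (e : Matrix M M (MonoidAlgebra ℤ Γ)) (q : ℤ)
      (Z : Matrix κ M (MonoidAlgebra ℤ Γ)), q ≠ 0 ∧ X * Z = q • e ∧
      Sup ℓ ℓM (fun x y => x = y) Z ∧
      (∀ j, ∃ k, ℓM j = ℓ k) ∧
      Sup ℓM ℓ (fun x y => x = y) X ∧ Sup ℓM ℓM (fun x y => x = y) e ∧
      X * A = 0 ∧ e * X = X ∧
      (∀ y v, At ℓ y v → v ᵥ* A = 0 → ∃ s : M → MonoidAlgebra ℤ Γ, v = s ᵥ* X) ∧
      (∀ s : M → MonoidAlgebra ℤ Γ, s ᵥ* X = 0 → s ᵥ* e = 0) := by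
  classical
  have h := fun p : κ => lift_one' (MulAction.stabilizer Γ (ℓ p)) (hK p) (fun k => ℓ k = ℓ p) A
  -- one representative for each value of the labels
  let P : Type := Set.range ℓ
  have : Fintype P := Fintype.ofFinite _
  have hP : ∀ p : P, ∃ k, ℓ k = p.1 := fun p => p.2
  choose r hr using hP
  have h := fun p : P => lift_one' (MulAction.stabilizer Γ p.1)
    (by have := hK (r p); rwa [hr] at this) (fun k => ℓ k = p.1) A
  choose m X e q Z hq hXZ hZ hX he hXP hXA heX hker hinj using h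
  have hdiff : ∀ (p : P) i k, ℓ k ≠ p.1 → X p i k = 0 := by
    intro p i k hk
    by_contra h2
    exact hk (hXP p i k h2)
  let XX : Matrix (Σ p : P, Fin (m p)) κ (MonoidAlgebra ℤ Γ) := fun q k => X q.1 q.2 k
  have hrow : ∀ (s : (Σ p : P, Fin (m p)) → MonoidAlgebra ℤ Γ) (k : κ),
      (s ᵥ* XX) k = ∑ p : P, ((fun i => s ⟨p, i⟩) ᵥ* X p) k := by
    intro s k
    simp only [Matrix.vecMul, dotProduct, XX]
    rw [Fintype.sum_sigma]
  let ZZ : Matrix κ (Σ p : P, Fin (m p)) (MonoidAlgebra ℤ Γ) := fun k c => if ℓ k = c.1.1 then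
      (∏ p ∈ Finset.univ.erase c.1, q p) • Z c.1 k c.2 else 0
  refine ⟨Σ p : P, Fin (m p), inferInstance, inferInstance, fun q => q.1.1, XX,
    Matrix.blockDiagonal' e, ∏ p : P, q p, ZZ,
    Finset.prod_ne_zero_iff.mpr fun p _ => hq p, ?_, ?_,
    fun q => ⟨r q.1, (hr q.1).symm⟩, ?_, ?_, ?_, ?_, ?_, ?_⟩
  · ext1 c c'
    rcases c with ⟨p, i⟩
    rcases c' with ⟨p', j⟩
    rw [Matrix.mul_apply, Matrix.smul_apply]
    by_cases hp : p = p'
    · subst hp
      rw [Matrix.blockDiagonal'_apply_eq, ← Finset.mul_prod_erase _ _ (Finset.mem_univ p), mul_comm,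
        mul_smul]
      have h1 := congrFun (congrFun (hXZ p) i) j
      rw [Matrix.smul_apply] at h1
      rw [← h1, Matrix.mul_apply, Finset.smul_sum]
      refine Finset.sum_congr rfl fun k _ => ?_
      simp only [XX, ZZ]
      split_ifs with h2
      · rw [mul_smul_comm]
      · rw [hdiff p i k h2, mul_zero, zero_mul, smul_zero]
    · rw [Matrix.blockDiagonal'_apply_ne e i j hp, smul_zero]
      refine Finset.sum_eq_zero fun k _ => ?_
      simp only [XX, ZZ]
      split_ifs with h2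
      · rw [hdiff p i k (fun h3 => hp (Subtype.ext (h3.symm.trans h2))), zero_mul]
      · rw [mul_zero]
  · rintro k ⟨p, j⟩ g hg
    simp only [ZZ] at hg
    split_ifs at hg with h1
    · have h2 : (Z p k j).coeff g ≠ 0 := by
        intro h3
        apply hg
        rw [coeff_zsmul', h3, mul_zero]
      have h3 := hZ p k j g h2
      rw [MulAction.mem_stabilizer_iff] at h3
      change ℓ k = g • p.1
      rw [h1, h3]
    · exact absurd rfl hg
  · rintro ⟨p, i⟩ k g hg
    have h1 : ℓ k = p.1 := by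
      by_contra h2
      exact hg (by simp only [XX]; rw [hdiff p i k h2]; rfl)
    have h2 := hX p i k g hg
    rw [MulAction.mem_stabilizer_iff] at h2
    change p.1 = g • ℓ k
    rw [h1, h2]
  · rintro ⟨p, i⟩ ⟨q, j⟩ g hg
    rw [Matrix.blockDiagonal'_apply] at hg
    split_ifs at hg with h1
    · simp only at h1
      subst h1
      have h2 := he p i j g hg
      exact (MulAction.mem_stabilizer_iff.mp h2).symm
    · exact absurd rfl hg
  · refine funext fun q => ?_
    exact congrFun (hXA q.1) q.2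
  · ext1 q k
    rcases q with ⟨p, i⟩
    rw [Matrix.mul_apply, Fintype.sum_sigma, Finset.sum_eq_single_of_mem p (Finset.mem_univ p)]
    · simp only [Matrix.blockDiagonal'_apply_eq]
      exact congrFun (congrFun (heX p) i) k
    · intro q _ hq
      refine Finset.sum_eq_zero fun j _ => ?_
      rw [Matrix.blockDiagonal'_apply_ne e i j (Ne.symm hq), zero_mul]
  · intro y v hv hvA
    by_cases hv0 : v = 0
    · exact ⟨0, by rw [hv0, Matrix.zero_vecMul]⟩
    obtain ⟨k₀, hk₀⟩ : ∃ k, v k ≠ 0 := by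
      by_contra h2
      push Not at h2
      exact hv0 (funext h2)
    obtain ⟨g₀, hg₀⟩ : ∃ g, (v k₀).coeff g ≠ 0 := by
      by_contra h2
      push Not at h2
      exact hk₀ (by ext g; exact h2 g)
    have hy := hv k₀ g₀ hg₀
    let p : P := ⟨ℓ k₀, k₀, rfl⟩
    obtain ⟨s, hs⟩ := hker p g₀ v (by
      intro k g hg
      have h2 := hv k g hg
      have h3 : (g₀⁻¹ * g) • ℓ k = ℓ k₀ := by
        rw [mul_smul, h2, ← hy, inv_smul_smul]
      have h4 := hn _ _ _ h3
      refine ⟨?_, h4⟩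
      rw [MulAction.mem_stabilizer_iff]
      change _ • ℓ k₀ = ℓ k₀
      rw [← h4]
      rw [← h4] at h3
      exact h3) hvA
    refine ⟨fun q => if h : q.1 = p then s (h ▸ q.2) else 0, ?_⟩
    ext1 k
    rw [hrow, Finset.sum_eq_single_of_mem p (Finset.mem_univ p)]
    · simp only [dite_true]
      exact congrFun hs k
    · intro q _ hq
      simp only [hq, dite_false]
      exact congrFun (Matrix.zero_vecMul _) k
  · intro s hs
    have h1 : ∀ p : P, (fun i => s ⟨p, i⟩) ᵥ* X p = 0 := by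
      intro p
      ext1 k
      by_cases hk : ℓ k = p.1
      · have h2 := congrFun hs k
        rw [hrow, Finset.sum_eq_single_of_mem p (Finset.mem_univ p)] at h2
        · exact h2
        · intro q _ hq
          rw [Matrix.vecMul, dotProduct]
          refine Finset.sum_eq_zero fun j _ => ?_
          rw [hdiff q j k (fun h => hq (Subtype.ext (h.symm.trans hk))), mul_zero]
      · rw [Matrix.vecMul, dotProduct]
        refine Finset.sum_eq_zero fun j _ => ?_
        rw [hdiff p j k hk, mul_zero]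
    ext1 q
    rcases q with ⟨p, i⟩
    have h2 := congrFun (hinj p _ (h1 p)) i
    rw [Matrix.vecMul, dotProduct, Fintype.sum_sigma,
      Finset.sum_eq_single_of_mem p (Finset.mem_univ p)]
    · simp only [Matrix.blockDiagonal'_apply_eq]
      exact h2
    · intro q _ hq
      refine Finset.sum_eq_zero fun j _ => ?_
      rw [Matrix.blockDiagonal'_apply_ne e j i hq, mul_zero]

/-- the same for matrices whose support is vertical -/
theorem lift_eq' {ℓ : κ → Λ} {ℓ' : μ → Λ} (hn : Nrm Γ ℓ) (hK : SKQ Γ ℓ)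
    (A : Matrix κ μ (MonoidAlgebra ℤ Γ)) (hA : Sup ℓ ℓ' (fun x y => x = y) A) :
    ∃ (M : Type) (_ : Fintype M) (_ : DecidableEq M) (ℓM : M → Λ)
      (X : Matrix M κ (MonoidAlgebra ℤ Γ)) (e : Matrix M M (MonoidAlgebra ℤ Γ)) (q : ℤ)
      (Z : Matrix κ M (MonoidAlgebra ℤ Γ)), q ≠ 0 ∧ X * Z = q • e ∧
      Sup ℓ ℓM (fun x y => x = y) Z ∧
      (∀ j, ∃ k, ℓM j = ℓ k) ∧
      Sup ℓM ℓ (fun x y => x = y) X ∧ Sup ℓM ℓM (fun x y => x = y) e ∧
      X * A = 0 ∧ e * X = X ∧
      (∀ {ι : Type} (W : Matrix ι κ (MonoidAlgebra ℤ Γ)), W * A = 0 →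
        ∃ S : Matrix ι M (MonoidAlgebra ℤ Γ), W = S * X) ∧
      (∀ {ι : Type} (W : Matrix ι M (MonoidAlgebra ℤ Γ)), W * X = 0 → W * e = 0) := by
  obtain ⟨M, i1, i2, ℓM, X, e, q, Z, hq, hXZ, hZ, h1, h2, h3, h4, h5, h6, h7⟩ := lift_all' hn hK A
  refine ⟨M, i1, i2, ℓM, X, e, q, Z, hq, hXZ, hZ, h1, h2, h3, h4, h5, ?_, ?_⟩
  · intro ι W hW
    have hrow : ∀ i, ∃ s : M → MonoidAlgebra ℤ Γ, W i = s ᵥ* X := by
      intro i
      have hv : W i ᵥ* A = 0 := congrFun hW i
      have h8 := part_vecMul inv_eq hA (W i) hv (fun y₁ _ y₂ _ z e1 e2 => e1.trans e2.symm)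
      choose s hs using fun y => h6 y _ (at_part ℓ y (W i)) (h8 y)
      refine ⟨∑ y ∈ pts ℓ (W i), s y, ?_⟩
      rw [Matrix.sum_vecMul]
      conv_lhs => rw [sum_part ℓ (W i)]
      exact Finset.sum_congr rfl fun y _ => hs y
    choose S hS using hrow
    exact ⟨S, funext fun i => hS i⟩
  · intro ι W hW
    exact funext fun i => h7 (W i) (congrFun hW i)

end lift

end Pool.Agent.T9h15.UO
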